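import Pool.Agent.Work.MP_122e00_nt.Strip.Stmts

set_option autoImplicit false

/-!
# The joint strip, item Ae: different linear forms are different almost everywhere
-/

namespace Pool.Agent.Work.MP_122e00_nt.Strip

open Finset Filter Topology MeasureTheory

open scoped ArithmeticFunction.vonMangoldt ArithmeticFunction.zeta ENNReal

open Two Gen Pool.Agent.Work.MP_122e00_nt.Core Pool.Agent.Work.MP_122e00_nt.WR

namespace IAe

/-- indicator -/
def ind {n : ℕ} (S : Finset (Fin n)) (q : Fin n) : ℝ := if q ∈ S then 1 else 0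

/-- coefficients -/
def cf {s k : ℕ} (S : Finset (Fin (s + 1))) (σ : Fin k → Fin (s + 1)) : Fin k ⊕ Fin s → ℝ :=
  Sum.elim (fun j => ind S (σ j) - ind S (Fin.last s)) (fun i => ind S i.castSucc - ind S (Fin.last s))

theorem ell_eq {s k : ℕ} (S : Finset (Fin (s + 1))) (σ : Fin k → Fin (s + 1))
    (y : Fin k ⊕ Fin s → ℝ) :
    ell S σ (fun i => y (Sum.inl i)) (Fin.snoc (fun i => y (Sum.inr i)) (1 - ∑ i, y i)) =
      ∑ i, cf S σ i * y i + ind S (Fin.last s) := by
  unfold ell
  rw [Finset.sum_add_distrib]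
  have h1 : ∑ q ∈ S, (Fin.snoc (fun i => y (Sum.inr i)) (1 - ∑ i, y i) : Fin (s + 1) → ℝ) q =
      ∑ i : Fin s, ind S i.castSucc * y (Sum.inr i) + ind S (Fin.last s) * (1 - ∑ i, y i) := by
    have e : ∑ q ∈ S, (Fin.snoc (fun i => y (Sum.inr i)) (1 - ∑ i, y i) : Fin (s + 1) → ℝ) q =
        ∑ q : Fin (s + 1), ind S q *
          (Fin.snoc (fun i => y (Sum.inr i)) (1 - ∑ i, y i) : Fin (s + 1) → ℝ) q := by
      simp only [ind, ite_mul, one_mul, zero_mul]
      rw [Finset.sum_ite_mem, Finset.univ_inter]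
    rw [e, Fin.sum_univ_castSucc]
    simp only [Fin.snoc_castSucc, Fin.snoc_last]
  have h2 : ∑ q ∈ S, ∑ j, (if σ j = q then y (Sum.inl j) else 0) =
      ∑ j, ind S (σ j) * y (Sum.inl j) := by
    rw [Finset.sum_comm]
    apply Finset.sum_congr rfl
    intro j _
    rw [Finset.sum_ite_eq]
    simp only [ind, ite_mul, one_mul, zero_mul]
  rw [h1, h2, Fintype.sum_sum_type, Fintype.sum_sum_type]
  simp only [cf, Sum.elim_inl, Sum.elim_inr, sub_mul, Finset.sum_sub_distrib, ← Finset.mul_sum]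
  ring

theorem ind_inj {n : ℕ} {S S' : Finset (Fin n)} {q q' : Fin n} (h : ind S q = ind S' q') :
    (q ∈ S ↔ q' ∈ S') := by
  unfold ind at h
  by_cases h1 : q ∈ S <;> by_cases h2 : q' ∈ S' <;> simp_all

theorem one_case {s k : ℕ} {S S' : Finset (Fin (s + 1))} {σ σ' : Fin k → Fin (s + 1)}
    (hc : cf S σ = cf S' σ') (h1 : Fin.last s ∈ S) (h2 : Fin.last s ∉ S') : S = univ := by
  ext q
  simp only [mem_univ, iff_true]
  refine Fin.lastCases h1 (fun i => ?_) q
  have h := congrFun hc (Sum.inr i)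
  simp only [cf, Sum.elim_inr] at h
  by_contra hq
  have e1 : ind S i.castSucc = 0 := by simp [ind, hq]
  have e2 : ind S (Fin.last s) = 1 := by simp [ind, h1]
  have e3 : ind S' (Fin.last s) = 0 := by simp [ind, h2]
  have e4 : 0 ≤ ind S' i.castSucc := by
    unfold ind
    split_ifs <;> norm_num
  rw [e1, e2, e3] at h
  linarith

theorem alg {s k : ℕ} {S S' : Finset (Fin (s + 1))} {σ σ' : Fin k → Fin (s + 1)}
    (hc : cf S σ = cf S' σ') (hS : S ≠ univ) (hS' : S' ≠ univ) :
    S = S' ∧ ∀ j, (σ j ∈ S ↔ σ' j ∈ S) := by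
  have hl : (Fin.last s ∈ S ↔ Fin.last s ∈ S') := by
    by_cases h1 : Fin.last s ∈ S <;> by_cases h2 : Fin.last s ∈ S'
    · exact ⟨fun _ => h2, fun _ => h1⟩
    · exact absurd (one_case hc h1 h2) hS
    · exact absurd (one_case hc.symm h2 h1) hS'
    · exact ⟨fun h => absurd h h1, fun h => absurd h h2⟩
  have hle : ind S (Fin.last s) = ind S' (Fin.last s) := by
    unfold ind
    by_cases h1 : Fin.last s ∈ S
    · rw [if_pos h1, if_pos (hl.1 h1)]
    · rw [if_neg h1, if_neg (fun h => h1 (hl.2 h))]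
  have hSS : S = S' := by
    ext q
    refine Fin.lastCases hl (fun i => ?_) q
    have h := congrFun hc (Sum.inr i)
    simp only [cf, Sum.elim_inr] at h
    exact ind_inj (by linarith)
  refine ⟨hSS, fun j => ?_⟩
  have h := congrFun hc (Sum.inl j)
  simp only [cf, Sum.elim_inl] at h
  have := ind_inj (q := σ j) (q' := σ' j) (S := S) (S' := S') (by linarith)
  rw [this, hSS]

end IAe

theorem prAe (hL6 : Two.claimL6) : claimAe := by
  intro s k
  rw [ae_all_iff]
  intro σ
  rw [ae_all_iff]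
  intro σ'
  rw [ae_all_iff]
  intro S
  rw [ae_all_iff]
  intro S'
  by_cases hc : IAe.cf S σ = IAe.cf S' σ'
  · exact Filter.Eventually.of_forall (fun y hS hS' _ => IAe.alg hc hS hS')
  · have hne : IAe.cf S σ - IAe.cf S' σ' ≠ 0 := sub_ne_zero.2 hc
    have h0 := hL6 (Fin k ⊕ Fin s) (IAe.cf S σ - IAe.cf S' σ')
      (IAe.ind S' (Fin.last s) - IAe.ind S (Fin.last s)) hne
    rw [ae_iff]
    refine measure_mono_null ?_ h0
    intro y hy
    by_contra hy'
    apply hy
    intro _ _ heq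
    exfalso
    apply hy'
    rw [IAe.ell_eq, IAe.ell_eq] at heq
    change ∑ i, (IAe.cf S σ - IAe.cf S' σ') i * y i = _
    simp only [Pi.sub_apply, sub_mul, Finset.sum_sub_distrib]
    linarith

end Pool.Agent.Work.MP_122e00_nt.Strip
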