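import Pool.Agent.Work.MP_122e00_nt.Strip.Stmts
import Pool.Agent.Work.MP_122e00_nt.Core.I_C4

set_option autoImplicit false

/-!
# The joint strip, item Bn: bounds for the sum over the layers
-/

namespace Pool.Agent.Work.MP_122e00_nt.Strip

open Finset Filter Topology MeasureTheory

open scoped ArithmeticFunction.vonMangoldt ArithmeticFunction.zeta ENNReal

open Two Gen Pool.Agent.Work.MP_122e00_nt.Core Pool.Agent.Work.MP_122e00_nt.WR

namespace IBn

theorem ta_nonneg (t : ℝ) : 0 ≤ ta t := le_max_left _ _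

theorem ta_le (t : ℝ) : ta t ≤ 1 := max_le zero_le_one (min_le_left _ _)

theorem ta_cont : Continuous ta := by
  unfold ta
  exact continuous_const.max (continuous_const.min (continuous_const.sub continuous_abs))

variable {s k : ℕ}

theorem lw_nonneg (𝒮 : Finset (Finset (Fin (s + 1)))) (α β δ : ℝ) (m : ℕ)
    (v : Fin (s + 1) → ℝ) : 0 ≤ lw 𝒮 α β δ m v :=
  Finset.sum_nonneg fun _ _ => ta_nonneg _

theorem lw_le (𝒮 : Finset (Finset (Fin (s + 1)))) (α β δ : ℝ) (m : ℕ)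
    (v : Fin (s + 1) → ℝ) : lw 𝒮 α β δ m v ≤ 𝒮.card := by
  unfold lw
  calc ∑ S ∈ 𝒮, ta ((α + β * ∑ q ∈ S, v q) / δ - m) ≤ ∑ _S ∈ 𝒮, (1 : ℝ) :=
        Finset.sum_le_sum fun _ _ => ta_le _
    _ = 𝒮.card := by rw [Finset.sum_const, nsmul_eq_mul, mul_one]

theorem lw_cont (𝒮 : Finset (Finset (Fin (s + 1)))) (α β δ : ℝ) (m : ℕ) :
    Continuous (lw 𝒮 α β δ m) := by
  unfold lw
  refine continuous_finsetSum _ fun S _ => ta_cont.comp ?_
  exact ((continuous_const.add (continuous_const.mul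
    (continuous_finsetSum _ fun q _ => continuous_apply q))).div_const δ).sub continuous_const

/-- The positions. -/
noncomputable def pos (k s : ℕ) (y : Fin k ⊕ Fin s → ℝ) : (Fin k → ℝ) × (Fin (s + 1) → ℝ) :=
  (fun i => y (Sum.inl i), Fin.snoc (fun i => y (Sum.inr i)) (1 - ∑ i, y i))

theorem pos_cont : Continuous (pos k s) := by
  unfold pos
  refine Continuous.prodMk (continuous_pi fun i => continuous_apply _) ?_
  refine continuous_pi fun q => ?_
  refine Fin.lastCases ?_ (fun q' => ?_) q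
  · simp only [Fin.snoc_last]
    exact continuous_const.sub (continuous_finsetSum _ fun i _ => continuous_apply i)
  · simp only [Fin.snoc_castSucc]
    exact continuous_apply _

theorem ext_pos (F : (Fin k → ℝ) → (Fin (s + 1) → ℝ) → ℝ) (y : Fin k ⊕ Fin s → ℝ) :
    Two.ext F (y, 1 - ∑ i, y i) = F (pos k s y).1 (pos k s y).2 := rfl

theorem stp_meas (c : ℝ) :
    MeasurableSet {p : (Fin (k + 1) → ℝ) × (Fin (s + 1) → ℝ) | stp c p.1} := by
  have h1 : MeasurableSet {p : (Fin (k + 1) → ℝ) × (Fin (s + 1) → ℝ) | c ≤ ∑ j, p.1 j} :=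
    measurableSet_le measurable_const
      (Finset.measurable_sum _ fun i _ => (measurable_pi_apply i).comp measurable_fst)
  have h2 : MeasurableSet {p : (Fin (k + 1) → ℝ) × (Fin (s + 1) → ℝ) |
      ∑ j : Fin k, p.1 j.castSucc < c} :=
    measurableSet_lt (Finset.measurable_sum _ fun i _ =>
      (measurable_pi_apply (Fin.castSucc i)).comp measurable_fst) measurable_const
  exact h1.inter h2

theorem na_meas (c₀ : ℝ) :
    Measurable (fun p : (Fin k → ℝ) × (Fin (s + 1) → ℝ) => na c₀ p.1) := by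
  unfold na
  simp only [Finset.card_filter]
  refine Finset.measurable_sum _ fun j _ => Measurable.ite ?_ measurable_const measurable_const
  exact measurableSet_le measurable_const
    (Finset.measurable_sum _ fun i _ => (measurable_pi_apply i).comp measurable_fst)

theorem ell_cont (S : Finset (Fin (s + 1))) (σ : Fin k → Fin (s + 1)) :
    Continuous (fun p : (Fin k → ℝ) × (Fin (s + 1) → ℝ) => ell S σ p.1 p.2) := by
  unfold ell
  refine continuous_finsetSum _ fun q _ => Continuous.add ?_ ?_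
  · exact (continuous_apply q).comp continuous_snd
  · refine continuous_finsetSum _ fun j _ => ?_
    split_ifs
    · exact (continuous_apply j).comp continuous_fst
    · exact continuous_const

theorem cn_meas (𝒮 : Finset (Finset (Fin (s + 1)))) (ρ : ℝ) :
    Measurable (fun p : (Fin k → ℝ) × (Fin (s + 1) → ℝ) => cn 𝒮 ρ p.1 p.2) := by
  unfold cn
  simp only [Finset.card_filter]
  refine Finset.measurable_sum _ fun j _ => Measurable.ite ?_ measurable_const measurable_const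
  exact measurableSet_lt ((ell_cont _ _).sub (ell_cont _ _)).abs.measurable measurable_const

theorem pw_meas (c₀ : ℝ) : Measurable
    (fun p : (Fin k → ℝ) × (Fin (s + 1) → ℝ) => ((s : ℝ) + 1) ^ na c₀ p.1) :=
  (Measurable.of_discrete (f := fun n : ℕ => ((s : ℝ) + 1) ^ n)).comp (na_meas c₀)

theorem Pl_cont {g : (Fin (s + 1) → ℝ) → ℝ} (hg : Continuous g) :
    Continuous (fun p : (Fin k → ℝ) × (Fin (s + 1) → ℝ) => Pl g p.1 p.2) := by
  unfold Pl
  refine continuous_finsetSum _ fun c' _ => hg.comp ?_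
  refine continuous_pi fun q => Continuous.add ?_ ?_
  · exact (continuous_apply q).comp continuous_snd
  · refine continuous_finsetSum _ fun j _ => ?_
    split_ifs
    · exact (continuous_apply j).comp continuous_fst
    · exact continuous_const

theorem FS_meas (c₀ c : ℝ) {g : (Fin (s + 1) → ℝ) → ℝ} (hg : Continuous g) : Measurable
    (fun p : (Fin k → ℝ) × (Fin (s + 1) → ℝ) => FS s c₀ c g k p.1 p.2) := by
  rcases k with _ | k
  · exact measurable_const
  · classical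
    simp only [FS]
    exact Measurable.ite (stp_meas c) (((Pl_cont hg).measurable.pow_const 2).div (pw_meas c₀))
      measurable_const

theorem GS_meas (c₀ c ρ : ℝ) (𝒮 : Finset (Finset (Fin (s + 1)))) : Measurable
    (fun p : (Fin k → ℝ) × (Fin (s + 1) → ℝ) => GS s c₀ c ρ 𝒮 k p.1 p.2) := by
  rcases k with _ | k
  · exact measurable_const
  · classical
    simp only [GS]
    refine Measurable.ite (stp_meas c) (Measurable.div (Measurable.const_mul ?_ 4) (pw_meas c₀))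
      measurable_const
    exact (Measurable.of_discrete (f := fun n : ℕ => (n : ℝ))).comp (cn_meas 𝒮 ρ)

theorem FB_meas (c : ℝ) : Measurable
    (fun p : (Fin k → ℝ) × (Fin (s + 1) → ℝ) => FB s c k p.1 p.2) := by
  rcases k with _ | k
  · exact measurable_const
  · classical
    simp only [FB]
    exact Measurable.ite (stp_meas c) measurable_const measurable_const

theorem integ (h8 : Two.claimT8) {F : (Fin k → ℝ) → (Fin (s + 1) → ℝ) → ℝ}
    (hF : Measurable fun p : (Fin k → ℝ) × (Fin (s + 1) → ℝ) => F p.1 p.2) (C : ℝ)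
    (h0 : ∀ x v, 0 ≤ F x v) (h1 : ∀ x v, F x v ≤ C) :
    IntegrableOn (fun y : Fin k ⊕ Fin s → ℝ => Two.ext F (y, 1 - ∑ i, y i) * den y)
      (Sim k s) := by
  refine ((h8 k s).1.const_mul C).mono' ?_ ?_
  · exact ((hF.comp pos_cont.measurable).mul (Two.IT8.den_meas k s)).aestronglyMeasurable
  · filter_upwards [ae_restrict_mem (Two.IT8.Sim_meas k s)] with y hy
    have hd := IC4.den_nonneg hy
    have h2 : 0 ≤ Two.ext F (y, 1 - ∑ i, y i) := h0 _ _
    have h3 : Two.ext F (y, 1 - ∑ i, y i) ≤ C := h1 _ _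
    rw [Real.norm_of_nonneg (mul_nonneg h2 hd)]
    exact mul_le_mul_of_nonneg_right h3 hd

theorem nn {F : (Fin k → ℝ) → (Fin (s + 1) → ℝ) → ℝ} (h0 : ∀ x v, 0 ≤ F x v) :
    0 ≤ ∫ y in Sim k s, Two.ext F (y, 1 - ∑ i, y i) * den y := by
  refine integral_nonneg_of_ae ?_
  filter_upwards [ae_restrict_mem (Two.IT8.Sim_meas k s)] with y hy
  exact mul_nonneg (h0 _ _) (IC4.den_nonneg hy)

theorem sum_le (h8 : Two.claimT8) {F : ℕ → (Fin k → ℝ) → (Fin (s + 1) → ℝ) → ℝ}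
    {G : (Fin k → ℝ) → (Fin (s + 1) → ℝ) → ℝ}
    (hF : ∀ m, Measurable fun p : (Fin k → ℝ) × (Fin (s + 1) → ℝ) => F m p.1 p.2)
    (hG : Measurable fun p : (Fin k → ℝ) × (Fin (s + 1) → ℝ) => G p.1 p.2) (C C' : ℝ)
    (h0 : ∀ m x v, 0 ≤ F m x v) (h1 : ∀ m x v, F m x v ≤ C) (h2 : ∀ x v, 0 ≤ G x v)
    (h3 : ∀ x v, G x v ≤ C') (M : ℕ) (h : ∀ x v, ∑ m ∈ Finset.range M, F m x v ≤ G x v) :
    ∑ m ∈ Finset.range M, ∫ y in Sim k s, Two.ext (F m) (y, 1 - ∑ i, y i) * den y ≤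
      ∫ y in Sim k s, Two.ext G (y, 1 - ∑ i, y i) * den y := by
  rw [← integral_finsetSum _ fun m _ => integ h8 (hF m) C (h0 m) (h1 m)]
  refine integral_mono_ae (integrable_finsetSum _ fun m _ => integ h8 (hF m) C (h0 m) (h1 m))
    (integ h8 hG C' h2 h3) ?_
  filter_upwards [ae_restrict_mem (Two.IT8.Sim_meas k s)] with y hy
  show ∑ m ∈ Finset.range M, Two.ext (F m) (y, 1 - ∑ i, y i) * den y ≤ _
  rw [← Finset.sum_mul]
  exact mul_le_mul_of_nonneg_right (h _ _) (IC4.den_nonneg hy)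

theorem pw_one (s n : ℕ) : (1 : ℝ) ≤ ((s : ℝ) + 1) ^ n := by
  have h : (0 : ℝ) ≤ s := s.cast_nonneg
  exact one_le_pow₀ (by linarith)

theorem Pl_le (𝒮 : Finset (Finset (Fin (s + 1)))) (α β δ : ℝ) (m : ℕ) (x : Fin k → ℝ)
    (v : Fin (s + 1) → ℝ) : (Pl (lw 𝒮 α β δ m) x v) ^ 2 ≤
      ((𝒮.card : ℝ) * ((s : ℝ) + 1) ^ k) ^ 2 := by
  rw [← IC4.Pl_const (s := s) (𝒮.card : ℝ) x v]
  exact pow_le_pow_left₀ (IC4.Pl_nonneg (lw_nonneg 𝒮 α β δ m) x v)
    (IC4.Pl_mono (lw_le 𝒮 α β δ m) x v) 2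

theorem FS_nonneg (c₀ c : ℝ) (g : (Fin (s + 1) → ℝ) → ℝ) (x : Fin k → ℝ)
    (v : Fin (s + 1) → ℝ) : 0 ≤ FS s c₀ c g k x v := by
  rcases k with _ | k
  · exact le_rfl
  · simp only [FS]
    split_ifs
    · positivity
    · exact le_rfl

theorem FS_le (c₀ c : ℝ) (𝒮 : Finset (Finset (Fin (s + 1)))) (α β δ : ℝ) (m : ℕ)
    (x : Fin k → ℝ) (v : Fin (s + 1) → ℝ) :
    FS s c₀ c (lw 𝒮 α β δ m) k x v ≤ ((𝒮.card : ℝ) * ((s : ℝ) + 1) ^ k) ^ 2 := by
  rcases k with _ | k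
  · simp only [FS]
    positivity
  · simp only [FS]
    split_ifs
    · exact (div_le_self (sq_nonneg _) (pw_one s _)).trans (Pl_le 𝒮 α β δ m x v)
    · positivity

theorem cn_le (𝒮 : Finset (Finset (Fin (s + 1)))) (ρ : ℝ) (x : Fin k → ℝ)
    (v : Fin (s + 1) → ℝ) : (cn 𝒮 ρ x v : ℝ) ≤ ((𝒮.card : ℝ) * ((s : ℝ) + 1) ^ k) ^ 2 := by
  have h : cn 𝒮 ρ x v ≤ (𝒮.card * (s + 1) ^ k) ^ 2 := by
    unfold cn
    refine (Finset.card_filter_le _ _).trans (le_of_eq ?_)
    rw [Finset.card_product, Finset.card_product, Finset.card_univ, Fintype.card_fun,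
      Fintype.card_fin, Fintype.card_fin]
    ring
  calc (cn 𝒮 ρ x v : ℝ) ≤ (((𝒮.card * (s + 1) ^ k) ^ 2 : ℕ) : ℝ) := by exact_mod_cast h
    _ = ((𝒮.card : ℝ) * ((s : ℝ) + 1) ^ k) ^ 2 := by push_cast; ring

theorem GS_nonneg (c₀ c ρ : ℝ) (𝒮 : Finset (Finset (Fin (s + 1)))) (x : Fin k → ℝ)
    (v : Fin (s + 1) → ℝ) : 0 ≤ GS s c₀ c ρ 𝒮 k x v := by
  rcases k with _ | k
  · exact le_rfl
  · simp only [GS]
    split_ifs
    · positivity
    · exact le_rfl

theorem GS_le (c₀ c ρ : ℝ) (𝒮 : Finset (Finset (Fin (s + 1)))) (x : Fin k → ℝ)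
    (v : Fin (s + 1) → ℝ) :
    GS s c₀ c ρ 𝒮 k x v ≤ 4 * ((𝒮.card : ℝ) * ((s : ℝ) + 1) ^ k) ^ 2 := by
  rcases k with _ | k
  · simp only [GS]
    positivity
  · simp only [GS]
    split_ifs
    · refine (div_le_self (by positivity) (pw_one s _)).trans ?_
      exact mul_le_mul_of_nonneg_left (cn_le 𝒮 ρ x v) (by norm_num)
    · positivity

theorem FB_nonneg (c : ℝ) (x : Fin k → ℝ) (v : Fin (s + 1) → ℝ) : 0 ≤ FB s c k x v := by
  rcases k with _ | k
  · exact le_rfl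
  · simp only [FB]
    split_ifs
    · positivity
    · exact le_rfl

theorem FB_le (c : ℝ) (x : Fin k → ℝ) (v : Fin (s + 1) → ℝ) :
    FB s c k x v ≤ ((s : ℝ) + 1) ^ (2 * k) := by
  rcases k with _ | k
  · simp only [FB]
    positivity
  · simp only [FB]
    split_ifs
    · exact le_rfl
    · positivity

theorem pt1 (hSq : claimSq) (c₀ c : ℝ) (𝒮 : Finset (Finset (Fin (s + 1)))) (α β δ ρ : ℝ)
    (hδ : 0 < δ) (hβ : β ≠ 0) (hρ : 4 * δ ≤ ρ * |β|) (M : ℕ) (x : Fin k → ℝ)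
    (v : Fin (s + 1) → ℝ) :
    ∑ m ∈ Finset.range M, FS s c₀ c (lw 𝒮 α β δ m) k x v ≤ GS s c₀ c ρ 𝒮 k x v := by
  rcases k with _ | k
  · simp only [FS, GS, Finset.sum_const_zero]
    exact le_rfl
  · by_cases hst : stp c x
    · simp only [FS, GS, if_pos hst]
      rw [← Finset.sum_div]
      have hp := pw_one s (na c₀ x)
      exact div_le_div_of_nonneg_right (hSq s (k + 1) 𝒮 α β δ ρ hδ hβ hρ x v M)
        (by linarith)
    · simp only [FS, GS, if_neg hst, Finset.sum_const_zero]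
      exact le_rfl

theorem pt2 (hSq : claimSq) (c₀ c : ℝ) (𝒮 : Finset (Finset (Fin (s + 1)))) (α β δ : ℝ)
    (hδ : 0 < δ) (hβ : β ≠ 0) (M : ℕ) (x : Fin k → ℝ) (v : Fin (s + 1) → ℝ) :
    ∑ m ∈ Finset.range M, FS s c₀ c (lw 𝒮 α β δ m) k x v ≤
      4 * (𝒮.card : ℝ) ^ 2 * FB s c k x v := by
  have hb : 0 < |β| := abs_pos.2 hβ
  rcases k with _ | k
  · simp only [FS, FB, Finset.sum_const_zero, mul_zero]
    exact le_rfl
  · by_cases hst : stp c x
    · simp only [FS, FB, if_pos hst]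
      rw [← Finset.sum_div]
      have h1 := hSq s (k + 1) 𝒮 α β δ (4 * δ / |β|) hδ hβ
        (by rw [div_mul_cancel₀ _ hb.ne']) x v M
      refine (div_le_self (Finset.sum_nonneg fun _ _ => sq_nonneg _) (pw_one s _)).trans ?_
      refine h1.trans ?_
      have h2 := cn_le 𝒮 (4 * δ / |β|) x v
      have e : ((𝒮.card : ℝ) * ((s : ℝ) + 1) ^ (k + 1)) ^ 2 =
          (𝒮.card : ℝ) ^ 2 * ((s : ℝ) + 1) ^ (2 * (k + 1)) := by
        rw [mul_pow, ← pow_mul, mul_comm (k + 1) 2]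
      rw [e] at h2
      linarith
    · simp only [FS, FB, if_neg hst, Finset.sum_const_zero, mul_zero]
      exact le_rfl

end IBn

open IBn in
theorem prBn (hSq : claimSq) (h8 : Two.claimT8) : claimBn := by
  intro s c₀ c 𝒮 α β δ _ hβ hδ k
  refine ⟨fun m => nn (FS_nonneg c₀ c _), fun M => ⟨fun ρ hρ => ?_, ?_⟩⟩
  · exact sum_le h8 (F := fun m => FS s c₀ c (lw 𝒮 α β δ m) k) (G := GS s c₀ c ρ 𝒮 k)
      (fun m => FS_meas c₀ c (lw_cont 𝒮 α β δ m)) (GS_meas c₀ c ρ 𝒮) _ _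
      (fun m => FS_nonneg c₀ c _) (fun m => FS_le c₀ c 𝒮 α β δ m) (GS_nonneg c₀ c ρ 𝒮)
      (GS_le c₀ c ρ 𝒮) M (pt1 hSq c₀ c 𝒮 α β δ ρ hδ hβ hρ M)
  · have h := sum_le h8 (F := fun m => FS s c₀ c (lw 𝒮 α β δ m) k)
      (G := fun x v => 4 * (𝒮.card : ℝ) ^ 2 * FB s c k x v)
      (fun m => FS_meas c₀ c (lw_cont 𝒮 α β δ m)) ((FB_meas c).const_mul _) _
      (4 * (𝒮.card : ℝ) ^ 2 * ((s : ℝ) + 1) ^ (2 * k))
      (fun m => FS_nonneg c₀ c _) (fun m => FS_le c₀ c 𝒮 α β δ m)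
      (fun x v => mul_nonneg (by positivity) (FB_nonneg c x v))
      (fun x v => mul_le_mul_of_nonneg_left (FB_le c x v) (by positivity)) M
      (pt2 hSq c₀ c 𝒮 α β δ hδ hβ M)
    refine h.trans (le_of_eq ?_)
    rw [← integral_const_mul]
    refine integral_congr_ae (Eventually.of_forall fun y => ?_)
    show 4 * (𝒮.card : ℝ) ^ 2 * FB s c k (fun i => y (Sum.inl i))
        (Fin.snoc (fun i => y (Sum.inr i)) (1 - ∑ i, y i)) * den y =
      4 * (𝒮.card : ℝ) ^ 2 * (FB s c k (fun i => y (Sum.inl i))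
        (Fin.snoc (fun i => y (Sum.inr i)) (1 - ∑ i, y i)) * den y)
    ring

end Pool.Agent.Work.MP_122e00_nt.Strip
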