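import Pool.Agent.Work.MP_122e00_nt.Strip.Stmts
import Pool.Agent.Work.MP_122e00_nt.Bd.B45

set_option autoImplicit false

/-!
The supersolution of the chain integral.
-/

namespace Pool.Agent.Work.MP_122e00_nt.Strip

open Finset Filter Topology MeasureTheory

open scoped ArithmeticFunction.vonMangoldt ArithmeticFunction.zeta ENNReal

open Two Gen Pool.Agent.Work.MP_122e00_nt.Core Pool.Agent.Work.MP_122e00_nt.WR

namespace ICa

/-- the exact solution for one exponent -/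
theorem one (q : ℕ) (hq : 1 ≤ q) {a c : ℝ} (hac : a < c) (hc : c < 1) :
    1 + ∫⁻ t in Set.Ioo a c, ENNReal.ofReal ((q : ℝ) / (1 - t)) *
      ENNReal.ofReal (((1 - t) / (1 - c)) ^ q) = ENNReal.ofReal (((1 - a) / (1 - c)) ^ q) := by
  obtain ⟨n, rfl⟩ : ∃ n, q = n + 1 := ⟨q - 1, by omega⟩
  have h := Gen.IB9.int_E n hac hc
  simp only [div_pow]
  push_cast
  exact h

/-- the part above `c₀` -/
theorem upper (s : ℕ) (c₀ c a : ℝ) (hs : 1 ≤ s) (hc0 : c₀ ≤ a) (hac : a < c) (hc : c < 1) :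
    1 + ∫⁻ t in Set.Ioo a c, ENNReal.ofReal (fw s c₀ t) * ENNReal.ofReal (Ew s c₀ c t) =
      ENNReal.ofReal (((1 - a) / (1 - c)) ^ s) := by
  rw [← one s hs hac hc]
  congr 1
  refine setLIntegral_congr_fun measurableSet_Ioo fun t ht => ?_
  have h1 : ¬ t < c₀ := not_lt.2 (hc0.trans ht.1.le)
  unfold fw Ew
  rw [if_neg h1, if_neg h1]

end ICa

open ICa in
theorem prCa : claimCa := by
  intro s c₀ c hs hc0 hcc hc a ha hac
  rcases le_or_gt c₀ a with h | h
  · rw [upper s c₀ c a hs h hac hc]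
    unfold Ew
    rw [if_neg (not_lt.2 h)]
  · have hq : 1 ≤ s * (s + 1) := Nat.mul_pos hs (Nat.succ_pos _)
    have hc1 : 0 < 1 - c := by linarith
    have hc2 : 0 < 1 - c₀ := by linarith
    have ha2 : 0 < 1 - a := by linarith
    set D : ℝ := ((1 - c₀) / (1 - c)) ^ s with hD
    have hD0 : 0 ≤ D := by positivity
    have e1 : ∫⁻ t in Set.Ioo a c, ENNReal.ofReal (fw s c₀ t) * ENNReal.ofReal (Ew s c₀ c t) =
        (∫⁻ t in Set.Ioo a c₀, ENNReal.ofReal (fw s c₀ t) * ENNReal.ofReal (Ew s c₀ c t)) +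
        ∫⁻ t in Set.Ico c₀ c, ENNReal.ofReal (fw s c₀ t) * ENNReal.ofReal (Ew s c₀ c t) := by
      rw [← Set.Ioo_union_Ico_eq_Ioo h hcc.le, lintegral_union measurableSet_Ico]
      rw [Set.disjoint_left]
      intro t h1 h2
      exact absurd h1.2 (not_lt.2 h2.1)
    have e2 : ∫⁻ t in Set.Ioo a c₀, ENNReal.ofReal (fw s c₀ t) * ENNReal.ofReal (Ew s c₀ c t) =
        ENNReal.ofReal D * ∫⁻ t in Set.Ioo a c₀, ENNReal.ofReal (((s * (s + 1) : ℕ) : ℝ) / (1 - t)) *
          ENNReal.ofReal (((1 - t) / (1 - c₀)) ^ (s * (s + 1))) := by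
      rw [← lintegral_const_mul' _ _ ENNReal.ofReal_ne_top]
      refine setLIntegral_congr_fun measurableSet_Ioo fun t ht => ?_
      have h1 : t < c₀ := ht.2
      have ht1 : 0 < 1 - t := by linarith [ht.2]
      unfold fw Ew
      rw [if_pos h1, if_pos h1, ← hD, ENNReal.ofReal_mul (by positivity)]
      push_cast
      ring
    have e3 : ∫⁻ t in Set.Ico c₀ c, ENNReal.ofReal (fw s c₀ t) * ENNReal.ofReal (Ew s c₀ c t) =
        ∫⁻ t in Set.Ioo c₀ c, ENNReal.ofReal (fw s c₀ t) * ENNReal.ofReal (Ew s c₀ c t) :=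
      setLIntegral_congr Ioo_ae_eq_Ico.symm
    have e4 := upper s c₀ c c₀ hs le_rfl hcc hc
    rw [← hD] at e4
    have e5 := one (s * (s + 1)) hq h (lt_trans hcc hc)
    rw [e1, e2, e3]
    rw [add_comm (ENNReal.ofReal D * _) _, ← add_assoc, e4]
    have e6 : Ew s c₀ c a = D * ((1 - a) / (1 - c₀)) ^ (s * (s + 1)) := by
      unfold Ew
      rw [if_pos h, ← hD, mul_comm]
    rw [e6, ENNReal.ofReal_mul hD0, ← e5, mul_add (ENNReal.ofReal D), mul_one]

end Pool.Agent.Work.MP_122e00_nt.Strip
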