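import Pool.Agent.Work.MP_122e00_nt.Strip.Stmts
import Pool.Agent.Work.MP_122e00_nt.Bd.B45

set_option autoImplicit false

/-!
# Item Cb: the term with `k + 1` marks
-/

namespace Pool.Agent.Work.MP_122e00_nt.Strip

open Finset Filter Topology MeasureTheory

open scoped ArithmeticFunction.vonMangoldt ArithmeticFunction.zeta ENNReal

open Two Gen Pool.Agent.Work.MP_122e00_nt.Core Pool.Agent.Work.MP_122e00_nt.WR

namespace ICb

open Gen.IB9

theorem na_meas' {k : ℕ} (c₀ : ℝ) : Measurable fun x : Fin k → ℝ => na c₀ x := by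
  unfold na
  simp only [Finset.card_filter]
  refine Finset.measurable_sum _ fun j _ => ?_
  refine Measurable.ite ?_ measurable_const measurable_const
  exact measurableSet_le measurable_const
    (Finset.measurable_sum _ fun i _ => measurable_pi_apply _)

theorem sum_snoc {k : ℕ} (y : Fin k → ℝ) (t : ℝ) (m : Fin k) :
    ∑ i ∈ Finset.univ.filter (fun i : Fin (k + 1) => i < m.succ),
      (Fin.snoc y t : Fin (k + 1) → ℝ) i =
    ∑ i ∈ Finset.univ.filter (fun i : Fin k => i ≤ m), y i := by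
  rw [Finset.sum_filter, Finset.sum_filter, Fin.sum_univ_castSucc]
  have h1 : ¬ Fin.last k < m.succ := not_lt.2 (Fin.le_last _)
  rw [if_neg h1, add_zero]
  refine Finset.sum_congr rfl fun i _ => ?_
  rw [Fin.snoc_castSucc]
  have h2 : (Fin.castSucc i < m.succ) ↔ i ≤ m := Fin.castSucc_lt_succ_iff
  simp only [h2]

theorem wt_snoc {s k : ℕ} {c₀ : ℝ} (hc0 : 0 < c₀) (y : Fin k → ℝ) (t : ℝ) :
    ((s : ℝ) * (s + 1)) ^ (k + 1) / ((s : ℝ) + 1) ^ na c₀ (Fin.snoc y t : Fin (k + 1) → ℝ) =
    ((s : ℝ) * (s + 1)) * ∏ m : Fin k,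
      (if ∑ i ∈ Finset.univ.filter (fun i : Fin k => i ≤ m), y i < c₀ then
        (s : ℝ) * (s + 1) else s) := by
  have hs1 : (s : ℝ) + 1 ≠ 0 := by positivity
  have e1 : ((s : ℝ) + 1) ^ na c₀ (Fin.snoc y t : Fin (k + 1) → ℝ) = ∏ m : Fin k,
      (if ∑ i ∈ Finset.univ.filter (fun i : Fin k => i ≤ m), y i < c₀ then
        (1 : ℝ) else (s : ℝ) + 1) := by
    unfold na
    rw [Finset.card_filter, ← Finset.prod_pow_eq_pow_sum, Fin.prod_univ_succ]
    have h0 : (Finset.univ.filter fun i : Fin (k + 1) => i < 0) = ∅ := by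
      ext i
      simp
    rw [h0, Finset.sum_empty, if_neg (not_le.2 hc0), pow_zero, one_mul]
    refine Finset.prod_congr rfl fun m _ => ?_
    rw [sum_snoc]
    by_cases h : ∑ i ∈ Finset.univ.filter (fun i : Fin k => i ≤ m), y i < c₀
    · rw [if_pos h, if_neg (not_le.2 h), pow_zero]
    · rw [if_neg h, if_pos (not_lt.1 h), pow_one]
  rw [e1, pow_succ', mul_div_assoc]
  congr 1
  have e2 : ((s : ℝ) * (s + 1)) ^ k = ∏ _m : Fin k, ((s : ℝ) * (s + 1)) := by
    rw [Finset.prod_const, Finset.card_univ, Fintype.card_fin]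
  rw [e2, ← Finset.prod_div_distrib]
  refine Finset.prod_congr rfl fun m _ => ?_
  by_cases h : ∑ i ∈ Finset.univ.filter (fun i : Fin k => i ≤ m), y i < c₀
  · rw [if_pos h, if_pos h, div_one]
  · rw [if_neg h, if_neg h, mul_div_assoc, div_self hs1, mul_one]

end ICb

open ICb Gen.IB9 in
open Classical in
theorem prCb (h8 : claimB8) : claimCb := by
  intro s k c₀ c hs hc0 hcc hc
  set f : (Fin (k + 1) → ℝ) → ℝ := fun x =>
    if stp c x then ((s : ℝ) * (s + 1)) ^ (k + 1) / ((s : ℝ) + 1) ^ na c₀ x else 0 with hf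
  have mf : Measurable f := Measurable.ite (meas_stp k c) (measurable_const.div
    ((measurable_of_countable fun n : ℕ => ((s : ℝ) + 1) ^ n).comp (na_meas' c₀)))
    measurable_const
  have h0 := h8 s (k + 1) f (((s : ℝ) * (s + 1)) ^ (k + 1)) mf (fun x => by
    rw [hf]
    dsimp only
    split_ifs
    · refine ⟨by positivity, div_le_self (by positivity) (one_le_pow₀ ?_)⟩
      have : (0 : ℝ) ≤ s := Nat.cast_nonneg _
      linarith
    · exact ⟨le_rfl, by positivity⟩)
  have h1 : (∫ y in Sim (k + 1) s, QS s c₀ c (k + 1) (fun i => y (Sum.inl i)) * den y) =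
      ∫ y in Sim (k + 1) s, f (fun i => y (Sum.inl i)) * den y := rfl
  rw [h1, h0]
  set S1 : Set (Fin (k + 1) → ℝ) := {x | (∀ i, 0 < x i) ∧ ∑ i, x i < 1} with hS1
  have mS1 : MeasurableSet S1 := meas_S1 (k + 1) 1
  set P : (Fin (k + 1) → ℝ) → ℝ := fun x =>
    ∏ j : Fin (k + 1), (1 - ∑ i ∈ Finset.univ.filter (fun i : Fin (k + 1) => i < j), x i)⁻¹
    with hP
  set W : (Fin (k + 1) → ℝ) → ℝ := fun x => (1 - ∑ i, x i) ^ s / (s.factorial : ℝ) with hW
  have mP : Measurable P := Finset.measurable_prod _ fun j _ =>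
    (measurable_const.sub (Finset.measurable_sum _ fun m _ => measurable_pi_apply m)).inv
  have mW : Measurable W := ((measurable_const.sub
    (Finset.measurable_sum _ fun m _ => measurable_pi_apply m)).pow_const s).div_const _
  have mg : Measurable (fun x => f x * P x * W x) := (mf.mul mP).mul mW
  have hg0 : ∀ x ∈ S1, 0 ≤ f x * P x * W x := by
    rintro x ⟨hx1, hx2⟩
    refine mul_nonneg (mul_nonneg ?_ ?_) ?_
    · rw [hf]
      dsimp only
      split_ifs <;> positivity
    · refine Finset.prod_nonneg fun j _ => inv_nonneg.2 ?_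
      have : ∑ i ∈ Finset.univ.filter (fun i : Fin (k + 1) => i < j), x i ≤ ∑ i, x i :=
        Finset.sum_le_sum_of_subset_of_nonneg (Finset.filter_subset _ _) fun i _ _ => (hx1 i).le
      linarith
    · have : 0 ≤ 1 - ∑ i, x i := by linarith
      exact div_nonneg (pow_nonneg this s) (by positivity)
  have hnn : 0 ≤ᵐ[volume.restrict S1] fun x => f x * P x * W x :=
    (ae_restrict_iff' mS1).2 (Filter.Eventually.of_forall hg0)
  refine ⟨integral_nonneg_of_ae hnn, ?_⟩
  have h2 : ENNReal.ofReal (∫ x in S1, f x * P x * W x) ≤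
      ∫⁻ x in S1, ENNReal.ofReal (f x * P x * W x) := by
    rw [integral_eq_lintegral_of_nonneg_ae hnn mg.aestronglyMeasurable]
    exact ENNReal.ofReal_toReal_le
  refine h2.trans (le_of_eq ?_)
  have mG : Measurable (S1.indicator fun x => ENNReal.ofReal (f x * P x * W x)) :=
    (ENNReal.measurable_ofReal.comp mg).indicator mS1
  rw [← lintegral_indicator mS1, peel _ mG]
  -- the integrand
  have hkey : ∀ (y : Fin k → ℝ) (t : ℝ),
      S1.indicator (fun x => ENNReal.ofReal (f x * P x * W x)) (Fin.snoc y t) =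
      (if (∀ m, 0 < y m) ∧ ∑ m, y m < c then
        ENNReal.ofReal ((s : ℝ) * (s + 1)) * ∏ m : Fin k, ENNReal.ofReal
          (fw s c₀ (∑ m' ∈ Finset.univ.filter (fun m' : Fin k => m' ≤ m), y m')) else 0) *
      (if c ≤ (∑ m, y m) + t ∧ (∑ m, y m) + t < 1 then
        ENNReal.ofReal ((1 - ((∑ m, y m) + t)) ^ s / (s.factorial : ℝ)) else 0) := by
    intro y t
    have hsum : ∑ i, (Fin.snoc y t : Fin (k + 1) → ℝ) i = (∑ m, y m) + t := by
      rw [Fin.sum_univ_castSucc, Fin.snoc_last]
      simp only [Fin.snoc_castSucc]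
    have hsum2 : ∑ j : Fin k, (Fin.snoc y t : Fin (k + 1) → ℝ) j.castSucc = ∑ m, y m := by
      simp only [Fin.snoc_castSucc]
    have hmem : (Fin.snoc y t : Fin (k + 1) → ℝ) ∈ S1 ↔
        ((∀ m, 0 < y m) ∧ 0 < t) ∧ (∑ m, y m) + t < 1 := by
      rw [hS1, Set.mem_ofPred_eq, hsum, Fin.forall_fin_succ']
      simp only [Fin.snoc_castSucc, Fin.snoc_last]
    have hstp : stp c (Fin.snoc y t : Fin (k + 1) → ℝ) ↔
        c ≤ (∑ m, y m) + t ∧ ∑ m, y m < c := by
      unfold stp
      rw [hsum, hsum2]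
    by_cases hA : (∀ m, 0 < y m) ∧ ∑ m, y m < c
    · by_cases hB : c ≤ (∑ m, y m) + t ∧ (∑ m, y m) + t < 1
      · have ht : 0 < t := by linarith [hA.2, hB.1]
        rw [Set.indicator_of_mem (hmem.2 ⟨⟨hA.1, ht⟩, hB.2⟩), if_pos hA, if_pos hB]
        have e1 : f (Fin.snoc y t) = ((s : ℝ) * (s + 1)) * ∏ m : Fin k,
            (if ∑ i ∈ Finset.univ.filter (fun i : Fin k => i ≤ m), y i < c₀ then
              (s : ℝ) * (s + 1) else s) := by
          rw [hf]
          exact (if_pos (hstp.2 ⟨hB.1, hA.2⟩)).trans (wt_snoc hc0 y t)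
        have e2 : P (Fin.snoc y t) =
            ∏ m : Fin k, (1 - ∑ i ∈ Finset.univ.filter (fun i : Fin k => i ≤ m), y i)⁻¹ :=
          prod_snoc y t
        have e3 : W (Fin.snoc y t) = (1 - ((∑ m, y m) + t)) ^ s / (s.factorial : ℝ) := by
          rw [hW]
          dsimp only
          rw [hsum]
        have hpos : ∀ m : Fin k,
            0 < 1 - ∑ i ∈ Finset.univ.filter (fun i : Fin k => i ≤ m), y i := fun m => by
          have := part_le hA.1 m
          linarith [hA.2]
        have hfw : ∀ m : Fin k, 0 ≤ fw s c₀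
            (∑ i ∈ Finset.univ.filter (fun i : Fin k => i ≤ m), y i) := fun m => by
          unfold fw
          refine div_nonneg ?_ (hpos m).le
          split_ifs <;> positivity
        rw [e1, e2, e3, ← ENNReal.ofReal_prod_of_nonneg fun m _ => hfw m,
          ← ENNReal.ofReal_mul (by positivity), ← ENNReal.ofReal_mul]
        · congr 2
          unfold fw
          simp only [div_eq_mul_inv]
          rw [Finset.prod_mul_distrib, ← mul_assoc]
        · exact mul_nonneg (by positivity) (Finset.prod_nonneg fun m _ => hfw m)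
      · rw [if_neg hB, mul_zero]
        by_cases hm : (Fin.snoc y t : Fin (k + 1) → ℝ) ∈ S1
        · rw [Set.indicator_of_mem hm]
          have hns : ¬ stp c (Fin.snoc y t : Fin (k + 1) → ℝ) := fun h =>
            hB ⟨(hstp.1 h).1, (hmem.1 hm).2⟩
          have e1 : f (Fin.snoc y t) = 0 := by
            rw [hf]
            exact if_neg hns
          rw [e1, zero_mul, zero_mul, ENNReal.ofReal_zero]
        · rw [Set.indicator_of_notMem hm]
    · rw [if_neg hA, zero_mul]
      by_cases hm : (Fin.snoc y t : Fin (k + 1) → ℝ) ∈ S1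
      · rw [Set.indicator_of_mem hm]
        have hns : ¬ stp c (Fin.snoc y t : Fin (k + 1) → ℝ) := fun h =>
          hA ⟨(hmem.1 hm).1.1, (hstp.1 h).2⟩
        have e1 : f (Fin.snoc y t) = 0 := by
          rw [hf]
          exact if_neg hns
        rw [e1, zero_mul, zero_mul, ENNReal.ofReal_zero]
      · rw [Set.indicator_of_notMem hm]
  simp_rw [hkey]
  have hint : ∀ (A : ℝ≥0∞) (a : ℝ), ∫⁻ t : ℝ, A * (if c ≤ a + t ∧ a + t < 1 then
      ENNReal.ofReal ((1 - (a + t)) ^ s / (s.factorial : ℝ)) else 0) =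
      A * ENNReal.ofReal ((1 - c) ^ (s + 1) / ((s + 1).factorial : ℝ)) := by
    intro A a
    rw [lintegral_const_mul, int_last s hc a]
    refine Measurable.ite ?_ ?_ measurable_const
    · exact (measurableSet_le measurable_const (measurable_const.add measurable_id)).inter
        (measurableSet_lt (measurable_const.add measurable_id) measurable_const)
    · fun_prop
  simp_rw [hint]
  have hq : (0 : ℝ) ≤ (s : ℝ) * (s + 1) := by positivity
  rw [lintegral_mul_const' _ _ ENNReal.ofReal_ne_top,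
    ENNReal.ofReal_mul (p := (s : ℝ) * (s + 1)) hq,
    mul_assoc, mul_comm (ENNReal.ofReal ((1 - c) ^ (s + 1) / ((s + 1).factorial : ℝ))),
    ← mul_assoc]
  congr 1
  rw [← lintegral_const_mul' _ _ ENNReal.ofReal_ne_top, ← lintegral_indicator (meas_S1 k c)]
  refine lintegral_congr fun y => ?_
  by_cases hy : y ∈ {x : Fin k → ℝ | (∀ i, 0 < x i) ∧ ∑ i, x i < c}
  · rw [Set.indicator_of_mem hy]
    exact if_pos hy
  · rw [Set.indicator_of_notMem hy]
    exact if_neg hy

end Pool.Agent.Work.MP_122e00_nt.Strip
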