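import Pool.Agent.Work.MP_122e00_nt.Strip.Stmts
import Pool.Agent.Work.MP_122e00_nt.Bd.B45
import Pool.Agent.Work.MP_122e00_nt.Hyb.ItemC0

set_option autoImplicit false

/-!
# Ch: the sum over the lengths of the chain
-/

namespace Pool.Agent.Work.MP_122e00_nt.Strip

open Finset Filter Topology MeasureTheory

open scoped ArithmeticFunction.vonMangoldt ArithmeticFunction.zeta ENNReal

open Two Gen Pool.Agent.Work.MP_122e00_nt.Core Pool.Agent.Work.MP_122e00_nt.WR

namespace ICh

theorem meas_fw (s : ℕ) (c₀ : ℝ) : Measurable (fun t : ℝ => fw s c₀ t) := by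
  unfold fw
  refine Measurable.div ?_ (measurable_const.sub measurable_id)
  exact Measurable.ite (measurableSet_lt measurable_id measurable_const) measurable_const
    measurable_const

theorem meas_Ew (s : ℕ) (c₀ c : ℝ) : Measurable (fun t : ℝ => Ew s c₀ c t) := by
  unfold Ew
  refine Measurable.ite (measurableSet_lt measurable_id measurable_const) ?_ ?_
  · exact (((measurable_const.sub measurable_id).div_const _).pow_const _).mul_const _
  · exact ((measurable_const.sub measurable_id).div_const _).pow_const _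

end ICh

open ICh in
theorem prCh (hCa : claimCa) (hCb : claimCb) : claimCh := by
  intro s c₀ c hs hc00 hc0c hc K
  classical
  have hc1 : 0 < 1 - c := by linarith
  have hc01 : 0 < 1 - c₀ := by linarith
  have hRHS : 0 ≤ JJ s c₀ * (1 - c) := by
    unfold JJ
    positivity
  rw [Finset.sum_range_succ']
  have h0 : ∫ y in Sim 0 s, QS s c₀ c 0 (fun i => y (Sum.inl i)) * den y = 0 := by
    have : ∀ y : Fin 0 ⊕ Fin s → ℝ, QS s c₀ c 0 (fun i => y (Sum.inl i)) * den y = 0 := fun y => by
      have : QS s c₀ c 0 (fun i => y (Sum.inl i)) = 0 := rfl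
      rw [this, zero_mul]
    rw [integral_congr_ae (Filter.Eventually.of_forall this)]
    exact integral_zero _ _
  rw [h0, add_zero]
  rcases K with _ | K
  · rw [Finset.sum_range_zero]
    exact hRHS
  rw [← ENNReal.ofReal_le_ofReal_iff hRHS,
    ENNReal.ofReal_sum_of_nonneg fun k _ => (hCb s k c₀ c hs hc00 hc0c hc).1]
  refine (Finset.sum_le_sum fun k _ => (hCb s k c₀ c hs hc00 hc0c hc).2).trans ?_
  rw [← Finset.mul_sum]
  have hC0 := Hyb.prfC0 (fun t => ENNReal.ofReal (fw s c₀ t))
    (fun t => ENNReal.ofReal (Ew s c₀ c t)) c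
    (ENNReal.measurable_ofReal.comp (meas_fw s c₀))
    (ENNReal.measurable_ofReal.comp (meas_Ew s c₀ c))
    (hCa s c₀ c hs hc00 hc0c hc) K
  rw [if_pos (hc00.trans hc0c)] at hC0
  refine (mul_le_mul_right hC0 _).trans ?_
  rw [← ENNReal.ofReal_mul (by positivity)]
  refine le_of_eq ?_
  congr 1
  have e1 : Ew s c₀ c 0 = ((1 - 0) / (1 - c₀)) ^ (s * (s + 1)) * ((1 - c₀) / (1 - c)) ^ s := by
    unfold Ew
    exact if_pos hc00
  rw [e1]
  unfold JJ
  rw [sub_zero, div_pow, div_pow, one_pow]
  have h3 : ((s + 1).factorial : ℝ) ≠ 0 := by positivity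
  have h4 : (1 - c) ^ (s + 1) = (1 - c) ^ s * (1 - c) := pow_succ _ _
  rw [h4]
  field_simp

end Pool.Agent.Work.MP_122e00_nt.Strip
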