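import Pool.Agent.Work.MP_122e00_nt.Strip.Stmts
import Pool.Agent.Work.MP_122e00_nt.Core.I_C2

set_option autoImplicit false

/-!
# Item Do: domination by the chain scheme of the strip
-/

namespace Pool.Agent.Work.MP_122e00_nt.Strip

open Finset Filter Topology MeasureTheory

open scoped ArithmeticFunction.vonMangoldt ArithmeticFunction.zeta ENNReal

open Two Gen Pool.Agent.Work.MP_122e00_nt.Core Pool.Agent.Work.MP_122e00_nt.WR

namespace IDo

theorem core (h2 : claimB2) (h3 : claimB3) (h5 : claimB5) (hPb : claimPb)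
    (s : ℕ) (θ c₀ c B : ℝ) (g : (Fin (s + 1) → ℝ) → ℝ) (hs : 1 ≤ s) (hθ : 0 < θ)
    (hθ' : θ ≤ 1 / 10) (hc₀ : c₀ = ((s : ℝ) - 1) / (2 * s) + 2 * θ) (hcc : c₀ ≤ c) (hc0 : 0 < c)
    (hg : ∀ v, 0 ≤ g v ∧ g v ≤ B) (L : ℝ) (n K : ℕ) (hL : 0 < L)
    (hn : n ≠ 0) (hlo : c < Real.log n / L) (hhi : Real.log n / L ≤ 1) :
    0 ≤ (∑ k ∈ Finset.range (K + 1), TS L s k n (FS s c₀ c g k)) ∧
    ∃ l : ℝ, 0 ≤ l ∧ l ≤ B * (((s : ℝ) + 1) ^ K * TS L s K n (FT K c)) ∧
    (Tg s g L n - l) ^ 2 ≤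
      (∑ k ∈ Finset.range (K + 1), TS L s k n (FS s c₀ c g k)) * Wn s (ps s θ) L n := by
  have e1 : Tg s g L n =
      ∑ k ∈ Finset.range K, TS L s (k + 1) n (IC2.Pc s c g k) +
      TS L s K n (fun x v => if ∑ j, x j < c then Pl g x v else 0) :=
    h2 L s n K c g hL hn hc0 hlo
  have e2 : Wn s (ps s θ) L n =
      ∑ k ∈ Finset.range K, TS L s (k + 1) n (IC2.Pc s c (gs (ps s θ)) k) +
      TS L s K n (fun x v => if ∑ j, x j < c then Pl (gs (ps s θ)) x v else 0) :=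
    h2 L s n K c (gs (ps s θ)) hL hn hc0 hlo
  have l2 : 0 ≤ TS L s K n
      (fun x v => if ∑ j, x j < c then Pl (gs (ps s θ)) x v else 0) := by
    refine IC2.TS_nonneg h3 L s K n _ hL hn fun x v _ _ _ => ?_
    split_ifs
    · exact IC2.Pl_nn _ (IC2.gs_nonneg s θ) x v
    · exact le_refl _
  have l1 : 0 ≤ TS L s K n (fun x v => if ∑ j, x j < c then Pl g x v else 0) := by
    refine IC2.TS_nonneg h3 L s K n _ hL hn fun x v _ _ _ => ?_
    split_ifs
    · exact IC2.Pl_nn _ (fun v => (hg v).1) x v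
    · exact le_refl _
  have l1' : TS L s K n (fun x v => if ∑ j, x j < c then Pl g x v else 0) ≤
      B * (((s : ℝ) + 1) ^ K * TS L s K n (FT K c)) := by
    rw [← mul_assoc, ← (prfT1 L s K n (FT K c) (FT K c) (B * ((s : ℝ) + 1) ^ K)).2]
    refine h3.1 L s K n _ _ hL hn fun x v _ _ _ => ?_
    unfold FT
    by_cases h : ∑ j, x j < c
    · simp only [h, if_true, mul_one]
      exact IC2.Pl_le g B (fun v => (hg v).2) x v
    · simp only [h, if_false, mul_zero]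
      exact le_refl _
  have e3 : ∑ k ∈ Finset.range (K + 1), TS L s k n (FS s c₀ c g k) =
      ∑ k ∈ Finset.range K, TS L s (k + 1) n (FS s c₀ c g (k + 1)) := by
    rw [Finset.sum_range_succ']
    have : TS L s 0 n (FS s c₀ c g 0) = 0 := IC2.TS_zero L s 0 n
    rw [this, add_zero]
  have key : ∀ (k : ℕ) (x : Fin (k + 1) → ℝ) (v : Fin (s + 1) → ℝ), (∀ m, 0 < x m) →
      (∀ i, 0 ≤ v i) → ∑ m, x m + ∑ i, v i = Real.log n / L →
      0 ≤ IC2.Pc s c g k x v ∧ 0 ≤ FS s c₀ c g (k + 1) x v ∧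
      0 ≤ IC2.Pc s c (gs (ps s θ)) k x v ∧
      IC2.Pc s c g k x v ^ 2 ≤ FS s c₀ c g (k + 1) x v * IC2.Pc s c (gs (ps s θ)) k x v := by
    intro k x v hx hv hsum
    unfold IC2.Pc
    simp only [FS]
    by_cases hst : stp c x
    · simp only [hst, if_true]
      have hM : 0 < ((s : ℝ) + 1) ^ na c₀ x := by positivity
      have hP : ((s : ℝ) + 1) ^ na c₀ x ≤ Pl (gs (ps s θ)) x v :=
        hPb s (k + 1) θ c₀ hs hθ hθ' hc₀ x v (fun m => (hx m).le) hv (by rw [hsum]; exact hhi)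
          (hcc.trans hst.1)
      have hq : 0 ≤ Pl g x v ^ 2 / ((s : ℝ) + 1) ^ na c₀ x := div_nonneg (sq_nonneg _) hM.le
      refine ⟨IC2.Pl_nn _ (fun v => (hg v).1) x v, hq, hM.le.trans hP, ?_⟩
      calc Pl g x v ^ 2 = Pl g x v ^ 2 / ((s : ℝ) + 1) ^ na c₀ x * ((s : ℝ) + 1) ^ na c₀ x := by
            field_simp
        _ ≤ Pl g x v ^ 2 / ((s : ℝ) + 1) ^ na c₀ x * Pl (gs (ps s θ)) x v :=
            mul_le_mul_of_nonneg_left hP hq
    · simp [hst]
  have nH : 0 ≤ ∑ k ∈ Finset.range (K + 1), TS L s k n (FS s c₀ c g k) := by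
    rw [e3]
    exact Finset.sum_nonneg fun k _ => IC2.TS_nonneg h3 L s (k + 1) n _ hL hn
      fun x v hx hv hsum => (key k x v hx hv hsum).2.1
  have cs := h5 L s n K (fun k => FS s c₀ c g (k + 1)) (IC2.Pc s c (gs (ps s θ)))
    (IC2.Pc s c g) hL hn key
  refine ⟨nH, _, l1, l1', ?_⟩
  have e4 : Tg s g L n - TS L s K n (fun x v => if ∑ j, x j < c then Pl g x v else 0) =
      ∑ k ∈ Finset.range K, TS L s (k + 1) n (IC2.Pc s c g k) := by
    rw [e1]
    ring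
  rw [e4]
  refine le_trans cs ?_
  rw [← e3]
  refine mul_le_mul_of_nonneg_left ?_ nH
  rw [e2]
  linarith

end IDo

theorem prDo (g2 : Gen.claimG2) (h2 : claimB2) (h3 : claimB3) (h5 : claimB5) (hPb : claimPb) :
    claimDo := by
  intro s θ c₀ c c₁ B g hs hθ hθ' hc₀ hcc hc1 hc₁ hB hg
  have hs0 : (0 : ℝ) < s := by exact_mod_cast hs
  have hs1 : (1 : ℝ) ≤ s := by exact_mod_cast hs
  have hc0 : 0 < c := by
    refine lt_of_lt_of_le ?_ hcc
    rw [hc₀]
    have : 0 ≤ ((s : ℝ) - 1) / (2 * s) := div_nonneg (by linarith) (by linarith)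
    linarith
  have hc2 : 0 < (1 - c) / 2 := by linarith
  have ev1 : ∀ᶠ X : ℝ in atTop, ‖Real.log (Real.log X)‖ ≤ (1 - c) / 2 * ‖id (Real.log X)‖ :=
    Real.tendsto_log_atTop.eventually (Real.isLittleO_log_id_atTop.def hc2)
  have ev2 := g2 s ((s : ℝ) + 1) c c₁ (by linarith) hc0 hc1 hc₁
  unfold DomB
  filter_upwards [ev1, ev2, eventually_gt_atTop (Real.exp 1)] with X h1 hg2 hX
  intro n hn1 hn2
  have hX0 : (0 : ℝ) < X := lt_trans (Real.exp_pos 1) hX
  have hL1 : 1 < Real.log X := by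
    rw [Real.lt_log_iff_exp_lt hX0]
    exact hX
  have hL : 0 < Real.log X := by linarith
  have hnp : (0 : ℝ) < n := lt_of_lt_of_le (div_pos hX0 hL) hn1
  have hn : n ≠ 0 := by
    intro h
    rw [h] at hnp
    simp at hnp
  have hlog : (1 - (1 - c) / 2) * Real.log X ≤ Real.log n := by
    have a1 : Real.log (X / Real.log X) ≤ Real.log n := Real.log_le_log (div_pos hX0 hL) hn1
    rw [Real.log_div hX0.ne' hL.ne'] at a1
    have a2 : Real.log (Real.log X) ≤ (1 - c) / 2 * Real.log X := by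
      have := le_trans (le_abs_self _) h1
      simpa [abs_of_pos hL] using this
    linarith
  have hlo : c < Real.log n / Real.log X := by
    rw [lt_div_iff₀ hL]
    have : c * Real.log X < (1 - (1 - c) / 2) * Real.log X :=
      mul_lt_mul_of_pos_right (by linarith) hL
    linarith
  have hhi : Real.log n / Real.log X ≤ 1 := by
    rw [div_le_one hL]
    exact Real.log_le_log hnp hn2
  obtain ⟨r1, l, r2, r3, r4⟩ := IDo.core h2 h3 h5 hPb s θ c₀ c B g hs hθ hθ' hc₀ hcc hc0 hg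
    (Real.log X) n ⌊c₁ * Real.log X⌋₊ hL hn hlo hhi
  refine ⟨r1, l, ?_, r4⟩
  rw [abs_of_nonneg r2]
  exact r3.trans (mul_le_mul_of_nonneg_left (hg2 n hn1 hn2) (by linarith))

end Pool.Agent.Work.MP_122e00_nt.Strip
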