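import Pool.Agent.Work.MP_122e00_nt.Strip.Stmts
import Pool.Agent.Work.MP_122e00_nt.Core.I_C4

set_option autoImplicit false

/-!
# The joint strip, item Fa: all layers and all lengths of the chain
-/

namespace Pool.Agent.Work.MP_122e00_nt.Strip

open Finset Filter Topology MeasureTheory

open scoped ArithmeticFunction.vonMangoldt ArithmeticFunction.zeta ENNReal

open Two Gen Pool.Agent.Work.MP_122e00_nt.Core Pool.Agent.Work.MP_122e00_nt.WR

namespace IFa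

/-- Finitely many positive numbers have a positive lower bound. -/
theorem lower (f : ℕ → ℝ) (hf : ∀ k, 0 < f k) (K : ℕ) :
    ∃ d : ℝ, 0 < d ∧ ∀ k, k < K → d ≤ f k := by
  induction K with
  | zero => exact ⟨1, one_pos, fun k hk => absurd hk (Nat.not_lt_zero k)⟩
  | succ K ih =>
    obtain ⟨d, hd, h⟩ := ih
    refine ⟨min d (f K), lt_min hd (hf K), fun k hk => ?_⟩
    rcases Nat.lt_succ_iff_lt_or_eq.1 hk with h1 | h1
    · exact (min_le_left _ _).trans (h k h1)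
    · rw [h1]; exact min_le_right _ _

theorem QS_nonneg (s : ℕ) (c₀ c : ℝ) (k : ℕ) (x : Fin k → ℝ) : 0 ≤ QS s c₀ c k x := by
  rcases k with _ | k
  · exact le_rfl
  · simp only [QS]
    split_ifs
    · positivity
    · exact le_rfl

theorem intQ_nonneg (s : ℕ) (c₀ c : ℝ) (k : ℕ) :
    0 ≤ ∫ y in Sim k s, QS s c₀ c k (fun i => y (Sum.inl i)) * den y := by
  refine integral_nonneg_of_ae ?_
  filter_upwards [ae_restrict_mem (Two.IT8.Sim_meas k s)] with y hy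
  exact mul_nonneg (QS_nonneg s c₀ c k _) (IC4.den_nonneg hy)

theorem intJ_nonneg (s : ℕ) (c : ℝ) (k : ℕ) :
    0 ≤ ∫ y in Sim k s, Two.ext (FB s c k) (y, 1 - ∑ i, y i) * den y := by
  refine integral_nonneg_of_ae ?_
  filter_upwards [ae_restrict_mem (Two.IT8.Sim_meas k s)] with y hy
  refine mul_nonneg ?_ (IC4.den_nonneg hy)
  have h := IC4.FG_const (s := s) (k := k) c 1 (fun i => y (Sum.inl i))
    (Fin.snoc (fun i => y (Sum.inr i)) (1 - ∑ i, y i))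
  rw [one_pow, one_mul] at h
  show 0 ≤ FB s c k (fun i => y (Sum.inl i)) (Fin.snoc (fun i => y (Sum.inr i)) (1 - ∑ i, y i))
  rw [← h]
  exact IC4.FG_nonneg c _ _ _

/-- The sums, abstractly. -/
theorem sums (T Q J : ℕ → ℝ) (N e ε V : ℝ) (K₀ K : ℕ)
    (hJ : ∀ k, 0 ≤ J k) (hQ : ∀ k, 0 ≤ Q k) (hJs : Summable J) (hN : 0 ≤ N) (he : 0 ≤ e)
    (heK : (K₀ : ℝ) * e ≤ ε / 2)
    (hT : ∀ k, 4 * N ^ 2 * ∑' k, J (k + K₀) ≤ ε / 2 → k < K₀ → T k ≤ 4 * N * Q k + e)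
    (hT' : ∀ k, T k ≤ 4 * N ^ 2 * J k)
    (hK₀ : 4 * N ^ 2 * ∑' k, J (k + K₀) ≤ ε / 2)
    (hV : ∑ k ∈ Finset.range (K + 1), Q k ≤ V) :
    ∑ k ∈ Finset.range (K + 1), T k ≤ 4 * N * V + ε := by
  obtain ⟨u, hu⟩ : ∃ u : ℕ → ℝ, ∀ k, u k = if k < K₀ then e else 4 * N ^ 2 * J k :=
    ⟨_, fun _ => rfl⟩
  have hu0 : ∀ k, 0 ≤ u k := by
    intro k
    rw [hu]
    split_ifs
    · exact he
    · have := hJ k
      positivity
  have h1 : ∀ k, T k ≤ 4 * N * Q k + u k := by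
    intro k
    rw [hu]
    split_ifs with h
    · exact hT k hK₀ h
    · have h2 := hT' k
      have h3 : 0 ≤ 4 * N * Q k := by
        have := hQ k
        positivity
      linarith
  have h2 : ∑ k ∈ Finset.range (K + 1), u k ≤ ∑ k ∈ Finset.range (K₀ + (K + 1)), u k :=
    Finset.sum_le_sum_of_subset_of_nonneg
      (Finset.range_mono (Nat.le_add_left _ _)) fun k _ _ => hu0 k
  have h3 : ∑ k ∈ Finset.range (K₀ + (K + 1)), u k =
      ∑ k ∈ Finset.range K₀, u k + ∑ k ∈ Finset.range (K + 1), u (K₀ + k) :=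
    Finset.sum_range_add u K₀ (K + 1)
  have h4 : ∑ k ∈ Finset.range K₀, u k = (K₀ : ℝ) * e := by
    rw [Finset.sum_congr rfl (g := fun _ => e) fun k hk => by
      rw [hu, if_pos (Finset.mem_range.1 hk)], Finset.sum_const, Finset.card_range, nsmul_eq_mul]
  have h5 : ∑ k ∈ Finset.range (K + 1), u (K₀ + k) ≤ 4 * N ^ 2 * ∑' k, J (k + K₀) := by
    rw [Finset.sum_congr rfl (g := fun k => 4 * N ^ 2 * J (k + K₀)) fun k _ => by
      rw [hu, if_neg (by omega), add_comm K₀ k], ← Finset.mul_sum]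
    refine mul_le_mul_of_nonneg_left ?_ (by positivity)
    exact ((summable_nat_add_iff K₀).2 hJs).sum_le_tsum _ fun k _ => hJ _
  have h6 : ∑ k ∈ Finset.range (K + 1), T k ≤
      4 * N * ∑ k ∈ Finset.range (K + 1), Q k + ∑ k ∈ Finset.range (K + 1), u k := by
    rw [Finset.mul_sum, ← Finset.sum_add_distrib]
    exact Finset.sum_le_sum fun k _ => h1 k
  have h7 : 4 * N * ∑ k ∈ Finset.range (K + 1), Q k ≤ 4 * N * V :=
    mul_le_mul_of_nonneg_left hV (by positivity)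
  linarith

end IFa

open IFa in
theorem prFa (hLm : claimLm) (hBn : claimBn) (hCh : claimCh) (h9 : claimB9) : claimFa := by
  intro s c₀ c ε 𝒮 α β hs hc0 hc hc1 hF hβ hε
  obtain ⟨J, hJ⟩ : ∃ J : ℕ → ℝ, ∀ k, J k = ∫ y in Sim k s,
    Two.ext (FB s c k) (y, 1 - ∑ i, y i) * den y := ⟨_, fun _ => rfl⟩
  obtain ⟨Q, hQ⟩ : ∃ Q : ℕ → ℝ, ∀ k, Q k = ∫ y in Sim k s,
    QS s c₀ c k (fun i => y (Sum.inl i)) * den y := ⟨_, fun _ => rfl⟩
  have hJ0 : ∀ k, 0 ≤ J k := fun k => by rw [hJ]; exact intJ_nonneg s c k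
  have hQ0 : ∀ k, 0 ≤ Q k := fun k => by rw [hQ]; exact intQ_nonneg s c₀ c k
  have hcpos : 0 < c := hc0.trans hc
  have hJs : Summable J := by
    refine summable_of_sum_range_le hJ0 (c := ((s : ℝ) + 1) ^ 2 * (1 - c) ^ (s + 1) /
        (((s + 1).factorial : ℝ) * (1 - c) ^ ((s + 1) ^ 2))) fun n => ?_
    have h1 := h9 s c hs hcpos hc1 n
    simp only [← hJ] at h1
    refine le_trans ?_ h1
    exact Finset.sum_le_sum_of_subset_of_nonneg
      (Finset.range_mono (Nat.le_succ n)) fun k _ _ => hJ0 k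
  obtain ⟨N, hN⟩ : ∃ N : ℝ, N = (𝒮.card : ℝ) := ⟨_, rfl⟩
  have hN0 : 0 ≤ N := by rw [hN]; positivity
  obtain ⟨K₀, hK₀⟩ : ∃ K₀ : ℕ, 4 * N ^ 2 * ∑' k, J (k + K₀) ≤ ε / 2 := by
    have h1 : Tendsto (fun i => ∑' k, J (k + i)) atTop (𝓝 0) := tendsto_sum_nat_add J
    have h2 := h1.const_mul (4 * N ^ 2)
    rw [mul_zero] at h2
    have h3 : ∀ᶠ i in atTop, 4 * N ^ 2 * ∑' k, J (k + i) < ε / 2 :=
      h2.eventually_lt_const (by positivity)
    obtain ⟨K₀, h4⟩ := h3.exists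
    exact ⟨K₀, h4.le⟩
  obtain ⟨e, he⟩ : ∃ e : ℝ, e = ε / (2 * (K₀ : ℝ) + 2) := ⟨_, rfl⟩
  have he0 : 0 < e := by rw [he]; positivity
  have heK : (K₀ : ℝ) * e ≤ ε / 2 := by
    have h1 : e * (2 * (K₀ : ℝ) + 2) = ε := by
      rw [he]
      field_simp
    nlinarith
  have hρ : ∀ k, ∃ ρ : ℝ, 0 < ρ ∧
      ∫ y in Sim k s, ext (GS s c₀ c ρ 𝒮 k) (y, 1 - ∑ i, y i) * den y ≤ 4 * N * Q k + e := by
    intro k
    rw [hQ, hN]
    exact hLm s k c₀ c e 𝒮 hs hF he0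
  choose ρ hρ0 hρ1 using hρ
  have hβ' : 0 < |β| := abs_pos.2 hβ
  obtain ⟨δ₁, hδ₁, hδ⟩ := lower (fun k => ρ k * |β| / 4)
    (fun k => by have := hρ0 k; positivity) K₀
  refine ⟨δ₁, hδ₁, fun δ hd hdle M K => ?_⟩
  have hV : ∑ k ∈ Finset.range (K + 1), Q k ≤ JJ s c₀ * (1 - c) := by
    simp only [hQ]
    exact hCh s c₀ c hs hc0 hc hc1 K
  have key := sums (fun k => ∑ m ∈ Finset.range M,
      ∫ y in Sim k s, ext (FS s c₀ c (lw 𝒮 α β δ m) k) (y, 1 - ∑ i, y i) * den y)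
    Q J N e ε (JJ s c₀ * (1 - c)) K₀ K hJ0 hQ0 hJs hN0 he0.le heK ?_ ?_ hK₀ hV
  · rw [hN] at key
    exact key
  · intro k _ hk
    refine ((((hBn s c₀ c 𝒮 α β δ hs hβ hd k).2 M).1 (ρ k) ?_)).trans (hρ1 k)
    have := hδ k hk
    linarith
  · intro k
    have h := ((hBn s c₀ c 𝒮 α β δ hs hβ hd k).2 M).2
    rw [← hJ, ← hN] at h
    exact h

end Pool.Agent.Work.MP_122e00_nt.Strip
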