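import Pool.Agent.Work.MP_122e00_nt.Strip.Stmts

/-!
Item Fp (helper13): the two families are admissible; bounds for the weights.
-/

set_option autoImplicit false

namespace Pool.Agent.Work.MP_122e00_nt.Strip

open Finset Filter Topology MeasureTheory

open scoped ArithmeticFunction.vonMangoldt ArithmeticFunction.zeta ENNReal

open Two Gen Pool.Agent.Work.MP_122e00_nt.Core Pool.Agent.Work.MP_122e00_nt.WR

namespace IFp

lemma ta_nonneg (t : ℝ) : 0 ≤ ta t := le_max_left _ _

lemma ta_le_one (t : ℝ) : ta t ≤ 1 :=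
  max_le zero_le_one (min_le_left _ _)

lemma ta_cont : Continuous ta := by
  unfold ta
  fun_prop

lemma card_le {s : ℕ} (𝒮 : Finset (Finset (Fin (s + 1)))) : 𝒮.card ≤ 2 ^ (s + 1) := by
  have h := Finset.card_le_univ 𝒮
  rwa [Fintype.card_finset, Fintype.card_fin] at h

end IFp

theorem prFp : claimFp := by
  refine ⟨fun s hs => ⟨?_, ?_⟩, fun s 𝒮 α β δ m => ⟨fun v => ⟨?_, ?_⟩, ?_, IFp.card_le 𝒮⟩⟩
  · intro S hS
    obtain ⟨-, hc⟩ := Finset.mem_powersetCard.1 hS
    refine ⟨Finset.card_pos.1 (by omega), ?_, ?_⟩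
    · rintro rfl
      rw [Finset.card_univ, Fintype.card_fin] at hc
      omega
    · rw [hc, Nat.add_sub_cancel]
      nlinarith
  · intro S hS
    obtain ⟨-, hc⟩ := Finset.mem_powersetCard.1 hS
    refine ⟨Finset.card_pos.1 (by omega), ?_, ?_⟩
    · rintro rfl
      rw [Finset.card_univ, Fintype.card_fin] at hc
      omega
    · rw [hc]
      obtain ⟨r, rfl⟩ : ∃ r, s = r + 2 := ⟨s - 2, by omega⟩
      have e : r + 2 + 1 - 2 = r + 1 := by omega
      rw [e]
      nlinarith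
  · exact Finset.sum_nonneg fun S _ => IFp.ta_nonneg _
  · calc lw 𝒮 α β δ m v ≤ ∑ _S ∈ 𝒮, (1 : ℝ) := Finset.sum_le_sum fun S _ => IFp.ta_le_one _
      _ = (𝒮.card : ℝ) := by simp
      _ ≤ 2 ^ (s + 1) := by exact_mod_cast IFp.card_le 𝒮
  · unfold lw
    refine continuous_finsetSum _ fun S _ => IFp.ta_cont.comp ?_
    fun_prop

end Pool.Agent.Work.MP_122e00_nt.Strip
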