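import Pool.Agent.Work.MP_122e00_nt.Strip.Stmts

set_option autoImplicit false

/-!
# The joint strip, item Im: a bound for each layer
-/

namespace Pool.Agent.Work.MP_122e00_nt.Strip

open Finset Filter Topology MeasureTheory

open scoped ArithmeticFunction.vonMangoldt ArithmeticFunction.zeta ENNReal

open Two Gen Pool.Agent.Work.MP_122e00_nt.Core Pool.Agent.Work.MP_122e00_nt.WR

theorem IIm.summ (M : ℕ) (a : ℕ → ℕ → ℝ) (E : ℝ) (ha : ∀ m k, 0 ≤ a m k)
    (h : ∀ K, ∑ k ∈ Finset.range (K + 1), ∑ m ∈ Finset.range M, a m k ≤ E) (m : ℕ) (hm : m < M) :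
    Summable (a m) := by
  refine summable_of_sum_range_le (c := E) (ha m) fun n => ?_
  calc ∑ k ∈ Finset.range n, a m k ≤ ∑ k ∈ Finset.range (n + 1), a m k :=
        Finset.sum_le_sum_of_subset_of_nonneg (Finset.range_mono (Nat.le_succ n))
          fun k _ _ => ha m k
    _ ≤ ∑ k ∈ Finset.range (n + 1), ∑ m ∈ Finset.range M, a m k :=
        Finset.sum_le_sum fun k _ =>
          Finset.single_le_sum (f := fun m => a m k) (fun m _ => ha m k) (Finset.mem_range.2 hm)
    _ ≤ E := h n

theorem prIm : claimIm := by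
  intro M a E ha h
  refine ⟨fun m => ∑' k, a m k, fun m => tsum_nonneg (ha m), fun m hm K => ?_, ?_⟩
  · exact (IIm.summ M a E ha h m hm).sum_le_tsum _ fun k _ => ha m k
  · have hs : ∀ m ∈ Finset.range M, Summable (a m) := fun m hm =>
      IIm.summ M a E ha h m (Finset.mem_range.1 hm)
    have h1 : ∑ m ∈ Finset.range M, ∑' k, a m k = ∑' k, ∑ m ∈ Finset.range M, a m k :=
      (Summable.tsum_finsetSum hs).symm
    show ∑ m ∈ Finset.range M, ∑' k, a m k ≤ E
    rw [h1]
    refine Real.tsum_le_of_sum_range_le (fun k => Finset.sum_nonneg fun m _ => ha m k) fun n => ?_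
    calc ∑ k ∈ Finset.range n, ∑ m ∈ Finset.range M, a m k ≤
          ∑ k ∈ Finset.range (n + 1), ∑ m ∈ Finset.range M, a m k :=
          Finset.sum_le_sum_of_subset_of_nonneg (Finset.range_mono (Nat.le_succ n))
            fun k _ _ => Finset.sum_nonneg fun m _ => ha m k
      _ ≤ E := h n

end Pool.Agent.Work.MP_122e00_nt.Strip
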