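import Pool.Agent.Work.MP_122e00_nt.Strip.Stmts
import Pool.Agent.Work.MP_122e00_nt.Core.I_C4

set_option autoImplicit false

/-!
# Joint strip, item Lm: the limit of the majorant for a fixed number of marks
-/

namespace Pool.Agent.Work.MP_122e00_nt.Strip

open Finset Filter Topology MeasureTheory

open scoped ArithmeticFunction.vonMangoldt ArithmeticFunction.zeta ENNReal

open Two Gen Pool.Agent.Work.MP_122e00_nt.Core Pool.Agent.Work.MP_122e00_nt.WR

namespace ILm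

/-- The pairs of pairs of placements and sets. -/
def PP (s k : ℕ) (𝒮 : Finset (Finset (Fin (s + 1)))) :
    Finset (((Fin k → Fin (s + 1)) × Finset (Fin (s + 1))) ×
      ((Fin k → Fin (s + 1)) × Finset (Fin (s + 1)))) :=
  ((Finset.univ : Finset (Fin k → Fin (s + 1))) ×ˢ 𝒮) ×ˢ
    ((Finset.univ : Finset (Fin k → Fin (s + 1))) ×ˢ 𝒮)

theorem cn_eq {s k : ℕ} (𝒮 : Finset (Finset (Fin (s + 1)))) (ρ : ℝ) (x : Fin k → ℝ)
    (v : Fin (s + 1) → ℝ) : (cn 𝒮 ρ x v : ℝ) =
      ∑ p ∈ PP s k 𝒮, if |ell p.1.2 p.1.1 x v - ell p.2.2 p.2.1 x v| < ρ then (1 : ℝ) else 0 := by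
  unfold cn PP
  rw [Finset.card_filter]
  push_cast
  rfl

theorem cn_le {s k : ℕ} (𝒮 : Finset (Finset (Fin (s + 1)))) (ρ : ℝ) (x : Fin k → ℝ)
    (v : Fin (s + 1) → ℝ) : (cn 𝒮 ρ x v : ℝ) ≤ ((PP s k 𝒮).card : ℝ) := by
  have h : cn 𝒮 ρ x v ≤ (PP s k 𝒮).card := Finset.card_filter_le _ _
  exact_mod_cast h

/-- The number of the pairs with equal linear forms. -/
noncomputable def c0 {s k : ℕ} (𝒮 : Finset (Finset (Fin (s + 1)))) (x : Fin k → ℝ)
    (v : Fin (s + 1) → ℝ) : ℝ :=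
  ∑ p ∈ PP s k 𝒮, if ell p.1.2 p.1.1 x v = ell p.2.2 p.2.1 x v then (1 : ℝ) else 0

theorem c0_nonneg {s k : ℕ} (𝒮 : Finset (Finset (Fin (s + 1)))) (x : Fin k → ℝ)
    (v : Fin (s + 1) → ℝ) : 0 ≤ c0 𝒮 x v := by
  refine Finset.sum_nonneg fun p _ => ?_
  split_ifs
  · exact zero_le_one
  · exact le_rfl

theorem c0_le {s k : ℕ} (𝒮 : Finset (Finset (Fin (s + 1)))) (x : Fin k → ℝ)
    (v : Fin (s + 1) → ℝ) : c0 𝒮 x v ≤ ((PP s k 𝒮).card : ℝ) := by
  unfold c0
  calc _ ≤ ∑ _p ∈ PP s k 𝒮, (1 : ℝ) := by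
        refine Finset.sum_le_sum fun p _ => ?_
        split_ifs
        · exact le_rfl
        · exact zero_le_one
    _ = _ := by rw [Finset.sum_const, nsmul_eq_mul, mul_one]

theorem cn_lim {s k : ℕ} (𝒮 : Finset (Finset (Fin (s + 1)))) (x : Fin k → ℝ)
    (v : Fin (s + 1) → ℝ) :
    Tendsto (fun n : ℕ => (cn 𝒮 (1 / ((n : ℝ) + 1)) x v : ℝ)) atTop (𝓝 (c0 𝒮 x v)) := by
  simp only [cn_eq, c0]
  refine tendsto_finsetSum _ fun p _ => ?_
  by_cases h : ell p.1.2 p.1.1 x v = ell p.2.2 p.2.1 x v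
  · rw [if_pos h]
    refine tendsto_const_nhds.congr' (Eventually.of_forall fun n => ?_)
    have hn : (0 : ℝ) < 1 / ((n : ℝ) + 1) := by positivity
    simp only [h, sub_self, abs_zero, if_pos hn]
  · rw [if_neg h]
    have hd : 0 < |ell p.1.2 p.1.1 x v - ell p.2.2 p.2.1 x v| := abs_pos.2 (sub_ne_zero.2 h)
    obtain ⟨N, hN⟩ := exists_nat_gt (1 / |ell p.1.2 p.1.1 x v - ell p.2.2 p.2.1 x v|)
    refine tendsto_const_nhds.congr' ?_
    filter_upwards [eventually_ge_atTop N] with n hn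
    rw [if_neg]
    rw [not_lt, div_le_iff₀ (by positivity)]
    rw [div_lt_iff₀ hd] at hN
    have h1 : (N : ℝ) ≤ n := by exact_mod_cast hn
    nlinarith

theorem ell_cont {s k : ℕ} (S : Finset (Fin (s + 1))) (σ : Fin k → Fin (s + 1)) :
    Continuous fun y : Fin k ⊕ Fin s → ℝ => ell S σ (fun i => y (Sum.inl i))
      (Fin.snoc (fun i => y (Sum.inr i)) (1 - ∑ i, y i)) := by
  unfold ell
  refine continuous_finsetSum _ fun q _ => ?_
  refine Continuous.add ?_ (continuous_finsetSum _ fun j _ => ?_)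
  · refine Fin.lastCases ?_ (fun q' => ?_) q
    · simp only [Fin.snoc_last]
      exact continuous_const.sub (continuous_finsetSum _ fun i _ => continuous_apply i)
    · simp only [Fin.snoc_castSucc]
      exact continuous_apply _
  · split_ifs
    · exact continuous_apply _
    · exact continuous_const

theorem cn_meas {s k : ℕ} (𝒮 : Finset (Finset (Fin (s + 1)))) (ρ : ℝ) :
    Measurable fun y : Fin k ⊕ Fin s → ℝ => (cn 𝒮 ρ (fun i => y (Sum.inl i))
      (Fin.snoc (fun i => y (Sum.inr i)) (1 - ∑ i, y i)) : ℝ) := by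
  simp only [cn_eq]
  refine Finset.measurable_sum _ fun p _ => ?_
  refine Measurable.ite ?_ measurable_const measurable_const
  exact measurableSet_lt (((ell_cont _ _).sub (ell_cont _ _)).abs.measurable) measurable_const

theorem c0_meas {s k : ℕ} (𝒮 : Finset (Finset (Fin (s + 1)))) :
    Measurable fun y : Fin k ⊕ Fin s → ℝ => c0 𝒮 (fun i => y (Sum.inl i))
      (Fin.snoc (fun i => y (Sum.inr i)) (1 - ∑ i, y i)) := by
  unfold c0
  refine Finset.measurable_sum _ fun p _ => ?_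
  refine Measurable.ite ?_ measurable_const measurable_const
  exact measurableSet_eq_fun (ell_cont _ _).measurable (ell_cont _ _).measurable

theorem na_meas {s k : ℕ} (c₀ : ℝ) :
    Measurable fun y : Fin k ⊕ Fin s → ℝ => na c₀ (fun i => y (Sum.inl i)) := by
  unfold na
  simp only [Finset.card_filter]
  refine Finset.measurable_sum _ fun j _ => ?_
  refine Measurable.ite ?_ measurable_const measurable_const
  exact measurableSet_le measurable_const
    (Finset.measurable_sum _ fun i _ => measurable_pi_apply _)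

theorem stp_meas {s k : ℕ} (c : ℝ) :
    MeasurableSet {y : Fin (k + 1) ⊕ Fin s → ℝ | stp c (fun i => y (Sum.inl i))} := by
  have h1 : MeasurableSet {y : Fin (k + 1) ⊕ Fin s → ℝ | c ≤ ∑ j, y (Sum.inl j)} :=
    measurableSet_le measurable_const
      (Finset.measurable_sum _ fun i _ => measurable_pi_apply _)
  have h2 : MeasurableSet {y : Fin (k + 1) ⊕ Fin s → ℝ |
      ∑ j : Fin k, y (Sum.inl j.castSucc) < c} :=
    measurableSet_lt (Finset.measurable_sum _ fun i _ => measurable_pi_apply _)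
      measurable_const
  exact h1.inter h2

open Classical in
/-- The common factor. -/
noncomputable def ww (s k : ℕ) (c₀ c : ℝ) (x : Fin (k + 1) → ℝ) : ℝ :=
  if stp c x then 1 / ((s : ℝ) + 1) ^ na c₀ x else 0

theorem ww_nonneg (s k : ℕ) (c₀ c : ℝ) (x : Fin (k + 1) → ℝ) : 0 ≤ ww s k c₀ c x := by
  unfold ww
  split_ifs
  · positivity
  · exact le_rfl

theorem ww_le (s k : ℕ) (c₀ c : ℝ) (x : Fin (k + 1) → ℝ) : ww s k c₀ c x ≤ 1 := by
  unfold ww
  split_ifs
  · rw [div_le_one (by positivity)]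
    exact one_le_pow₀ (by
      have : (0 : ℝ) ≤ s := Nat.cast_nonneg _
      linarith)
  · exact zero_le_one

theorem ww_meas (s k : ℕ) (c₀ c : ℝ) :
    Measurable fun y : Fin (k + 1) ⊕ Fin s → ℝ => ww s k c₀ c (fun i => y (Sum.inl i)) := by
  classical
  unfold ww
  refine Measurable.ite (stp_meas c) ?_ measurable_const
  have h : Measurable fun n : ℕ => 1 / ((s : ℝ) + 1) ^ n := measurable_of_countable _
  exact h.comp (na_meas c₀)

theorem GS_eq (s k : ℕ) (c₀ c ρ : ℝ) (𝒮 : Finset (Finset (Fin (s + 1))))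
    (x : Fin (k + 1) → ℝ) (v : Fin (s + 1) → ℝ) :
    GS s c₀ c ρ 𝒮 (k + 1) x v = 4 * (ww s k c₀ c x * (cn 𝒮 ρ x v : ℝ)) := by
  simp only [GS, ww]
  split_ifs
  · ring
  · ring

theorem QS_eq (s k : ℕ) (c₀ c : ℝ) (x : Fin (k + 1) → ℝ) :
    QS s c₀ c (k + 1) x = ww s k c₀ c x * ((s : ℝ) * (s + 1)) ^ (k + 1) := by
  simp only [QS, ww]
  split_ifs
  · ring
  · ring

/-- The bound for the number of the pairs with equal linear forms. -/
theorem c0_bound (hCn : claimCn) {s k : ℕ} (𝒮 : Finset (Finset (Fin (s + 1))))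
    (hF : Fam s 𝒮) (x : Fin k → ℝ) (v : Fin (s + 1) → ℝ)
    (h : ∀ (σ σ' : Fin k → Fin (s + 1)) (S S' : Finset (Fin (s + 1))), S ≠ Finset.univ →
      S' ≠ Finset.univ → ell S σ x v = ell S' σ' x v → S = S' ∧ ∀ j, (σ j ∈ S ↔ σ' j ∈ S)) :
    c0 𝒮 x v ≤ (𝒮.card : ℝ) * ((s : ℝ) * (s + 1)) ^ k := by
  have e : c0 𝒮 x v = (((PP s k 𝒮).filter fun p =>
      ell p.1.2 p.1.1 x v = ell p.2.2 p.2.1 x v).card : ℝ) := by
    unfold c0
    rw [Finset.card_filter]
    push_cast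
    rfl
  have h1 : ((PP s k 𝒮).filter fun p =>
      ell p.1.2 p.1.1 x v = ell p.2.2 p.2.1 x v) ⊆
      𝒮.biUnion fun S => ((Finset.univ : Finset ((Fin k → Fin (s + 1)) ×
        (Fin k → Fin (s + 1)))).filter (fun p => ∀ j, (p.1 j ∈ S ↔ p.2 j ∈ S))).image
          fun p => ((p.1, S), (p.2, S)) := by
    rintro ⟨⟨σ, S⟩, ⟨σ', S'⟩⟩ hp
    simp only [PP, Finset.mem_filter, Finset.mem_product, Finset.mem_univ, true_and] at hp
    obtain ⟨⟨hS, hS'⟩, he⟩ := hp
    obtain ⟨h2, h3⟩ := h σ σ' S S' (hF S hS).2.1 (hF S' hS').2.1 he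
    subst h2
    simp only [Finset.mem_biUnion, Finset.mem_image, Finset.mem_filter, Finset.mem_univ,
      true_and]
    exact ⟨S, hS, (σ, σ'), h3, rfl⟩
  have h2 : ((PP s k 𝒮).filter fun p =>
      ell p.1.2 p.1.1 x v = ell p.2.2 p.2.1 x v).card ≤ 𝒮.card * (s * (s + 1)) ^ k := by
    refine (Finset.card_le_card h1).trans ?_
    refine Finset.card_biUnion_le_card_mul _ _ _ fun S hS => ?_
    exact Finset.card_image_le.trans (hCn s k S (hF S hS).2.2)
  rw [e]
  exact_mod_cast h2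

theorem intb (h8 : Two.claimT8) (s k : ℕ) (b : ℝ) (f : (Fin k ⊕ Fin s → ℝ) → ℝ)
    (hf : Measurable f) (h0 : ∀ y, 0 ≤ f y) (h1 : ∀ y, f y ≤ b) :
    IntegrableOn (fun y => f y * den y) (Sim k s) := by
  refine ((h8 k s).1.const_mul b).mono' ?_ ?_
  · exact (hf.mul (Two.IT8.den_meas k s)).aestronglyMeasurable
  · filter_upwards [ae_restrict_mem (Two.IT8.Sim_meas k s)] with y hy
    have hd := IC4.den_nonneg hy
    rw [Real.norm_of_nonneg (mul_nonneg (h0 y) hd)]
    exact mul_le_mul_of_nonneg_right (h1 y) hd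

end ILm

open ILm in
theorem prLm (hAe : claimAe) (hCn : claimCn) (h8 : Two.claimT8) : claimLm := by
  intro s k c₀ c ε 𝒮 hs hF hε
  rcases k with _ | k
  · refine ⟨1, one_pos, ?_⟩
    have e1 : ∫ y in Sim 0 s, Two.ext (GS s c₀ c 1 𝒮 0) (y, 1 - ∑ i, y i) * den y = 0 := by
      have h : ∀ y : Fin 0 ⊕ Fin s → ℝ,
          Two.ext (GS s c₀ c 1 𝒮 0) (y, 1 - ∑ i, y i) * den y = 0 := by
        intro y
        show (0 : ℝ) * den y = 0
        ring
      simp only [h, integral_zero]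
    have e2 : ∫ y in Sim 0 s, QS s c₀ c 0 (fun i => y (Sum.inl i)) * den y = 0 := by
      have h : ∀ y : Fin 0 ⊕ Fin s → ℝ,
          QS s c₀ c 0 (fun i => y (Sum.inl i)) * den y = 0 := by
        intro y
        show (0 : ℝ) * den y = 0
        ring
      simp only [h, integral_zero]
    rw [e1, e2]
    linarith
  · set N : ℝ := ((PP s (k + 1) 𝒮).card : ℝ) with hN
    have hN0 : 0 ≤ N := Nat.cast_nonneg _
    -- the integrands
    have hG : ∀ (ρ : ℝ) (y : Fin (k + 1) ⊕ Fin s → ℝ),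
        Two.ext (GS s c₀ c ρ 𝒮 (k + 1)) (y, 1 - ∑ i, y i) =
          4 * (ww s k c₀ c (fun i => y (Sum.inl i)) * (cn 𝒮 ρ (fun i => y (Sum.inl i))
            (Fin.snoc (fun i => y (Sum.inr i)) (1 - ∑ i, y i)) : ℝ)) := fun ρ y =>
      GS_eq s k c₀ c ρ 𝒮 _ _
    have hGm : ∀ ρ : ℝ, Measurable fun y : Fin (k + 1) ⊕ Fin s → ℝ =>
        4 * (ww s k c₀ c (fun i => y (Sum.inl i)) * (cn 𝒮 ρ (fun i => y (Sum.inl i))
            (Fin.snoc (fun i => y (Sum.inr i)) (1 - ∑ i, y i)) : ℝ)) := fun ρ =>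
      ((ww_meas s k c₀ c).mul (cn_meas 𝒮 ρ)).const_mul 4
    have hG0 : ∀ (ρ : ℝ) (y : Fin (k + 1) ⊕ Fin s → ℝ),
        0 ≤ 4 * (ww s k c₀ c (fun i => y (Sum.inl i)) * (cn 𝒮 ρ (fun i => y (Sum.inl i))
            (Fin.snoc (fun i => y (Sum.inr i)) (1 - ∑ i, y i)) : ℝ)) := fun ρ y =>
      mul_nonneg (by norm_num) (mul_nonneg (ww_nonneg _ _ _ _ _) (Nat.cast_nonneg _))
    have hG1 : ∀ (ρ : ℝ) (y : Fin (k + 1) ⊕ Fin s → ℝ),
        4 * (ww s k c₀ c (fun i => y (Sum.inl i)) * (cn 𝒮 ρ (fun i => y (Sum.inl i))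
            (Fin.snoc (fun i => y (Sum.inr i)) (1 - ∑ i, y i)) : ℝ)) ≤ 4 * (1 * N) := fun ρ y =>
      mul_le_mul_of_nonneg_left (mul_le_mul (ww_le _ _ _ _ _) (cn_le _ _ _ _)
        (Nat.cast_nonneg _) zero_le_one) (by norm_num)
    have hlim := tendsto_integral_of_dominated_convergence (μ := volume.restrict (Sim (k + 1) s))
      (F := fun (n : ℕ) y => Two.ext (GS s c₀ c (1 / ((n : ℝ) + 1)) 𝒮 (k + 1))
        (y, 1 - ∑ i, y i) * den y)
      (f := fun y => 4 * (ww s k c₀ c (fun i => y (Sum.inl i)) * c0 𝒮 (fun i => y (Sum.inl i))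
            (Fin.snoc (fun i => y (Sum.inr i)) (1 - ∑ i, y i))) * den y)
      (fun y => 4 * (1 * N) * den y)
      (fun n => by
        simp only [hG]
        exact ((hGm _).mul (Two.IT8.den_meas (k + 1) s)).aestronglyMeasurable)
      ((h8 (k + 1) s).1.const_mul _)
      (fun n => by
        filter_upwards [ae_restrict_mem (Two.IT8.Sim_meas (k + 1) s)] with y hy
        have hd := IC4.den_nonneg hy
        rw [hG, Real.norm_of_nonneg (mul_nonneg (hG0 _ _) hd)]
        exact mul_le_mul_of_nonneg_right (hG1 _ _) hd)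
      (Eventually.of_forall fun y => by
        simp only [hG]
        exact (((cn_lim 𝒮 _ _).const_mul _).const_mul 4).mul_const _)
    have hint1 : IntegrableOn (fun y : Fin (k + 1) ⊕ Fin s → ℝ =>
        4 * (ww s k c₀ c (fun i => y (Sum.inl i)) * c0 𝒮 (fun i => y (Sum.inl i))
            (Fin.snoc (fun i => y (Sum.inr i)) (1 - ∑ i, y i))) * den y) (Sim (k + 1) s) := by
      refine intb h8 s (k + 1) (4 * (1 * N)) _ (((ww_meas s k c₀ c).mul (c0_meas 𝒮)).const_mul 4)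
        (fun y => ?_) fun y => ?_
      · exact mul_nonneg (by norm_num) (mul_nonneg (ww_nonneg _ _ _ _ _) (c0_nonneg _ _ _))
      · exact mul_le_mul_of_nonneg_left (mul_le_mul (ww_le _ _ _ _ _) (c0_le _ _ _)
          (c0_nonneg _ _ _) zero_le_one) (by norm_num)
    have hq0 : (0 : ℝ) ≤ ((s : ℝ) * (s + 1)) ^ (k + 1) := by positivity
    have hint2 : IntegrableOn (fun y : Fin (k + 1) ⊕ Fin s → ℝ =>
        QS s c₀ c (k + 1) (fun i => y (Sum.inl i)) * den y) (Sim (k + 1) s) := by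
      simp only [QS_eq]
      refine intb h8 s (k + 1) (1 * ((s : ℝ) * (s + 1)) ^ (k + 1)) _
        ((ww_meas s k c₀ c).mul_const _) (fun y => ?_) fun y => ?_
      · exact mul_nonneg (ww_nonneg _ _ _ _ _) hq0
      · exact mul_le_mul_of_nonneg_right (ww_le _ _ _ _ _) hq0
    have hle : ∫ y in Sim (k + 1) s,
        4 * (ww s k c₀ c (fun i => y (Sum.inl i)) * c0 𝒮 (fun i => y (Sum.inl i))
            (Fin.snoc (fun i => y (Sum.inr i)) (1 - ∑ i, y i))) * den y ≤
        4 * (𝒮.card : ℝ) *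
          ∫ y in Sim (k + 1) s, QS s c₀ c (k + 1) (fun i => y (Sum.inl i)) * den y := by
      rw [← integral_const_mul]
      refine integral_mono_ae hint1 (hint2.const_mul _) ?_
      filter_upwards [ae_restrict_mem (Two.IT8.Sim_meas (k + 1) s),
        ae_restrict_of_ae (hAe s (k + 1))] with y hy hy2
      have hd := IC4.den_nonneg hy
      have h1 := c0_bound hCn 𝒮 hF _ _ hy2
      have h2 := mul_le_mul_of_nonneg_left h1
        (ww_nonneg s k c₀ c (fun i => y (Sum.inl i)))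
      have h3 := mul_le_mul_of_nonneg_right (mul_le_mul_of_nonneg_left h2
        (by norm_num : (0 : ℝ) ≤ 4)) hd
      refine h3.trans (le_of_eq ?_)
      rw [QS_eq]
      ring
    have hev := hlim.eventually_lt_const (show _ < 4 * (𝒮.card : ℝ) *
          (∫ y in Sim (k + 1) s, QS s c₀ c (k + 1) (fun i => y (Sum.inl i)) * den y) + ε by
        linarith)
    obtain ⟨n, hn⟩ := hev.exists
    exact ⟨1 / ((n : ℝ) + 1), by positivity, hn.le⟩

end Pool.Agent.Work.MP_122e00_nt.Strip
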