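import Pool.Agent.Work.MP_122e00_nt.Strip.Stmts
import Pool.Agent.Work.MP_122e00_nt.Core.I_C3

set_option autoImplicit false

/-!
# The joint strip, item Me: the mean value of the chain scheme
-/

namespace Pool.Agent.Work.MP_122e00_nt.Strip

open Finset Filter Topology MeasureTheory

open scoped ArithmeticFunction.vonMangoldt ArithmeticFunction.zeta ENNReal

open Two Gen Pool.Agent.Work.MP_122e00_nt.Core Pool.Agent.Work.MP_122e00_nt.WR

namespace IMe

/-- The partial sums of the marks avoid `c₀` almost everywhere. -/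
lemma aeP (k s : ℕ) (c₀ : ℝ) (j : Fin (k + 1)) (hj : j ≠ 0) :
    ∀ᵐ y : Fin (k + 1) ⊕ Fin s → ℝ,
      c₀ ≠ ∑ i ∈ Finset.univ.filter (fun i : Fin (k + 1) => i < j), y (Sum.inl i) := by
  have h := IB7.ae_ne (∑ i ∈ Finset.univ.filter (fun i : Fin (k + 1) => i < j),
    (LinearMap.proj (Sum.inl i) : (Fin (k + 1) ⊕ Fin s → ℝ) →ₗ[ℝ] ℝ))
    (fun i => Sum.elim (fun _ => 1) (fun _ => 0) i) ?_ c₀
  · filter_upwards [h] with y hy e
    apply hy
    rw [LinearMap.sum_apply]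
    exact e.symm
  · rw [LinearMap.sum_apply]
    simp only [LinearMap.proj_apply, Sum.elim_inl, Finset.sum_const, nsmul_eq_mul, mul_one]
    rw [Nat.cast_ne_zero, ← Nat.pos_iff_ne_zero, Finset.card_pos]
    exact ⟨0, Finset.mem_filter.2 ⟨Finset.mem_univ _, Fin.pos_iff_ne_zero.2 hj⟩⟩

/-- Near almost every point the comparison of a partial sum with `c₀` is constant. -/
lemma aeJ (k s : ℕ) (c₀ : ℝ) (j : Fin (k + 1)) :
    ∀ᵐ y : Fin (k + 1) ⊕ Fin s → ℝ, ∀ᶠ p : (Fin (k + 1) ⊕ Fin s → ℝ) × ℝ in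
      𝓝 (y, 1 - ∑ i, y i),
      ((∑ i ∈ Finset.univ.filter (fun i : Fin (k + 1) => i < j), p.1 (Sum.inl i) < c₀) ↔
        (∑ i ∈ Finset.univ.filter (fun i : Fin (k + 1) => i < j), y (Sum.inl i) < c₀)) := by
  by_cases hj : j = 0
  · subst hj
    refine Eventually.of_forall fun y => Eventually.of_forall fun p => ?_
    have e : Finset.univ.filter (fun i : Fin (k + 1) => i < 0) = ∅ :=
      Finset.filter_eq_empty_iff.2 fun i _ => Fin.not_lt_zero i
    rw [e, Finset.sum_empty, Finset.sum_empty]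
  · filter_upwards [aeP k s c₀ j hj] with y hy
    have hc : Continuous (fun p : (Fin (k + 1) ⊕ Fin s → ℝ) × ℝ =>
      ∑ i ∈ Finset.univ.filter (fun i : Fin (k + 1) => i < j), p.1 (Sum.inl i)) := by fun_prop
    exact IB7.ev_lt (f := fun p : (Fin (k + 1) ⊕ Fin s → ℝ) × ℝ =>
      ∑ i ∈ Finset.univ.filter (fun i : Fin (k + 1) => i < j), p.1 (Sum.inl i))
      (g := fun _ => c₀) hc.continuousAt continuousAt_const hy.symm

/-- Near almost every point `na c₀` is constant. -/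
lemma aeN (k s : ℕ) (c₀ : ℝ) :
    ∀ᵐ y : Fin (k + 1) ⊕ Fin s → ℝ, ∀ᶠ p : (Fin (k + 1) ⊕ Fin s → ℝ) × ℝ in
      𝓝 (y, 1 - ∑ i, y i),
      na c₀ (fun i => p.1 (Sum.inl i)) = na c₀ (fun i => y (Sum.inl i)) := by
  have h : ∀ᵐ y : Fin (k + 1) ⊕ Fin s → ℝ, ∀ j : Fin (k + 1),
      ∀ᶠ p : (Fin (k + 1) ⊕ Fin s → ℝ) × ℝ in 𝓝 (y, 1 - ∑ i, y i),
      ((∑ i ∈ Finset.univ.filter (fun i : Fin (k + 1) => i < j), p.1 (Sum.inl i) < c₀) ↔
        (∑ i ∈ Finset.univ.filter (fun i : Fin (k + 1) => i < j), y (Sum.inl i) < c₀)) :=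
    ae_all_iff.2 fun j => aeJ k s c₀ j
  filter_upwards [h] with y hy
  filter_upwards [eventually_all.2 hy] with p hp
  unfold na
  congr 1
  refine Finset.filter_congr fun j _ => ?_
  rw [← not_lt, ← not_lt]
  exact not_congr (hp j)

lemma aeFS (s k : ℕ) (c₀ c : ℝ) {g : (Fin (s + 1) → ℝ) → ℝ} (hg : Continuous g) :
    ∀ᵐ y ∂(volume.restrict (Sim k s)),
      ContinuousAt (ext (FS s c₀ c g k)) (y, 1 - ∑ i, y i) := by
  classical
  rcases k with _ | k
  · refine Eventually.of_forall fun y => ?_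
    have : ext (FS s c₀ c g 0) = fun _ => (0 : ℝ) := by
      funext p
      rfl
    rw [this]
    exact continuousAt_const
  · have hD : ∀ᵐ y : Fin (k + 1) ⊕ Fin s → ℝ, ∀ᶠ p : (Fin (k + 1) ⊕ Fin s → ℝ) × ℝ in
        𝓝 (y, 1 - ∑ i, y i), ((∑ j : Fin k, p.1 (Sum.inl j.castSucc) < c) ↔
          (∑ j : Fin k, y (Sum.inl j.castSucc) < c)) := by
      rcases k with _ | k
      · exact Eventually.of_forall fun y => Eventually.of_forall fun p => by simp
      · filter_upwards [IB7.aeD k s c] with y hy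
        have hc : Continuous (fun p : (Fin (k + 2) ⊕ Fin s → ℝ) × ℝ =>
          ∑ j : Fin (k + 1), p.1 (Sum.inl j.castSucc)) := by fun_prop
        exact IB7.ev_lt (f := fun p : (Fin (k + 2) ⊕ Fin s → ℝ) × ℝ =>
          ∑ j : Fin (k + 1), p.1 (Sum.inl j.castSucc)) (g := fun _ => c)
          hc.continuousAt continuousAt_const hy
    filter_upwards [ae_restrict_of_ae (IB7.aeC k s c), ae_restrict_of_ae hD,
      ae_restrict_of_ae (aeN k s c₀)] with y hy1 hy2 hy3
    have hc : Continuous (fun p : (Fin (k + 1) ⊕ Fin s → ℝ) × ℝ =>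
      ∑ j : Fin (k + 1), p.1 (Sum.inl j)) := by fun_prop
    have h1 := IB7.ev_lt (f := fun p : (Fin (k + 1) ⊕ Fin s → ℝ) × ℝ =>
      ∑ j : Fin (k + 1), p.1 (Sum.inl j)) (g := fun _ => c) (p0 := (y, 1 - ∑ i, y i))
      hc.continuousAt continuousAt_const hy1
    have hk : ContinuousAt (fun p : (Fin (k + 1) ⊕ Fin s → ℝ) × ℝ =>
      if stp c (fun i => y (Sum.inl i)) then
        (Pl g (fun i => p.1 (Sum.inl i)) (Fin.snoc (fun i => p.1 (Sum.inr i)) p.2)) ^ 2 /
          ((s : ℝ) + 1) ^ na c₀ (fun i => y (Sum.inl i)) else 0)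
      (y, 1 - ∑ i, y i) := by
      by_cases h : stp c (fun i => y (Sum.inl i))
      · simp only [if_pos h]
        exact (((IC3.cont_Pl hg).pow 2).div_const _).continuousAt
      · simp only [if_neg h]
        exact continuousAt_const
    refine hk.congr ?_
    filter_upwards [h1, hy2, hy3] with p h1 h2 h3
    have e : stp c (fun i => p.1 (Sum.inl i)) ↔ stp c (fun i => y (Sum.inl i)) := by
      unfold stp
      refine and_congr ?_ h2
      rw [← not_lt, ← not_lt]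
      exact not_congr h1
    show _ = FS s c₀ c g (k + 1) (fun i => p.1 (Sum.inl i))
      (Fin.snoc (fun i => p.1 (Sum.inr i)) p.2)
    simp only [FS]
    by_cases h : stp c (fun i => y (Sum.inl i))
    · rw [if_pos h, if_pos (e.2 h), h3]
    · rw [if_neg h, if_neg fun h' => h (e.1 h')]

/-- Division by a power of `s + 1` does not increase. -/
lemma div_le {s n : ℕ} {a b : ℝ} (ha : 0 ≤ a) (hab : a ≤ b) : a / ((s : ℝ) + 1) ^ n ≤ b := by
  have h1 : (1 : ℝ) ≤ ((s : ℝ) + 1) ^ n :=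
    one_le_pow₀ (by linarith [(Nat.cast_nonneg s : (0 : ℝ) ≤ s)])
  exact (div_le_self ha h1).trans hab

end IMe

/-- **Me.** The mean value of the chain scheme. -/
theorem prMe (hM3 : claimM3) : claimMe := by
  classical
  intro s h θ c₀ c B I ψ g hs hh h0 h1 hW hc hc1 hB hg hgc hI
  have hB2 : 1 ≤ B ^ 2 := one_le_pow₀ hB
  have hs1 : (1 : ℝ) ≤ ((s : ℝ) + 1) ^ 2 :=
    one_le_pow₀ (by linarith [(Nat.cast_nonneg s : (0 : ℝ) ≤ s)])
  have hC : 1 ≤ B ^ 2 * ((s : ℝ) + 1) ^ 2 := one_le_mul_of_one_le_of_one_le hB2 hs1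
  have hC0 : 0 ≤ B ^ 2 * ((s : ℝ) + 1) ^ 2 := zero_le_one.trans hC
  refine hM3 s h θ ψ hs hh h0 h1 hW (FS s c₀ c g) (B ^ 2 * ((s : ℝ) + 1) ^ 2) c I hC hc hc1 ?_ ?_
    (fun k => IMe.aeFS s k c₀ c hgc) hI
  · intro k x v
    rcases k with _ | k
    · simp [FS]
    · simp only [FS]
      split_ifs
      · exact ⟨div_nonneg (sq_nonneg _) (by positivity),
          IMe.div_le (sq_nonneg _) (IC3.sq_le hB hg x v)⟩
      · exact ⟨le_refl _, pow_nonneg hC0 _⟩
  · intro k x v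
    simp only [FS, FL]
    split_ifs with h1 h2 h2
    · rw [mul_one]
      exact IMe.div_le (sq_nonneg _) (IC3.sq_le hB hg x v)
    · exact absurd h1.2 h2
    · rw [mul_one]
      exact pow_nonneg hC0 _
    · rw [mul_zero]

end Pool.Agent.Work.MP_122e00_nt.Strip
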