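import Pool.Agent.Work.MP_122e00_nt.Strip.Stmts

set_option autoImplicit false

/-!
# Item On of the joint strip: the case `s = 1`

The divisor bound is the one of `DivBound.lean` and `Key3.lean`, repeated here in order to import only
the statements.
-/

namespace Pool.Agent.Work.MP_122e00_nt.Strip

open Finset Filter Topology MeasureTheory

open scoped ArithmeticFunction.vonMangoldt ArithmeticFunction.zeta ENNReal

open Two Gen Pool.Agent.Work.MP_122e00_nt.Core Pool.Agent.Work.MP_122e00_nt.WR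

namespace IOn

theorem exists_pow_le_two_pow (J : ℕ) : ∃ c : ℕ, 1 ≤ c ∧ ∀ e : ℕ, (e + 1) ^ J ≤ c * 2 ^ e := by
  have h : Filter.Tendsto (fun n : ℕ => ((n : ℝ) ^ J / 2 ^ n)) Filter.atTop (nhds 0) :=
    tendsto_pow_const_div_const_pow_of_one_lt J (by norm_num)
  obtain ⟨B, hB⟩ := h.bddAbove_range
  refine ⟨⌈2 * B⌉₊ + 1, by omega, fun e => ?_⟩
  have h1 : ((e + 1 : ℕ) : ℝ) ^ J / 2 ^ (e + 1) ≤ B := hB ⟨e + 1, rfl⟩
  rw [div_le_iff₀ (by positivity)] at h1
  have h2 : (2 * B : ℝ) ≤ ⌈2 * B⌉₊ := Nat.le_ceil _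
  have h3 : (((e + 1) ^ J : ℕ) : ℝ) ≤ (((⌈2 * B⌉₊ + 1) * 2 ^ e : ℕ) : ℝ) := by
    push_cast
    push_cast at h1
    calc ((e : ℝ) + 1) ^ J ≤ B * 2 ^ (e + 1) := h1
      _ = (2 * B) * 2 ^ e := by ring
      _ ≤ (⌈2 * B⌉₊ + 1) * 2 ^ e := by gcongr; linarith
  exact_mod_cast h3

theorem card_divisors_pow_le (J : ℕ) : ∃ C : ℕ, 1 ≤ C ∧ ∀ k : ℕ, k ≠ 0 →
    (k.divisors.card) ^ J ≤ C * k := by
  obtain ⟨c, hc1, hc⟩ := exists_pow_le_two_pow J
  refine ⟨c ^ (2 ^ J), Nat.one_le_pow _ _ hc1, fun k hk => ?_⟩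
  rw [Nat.card_divisors hk, ← Finset.prod_pow]
  have hstep : ∏ p ∈ k.primeFactors, (k.factorization p + 1) ^ J ≤
      ∏ p ∈ k.primeFactors, ((if p < 2 ^ J then c else 1) * p ^ (k.factorization p)) := by
    apply Finset.prod_le_prod'
    intro p hp
    have hp2 := (Nat.prime_of_mem_primeFactors hp).two_le
    split_ifs with h
    · exact (hc _).trans (Nat.mul_le_mul_left _ (Nat.pow_le_pow_left hp2 _))
    · rw [one_mul]
      have h1 : k.factorization p + 1 ≤ 2 ^ (k.factorization p) := Nat.lt_two_pow_self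
      calc (k.factorization p + 1) ^ J ≤ (2 ^ (k.factorization p)) ^ J := Nat.pow_le_pow_left h1 _
        _ = (2 ^ J) ^ (k.factorization p) := by rw [← pow_mul, ← pow_mul, mul_comm]
        _ ≤ p ^ (k.factorization p) := Nat.pow_le_pow_left (not_lt.mp h) _
  refine hstep.trans ?_
  rw [Finset.prod_mul_distrib]
  have h2 : ∏ p ∈ k.primeFactors, p ^ k.factorization p = k :=
    Nat.prod_factorization_pow_eq_self hk
  rw [h2]
  apply Nat.mul_le_mul_right
  rw [Finset.prod_ite, Finset.prod_const, Finset.prod_const_one, mul_one]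
  apply Nat.pow_le_pow_right hc1
  calc _ ≤ (Finset.range (2 ^ J)).card := by
        apply Finset.card_le_card
        intro p hp
        simp only [Finset.mem_filter] at hp
        exact Finset.mem_range.mpr hp.2
    _ = 2 ^ J := Finset.card_range _

theorem card_finMulAntidiag_le (s k : ℕ) (hk : k ≠ 0) :
    (Nat.finMulAntidiag s k).card ≤ (k.divisors.card) ^ s := by
  calc (Nat.finMulAntidiag s k).card ≤ (Fintype.piFinset (fun _ : Fin s => k.divisors)).card := by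
        apply Finset.card_le_card
        intro f hf
        rw [Fintype.mem_piFinset]
        intro i
        rw [Nat.mem_divisors]
        exact ⟨Nat.dvd_of_mem_finMulAntidiag hf i, hk⟩
    _ = (k.divisors.card) ^ s := by simp

theorem divisor_bound (s : ℕ) {κ : ℝ} (hκ : 0 < κ) :
    ∀ᶠ X : ℝ in atTop, ∀ n : ℕ, n ≠ 0 → (n : ℝ) ≤ X →
      ((n.divisors.card : ℝ)) ^ s ≤ X ^ κ := by
  obtain ⟨J, hJ⟩ := exists_nat_gt (2 / κ)
  have hJ0 : 0 < J := by
    have : (0:ℝ) < J := lt_trans (by positivity) hJ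
    exact_mod_cast this
  have hJκ : 1 < κ * J := by
    have h1 : 2 < κ * J := by
      rw [div_lt_iff₀ hκ] at hJ
      linarith
    linarith
  obtain ⟨C, hC1, hC⟩ := card_divisors_pow_le (s * J)
  have h1 : ∀ᶠ X : ℝ in atTop, (C : ℝ) ≤ X ^ (κ * J - 1) :=
    (tendsto_rpow_atTop (by linarith : 0 < κ * J - 1)).eventually_ge_atTop _
  filter_upwards [h1, eventually_ge_atTop 1] with X hX1 hX n hn hnX
  have hX0 : 0 < X := by linarith
  have h2 := hC n hn
  have h3 : (((n.divisors.card : ℝ)) ^ s) ^ J ≤ (X ^ κ) ^ J := by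
    calc (((n.divisors.card : ℝ)) ^ s) ^ J = ((n.divisors.card : ℝ)) ^ (s * J) := by
          rw [pow_mul]
      _ ≤ (C : ℝ) * n := by exact_mod_cast h2
      _ ≤ X ^ (κ * J - 1) * X := by gcongr
      _ = X ^ (κ * J) := by
          rw [← Real.rpow_add_one hX0.ne']
          congr 1
          ring
      _ = (X ^ κ) ^ J := by
          rw [Real.rpow_mul hX0.le, Real.rpow_natCast]
  exact le_of_pow_le_pow_left₀ hJ0.ne' (by positivity) h3

/-- the number of factorisations in two factors -/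
theorem two_bound : ∀ᶠ X : ℝ in atTop, ∀ m : ℕ, m ≠ 0 → (m : ℝ) ≤ 2 * X →
    ((Nat.finMulAntidiag (1 + 1) m).card : ℝ) ≤ X ^ (1 / 56 : ℝ) := by
  have h2X : Tendsto (fun X : ℝ => 2 * X) atTop atTop :=
    Filter.Tendsto.const_mul_atTop (by norm_num) tendsto_id
  filter_upwards [h2X.eventually (divisor_bound 2 (show (0 : ℝ) < 1 / 112 by norm_num)),
    eventually_ge_atTop (2 : ℝ)] with X hX hX2 m hm hmX
  have h1 := hX m hm hmX
  have h2 : ((Nat.finMulAntidiag (1 + 1) m).card : ℝ) ≤ (m.divisors.card : ℝ) ^ 2 := by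
    exact_mod_cast card_finMulAntidiag_le 2 m hm
  refine h2.trans (h1.trans ?_)
  calc (2 * X) ^ (1 / 112 : ℝ) ≤ (X * X) ^ (1 / 112 : ℝ) := by
        apply Real.rpow_le_rpow (by linarith) _ (by norm_num)
        nlinarith
    _ = X ^ (1 / 56 : ℝ) := by
        rw [Real.mul_rpow (by linarith) (by linarith), ← Real.rpow_add (by linarith)]
        congr 1
        norm_num

/-- in the core with `s = 1`, `δ = 1 / 4` only small `n` occur -/
theorem small {h n : ℕ} {X : ℝ} (hX : 0 < X) {v w : Fin (1 + 1) → ℕ}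
    (hv : ∏ i, v i = n) (hw : ∏ i, w i = n + h) (hc : IsCore 1 (1 / 4) X v w) :
    (n : ℝ) ≤ X ^ (13 / 14 : ℝ) := by
  have h0 := (hc.2.2 0 1 0 (by decide)).1
  have h1 := (hc.2.2 0 1 1 (by decide)).1
  have hv' : v 0 * v 1 = n := by
    rw [← hv]
    exact (Fin.prod_univ_two v).symm
  have hw' : w 0 * w 1 = n + h := by
    rw [← hw]
    exact (Fin.prod_univ_two w).symm
  have hvr : (v 0 : ℝ) * v 1 = n := by exact_mod_cast hv'
  have hwr : (w 0 : ℝ) * w 1 = n + h := by exact_mod_cast hw'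
  rw [hwr] at h0 h1
  have hn0 : (0 : ℝ) ≤ n := Nat.cast_nonneg _
  have hh0 : (0 : ℝ) ≤ h := Nat.cast_nonneg _
  have h2 : (n : ℝ) ^ 7 ≤ (X ^ (13 / 14 : ℝ)) ^ 7 := by
    calc (n : ℝ) ^ 7 = ((n : ℝ) ^ 2) ^ 2 * ((v 0 : ℝ) * v 1) ^ 3 := by rw [hvr]; ring
      _ ≤ (((n : ℝ) + h) ^ 2) ^ 2 * ((v 0 : ℝ) * v 1) ^ 3 := by
          gcongr
          linarith
      _ = (((n : ℝ) + h) ^ 2 * (v 0 : ℝ) ^ 3) * (((n : ℝ) + h) ^ 2 * (v 1 : ℝ) ^ 3) := by ring
      _ ≤ X ^ (3 + 1 / 4 : ℝ) * X ^ (3 + 1 / 4 : ℝ) :=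
          mul_le_mul h0 h1 (by positivity) (by positivity)
      _ = (X ^ (13 / 14 : ℝ)) ^ 7 := by
          rw [← Real.rpow_add hX, ← Real.rpow_natCast, ← Real.rpow_mul hX.le]
          congr 1
          norm_num
  exact le_of_pow_le_pow_left₀ (by norm_num) (by positivity) h2

end IOn

open IOn in
theorem prOn : claimOn := by
  classical
  intro h ε hh hε
  have e2 : ∀ᶠ X : ℝ in atTop, ε⁻¹ ≤ X ^ (1 / 28 : ℝ) :=
    (tendsto_rpow_atTop (by norm_num)).eventually_ge_atTop _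
  have e3 := Real.tendsto_log_atTop.eventually (eventually_ge_atTop (1 : ℝ))
  filter_upwards [two_bound, e2, e3, eventually_ge_atTop (2 : ℝ), eventually_ge_atTop (h : ℝ)]
    with X h1 h2 h3 hX2 hXh
  have hX0 : 0 < X := by linarith
  have hp28 : 0 < X ^ (1 / 28 : ℝ) := Real.rpow_pos_of_pos hX0 _
  unfold coreS
  have hterm : ∀ n ∈ Finset.Icc 1 ⌊X⌋₊,
      ((((Nat.finMulAntidiag (1 + 1) n ×ˢ Nat.finMulAntidiag (1 + 1) (n + h)).filter
        (fun p : (Fin (1 + 1) → ℕ) × (Fin (1 + 1) → ℕ) =>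
          IsCore 1 (1 / 4) X p.1 p.2)).card : ℕ) : ℝ) ≤
      if (n : ℝ) ≤ X ^ (13 / 14 : ℝ) then X ^ (1 / 28 : ℝ) else 0 := by
    intro n hn
    rw [Finset.mem_Icc] at hn
    have hnX : (n : ℝ) ≤ X := by
      have h4 : (n : ℝ) ≤ (⌊X⌋₊ : ℝ) := by exact_mod_cast hn.2
      exact h4.trans (Nat.floor_le hX0.le)
    split_ifs with hc
    · have h5 := h1 n (by omega) (by linarith)
      have h6 := h1 (n + h) (by omega) (by push_cast; linarith)
      calc _ ≤ (((Nat.finMulAntidiag (1 + 1) n ×ˢ Nat.finMulAntidiag (1 + 1) (n + h)).card : ℕ) : ℝ) := by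
            exact_mod_cast Finset.card_filter_le _ _
        _ = ((Nat.finMulAntidiag (1 + 1) n).card : ℝ) * ((Nat.finMulAntidiag (1 + 1) (n + h)).card : ℝ) := by
            rw [Finset.card_product]
            push_cast
            rfl
        _ ≤ X ^ (1 / 56 : ℝ) * X ^ (1 / 56 : ℝ) :=
            mul_le_mul h5 h6 (by positivity) (by positivity)
        _ = X ^ (1 / 28 : ℝ) := by
            rw [← Real.rpow_add hX0]
            congr 1
            norm_num
    · have h7 : ((Nat.finMulAntidiag (1 + 1) n ×ˢ Nat.finMulAntidiag (1 + 1) (n + h)).filter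
          (fun p : (Fin (1 + 1) → ℕ) × (Fin (1 + 1) → ℕ) =>
          IsCore 1 (1 / 4) X p.1 p.2)) = ∅ := by
        rw [Finset.filter_eq_empty_iff]
        rintro ⟨v, w⟩ hvw hcore
        rw [Finset.mem_product, Nat.mem_finMulAntidiag, Nat.mem_finMulAntidiag] at hvw
        exact hc (small hX0 hvw.1.1 hvw.2.1 hcore)
      rw [h7]
      simp
  have hcard : (((Finset.Icc 1 ⌊X⌋₊).filter fun n : ℕ => (n : ℝ) ≤ X ^ (13 / 14 : ℝ)).card : ℝ)
      ≤ X ^ (13 / 14 : ℝ) := by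
    have h8 : ((Finset.Icc 1 ⌊X⌋₊).filter fun n : ℕ => (n : ℝ) ≤ X ^ (13 / 14 : ℝ)) ⊆
        Finset.Icc 1 ⌊X ^ (13 / 14 : ℝ)⌋₊ := by
      intro n hn
      rw [Finset.mem_filter, Finset.mem_Icc] at hn
      rw [Finset.mem_Icc]
      exact ⟨hn.1.1, Nat.le_floor hn.2⟩
    have h9 := Finset.card_le_card h8
    rw [Nat.card_Icc, Nat.add_sub_cancel] at h9
    calc _ ≤ (⌊X ^ (13 / 14 : ℝ)⌋₊ : ℝ) := by exact_mod_cast h9
      _ ≤ X ^ (13 / 14 : ℝ) := Nat.floor_le (by positivity)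
  calc _ ≤ ∑ n ∈ Finset.Icc 1 ⌊X⌋₊,
        (if (n : ℝ) ≤ X ^ (13 / 14 : ℝ) then X ^ (1 / 28 : ℝ) else 0) := Finset.sum_le_sum hterm
    _ = (((Finset.Icc 1 ⌊X⌋₊).filter fun n : ℕ => (n : ℝ) ≤ X ^ (13 / 14 : ℝ)).card : ℝ) *
          X ^ (1 / 28 : ℝ) := by
        rw [← Finset.sum_filter, Finset.sum_const, nsmul_eq_mul]
    _ ≤ X ^ (13 / 14 : ℝ) * X ^ (1 / 28 : ℝ) := mul_le_mul_of_nonneg_right hcard hp28.le
    _ = X ^ (27 / 28 : ℝ) := by
        rw [← Real.rpow_add hX0]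
        congr 1
        norm_num
    _ ≤ ε * (X * (Real.log X) ^ (2 * 1)) := by
        have h10 : X = X ^ (27 / 28 : ℝ) * X ^ (1 / 28 : ℝ) := by
          rw [← Real.rpow_add hX0]
          norm_num
        have h11 : 1 ≤ ε * X ^ (1 / 28 : ℝ) := by
          have h12 := mul_le_mul_of_nonneg_left h2 hε.le
          rwa [mul_inv_cancel₀ hε.ne'] at h12
        have h13 : 1 ≤ (Real.log X) ^ (2 * 1) := one_le_pow₀ h3
        have h14 : 0 ≤ X ^ (27 / 28 : ℝ) := by positivity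
        calc X ^ (27 / 28 : ℝ) ≤ X ^ (27 / 28 : ℝ) * (ε * X ^ (1 / 28 : ℝ)) :=
              le_mul_of_one_le_right h14 h11
          _ = ε * (X ^ (27 / 28 : ℝ) * X ^ (1 / 28 : ℝ)) := by ring
          _ = ε * X := by rw [← h10]
          _ ≤ ε * X * (Real.log X) ^ (2 * 1) := le_mul_of_one_le_right (by positivity) h13
          _ = ε * (X * (Real.log X) ^ (2 * 1)) := by ring

end Pool.Agent.Work.MP_122e00_nt.Strip
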