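import Pool.Agent.Work.MP_122e00_nt.Strip.Stmts

set_option autoImplicit false

namespace Pool.Agent.Work.MP_122e00_nt.Strip

open Finset Filter Topology MeasureTheory

open scoped ArithmeticFunction.vonMangoldt ArithmeticFunction.zeta ENNReal

open Two Gen Pool.Agent.Work.MP_122e00_nt.Core Pool.Agent.Work.MP_122e00_nt.WR

namespace IPb

/-- the partial sums before an index -/
theorem filter_castSucc {k : ℕ} (x : Fin (k + 1) → ℝ) (j : Fin k) :
    ∑ i ∈ Finset.univ.filter (fun i : Fin (k + 1) => i < j.castSucc), x i =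
      ∑ i ∈ Finset.univ.filter (fun i : Fin k => i < j), x i.castSucc := by
  rw [Finset.sum_filter, Finset.sum_filter, Fin.sum_univ_castSucc]
  have h1 : ¬ (Fin.last k < j.castSucc) := by
    rw [not_lt]
    exact (Fin.castSucc_lt_last j).le
  rw [if_neg h1, add_zero]
  refine Finset.sum_congr rfl fun i _ => ?_
  simp [Fin.castSucc_lt_castSucc_iff]

theorem filter_last {k : ℕ} (x : Fin (k + 1) → ℝ) :
    ∑ i ∈ Finset.univ.filter (fun i : Fin (k + 1) => i < Fin.last k), x i =
      ∑ i : Fin k, x i.castSucc := by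
  rw [Finset.sum_filter, Fin.sum_univ_castSucc, if_neg (lt_irrefl _), add_zero]
  refine Finset.sum_congr rfl fun i _ => ?_
  rw [if_pos (Fin.castSucc_lt_last i)]

theorem na_succ {k : ℕ} (c₀ : ℝ) (x : Fin (k + 1) → ℝ)
    (hc : c₀ ≤ ∑ i : Fin k, x i.castSucc) :
    na c₀ x = na c₀ (fun i : Fin k => x i.castSucc) + 1 := by
  unfold na
  rw [Finset.card_filter, Finset.card_filter, Fin.sum_univ_castSucc, filter_last, if_pos hc]
  congr 1
  refine Finset.sum_congr rfl fun j _ => ?_
  rw [filter_castSucc]

theorem na_zero {k : ℕ} (c₀ : ℝ) (x : Fin (k + 1) → ℝ) (hx : ∀ m, 0 ≤ x m)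
    (hc : ∑ i : Fin k, x i.castSucc < c₀) : na c₀ x = 0 := by
  unfold na
  rw [Finset.card_eq_zero, Finset.filter_eq_empty_iff]
  intro j _
  rw [not_le]
  refine lt_of_le_of_lt ?_ hc
  rw [← filter_last]
  refine Finset.sum_le_sum_of_subset_of_nonneg ?_ fun i _ _ => hx i
  intro i hi
  rw [Finset.mem_filter] at hi ⊢
  exact ⟨Finset.mem_univ _, hi.2.trans_le (Fin.le_last j)⟩

end IPb

theorem prPb (h0 : claimB0) (h4 : claimB4) : claimPb := by
  intro s k
  induction k with
  | zero =>
    intro θ c₀ hs hθ hθ1 hc x v hx hv hsum hcx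
    have h1 : na c₀ x = 0 := by
      unfold na
      rw [Finset.card_eq_zero, Finset.filter_eq_empty_iff]
      intro j
      exact Fin.elim0 j
    rw [h1, pow_zero]
    exact h4 s 0 θ hs hθ hθ1 x v hx hv hsum (hc ▸ hcx)
  | succ k ih =>
    intro θ c₀ hs hθ hθ1 hc x v hx hv hsum hcx
    rcases le_or_gt c₀ (∑ i : Fin k, x i.castSucc) with hcc | hcc
    · rw [IPb.na_succ c₀ x hcc, h0 s k _ x v]
      have hterm : ∀ i : Fin (s + 1), ((s : ℝ) + 1) ^ na c₀ (Fin.init x) ≤
          Pl (gs (ps s θ)) (Fin.init x) (ad v i (x (Fin.last k))) := by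
        intro i
        refine ih θ c₀ hs hθ hθ1 hc (Fin.init x) (ad v i (x (Fin.last k))) (fun m => hx _)
          (fun q => ?_) ?_ hcc
        · unfold ad
          split_ifs
          · exact add_nonneg (hv q) (hx _)
          · exact hv q
        · have h1 : ∑ q, ad v i (x (Fin.last k)) q = ∑ q, v q + x (Fin.last k) := by
            have h2 : ∀ q, ad v i (x (Fin.last k)) q =
                v q + if q = i then x (Fin.last k) else 0 := by
              intro q
              unfold ad
              split_ifs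
              · rfl
              · rw [add_zero]
            rw [Finset.sum_congr rfl fun q _ => h2 q, Finset.sum_add_distrib,
              Finset.sum_ite_eq' Finset.univ i, if_pos (Finset.mem_univ i)]
          rw [h1]
          have h3 : ∑ m, x m = ∑ m : Fin k, Fin.init x m + x (Fin.last k) :=
            Fin.sum_univ_castSucc x
          linarith
      calc ((s : ℝ) + 1) ^ (na c₀ (fun i : Fin k => x i.castSucc) + 1)
          = ∑ _i : Fin (s + 1), ((s : ℝ) + 1) ^ na c₀ (Fin.init x) := by
            rw [Finset.sum_const, Finset.card_univ, Fintype.card_fin, nsmul_eq_mul, pow_succ]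
            push_cast
            rw [mul_comm]
            rfl
        _ ≤ _ := Finset.sum_le_sum fun i _ => hterm i
    · rw [IPb.na_zero c₀ x hx hcc, pow_zero]
      exact h4 s (k + 1) θ hs hθ hθ1 x v hx hv hsum (hc ▸ hcx)

end Pool.Agent.Work.MP_122e00_nt.Strip
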