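import Pool.Agent.Work.MP_122e00_nt.Strip.Stmts

set_option autoImplicit false

/-!
# Item Pt: the strip at one `n`
-/

namespace Pool.Agent.Work.MP_122e00_nt.Strip

open Finset Filter Topology MeasureTheory

open scoped ArithmeticFunction.vonMangoldt ArithmeticFunction.zeta ENNReal

open Two Gen Pool.Agent.Work.MP_122e00_nt.Core Pool.Agent.Work.MP_122e00_nt.WR

namespace IPt

theorem ta_nonneg (t : ℝ) : 0 ≤ ta t := le_max_left _ _

theorem ta_one {t : ℝ} (h : |t| ≤ 1) : ta t = 1 := by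
  unfold ta
  rw [min_eq_left (by linarith), max_eq_right zero_le_one]

theorem lw_nonneg {s : ℕ} (F : Finset (Finset (Fin (s + 1)))) (α β δ : ℝ) (m : ℕ)
    (v : Fin (s + 1) → ℝ) : 0 ≤ lw F α β δ m v :=
  Finset.sum_nonneg fun _ _ => ta_nonneg _

theorem fl_ge {s : ℕ} (δ : ℝ) (m : ℕ) (v : Fin (s + 1) → ℝ) (k : Fin (s + 1))
    (h : |3 * v k / δ - m| ≤ 1) : 1 ≤ fl s δ m v := by
  have h1 : ta ((0 + 3 * ∑ q ∈ ({k} : Finset (Fin (s + 1))), v q) / δ - m) ≤ fl s δ m v := by
    unfold fl lw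
    refine Finset.single_le_sum
      (f := fun S : Finset (Fin (s + 1)) => ta ((0 + 3 * ∑ q ∈ S, v q) / δ - m))
      (fun S _ => ta_nonneg _) ?_
    rw [Finset.mem_powersetCard]
    exact ⟨Finset.subset_univ _, Finset.card_singleton k⟩
  rw [Finset.sum_singleton, zero_add, ta_one h] at h1
  exact h1

theorem gl_ge {s : ℕ} (δ : ℝ) (m : ℕ) (v : Fin (s + 1) → ℝ) (i j : Fin (s + 1)) (hij : i ≠ j)
    (h : |(3 + -2 * (v i + v j)) / δ - m| ≤ 1) : 1 ≤ gl s δ m v := by
  have h1 : ta ((3 + -2 * ∑ q ∈ ({i, j} : Finset (Fin (s + 1))), v q) / δ - m) ≤ gl s δ m v := by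
    unfold gl lw
    refine Finset.single_le_sum
      (f := fun S : Finset (Fin (s + 1)) => ta ((3 + -2 * ∑ q ∈ S, v q) / δ - m))
      (fun S _ => ta_nonneg _) ?_
    rw [Finset.mem_powersetCard]
    exact ⟨Finset.subset_univ _, Finset.card_pair hij⟩
  rw [Finset.sum_pair hij, ta_one h] at h1
  exact h1

/-- One strip: `3 < 2 (u_i + u_j) + 3 t_k ≤ 3 + δ`. -/
theorem strip {s : ℕ} (δ : ℝ) (hδ : 0 < δ) (t u : Fin (s + 1) → ℝ) (i j k : Fin (s + 1))
    (hij : i ≠ j) (hk : 0 ≤ t k) (hk1 : t k ≤ 1) (h1 : 3 < 2 * (u i + u j) + 3 * t k)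
    (h2 : 2 * (u i + u j) + 3 * t k ≤ 3 + δ) :
    ∃ m ∈ Finset.range (⌊3 / δ⌋₊ + 1), 1 ≤ fl s δ m t ∧ 1 ≤ gl s δ m u := by
  have ha : 0 ≤ 3 * t k / δ := by positivity
  have hfl := Nat.floor_le ha
  have hfl2 := Nat.lt_floor_add_one (3 * t k / δ)
  refine ⟨⌊3 * t k / δ⌋₊, ?_, fl_ge δ _ t k ?_, gl_ge δ _ u i j hij ?_⟩
  · rw [Finset.mem_range, Nat.lt_succ_iff]
    refine Nat.floor_le_floor ?_
    gcongr
    linarith
  · rw [abs_le]
    constructor <;> linarith
  · have hb1 : (3 + -2 * (u i + u j)) / δ ≤ 3 * t k / δ := by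
      gcongr
      linarith
    have hb2 : 3 * t k / δ - 1 ≤ (3 + -2 * (u i + u j)) / δ := by
      rw [sub_le_iff_le_add, div_le_iff₀ hδ, add_mul, div_mul_cancel₀ _ hδ.ne']
      linarith
    rw [abs_le]
    constructor <;> linarith

/-- Logarithms of the mixed condition. -/
theorem logs (X : ℝ) (hX : 1 < X) (a b c : ℕ) (ha : a ≠ 0) (hb : b ≠ 0) (hc : c ≠ 0) (e : ℝ) :
    (((a : ℝ) * b) ^ 2 * (c : ℝ) ^ 3 ≤ X ^ e ↔
      2 * (Real.log a / Real.log X + Real.log b / Real.log X) + 3 * (Real.log c / Real.log X) ≤ e) := by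
  have hL : 0 < Real.log X := Real.log_pos hX
  have hX0 : 0 < X := by linarith
  have ha' : (0 : ℝ) < a := by positivity
  have hb' : (0 : ℝ) < b := by positivity
  have hc' : (0 : ℝ) < c := by positivity
  have hlog : Real.log (((a : ℝ) * b) ^ 2 * (c : ℝ) ^ 3) =
      2 * (Real.log a + Real.log b) + 3 * Real.log c := by
    rw [Real.log_mul (by positivity) (by positivity), Real.log_pow, Real.log_pow,
      Real.log_mul ha'.ne' hb'.ne']
    push_cast
    ring
  rw [← Real.log_le_log_iff (by positivity) (Real.rpow_pos_of_pos hX0 e), hlog,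
    Real.log_rpow hX0, ← add_div, mul_div_assoc', mul_div_assoc', ← add_div, div_le_iff₀ hL]

open Classical in
/-- The three inequalities for one pair. -/
theorem pt (s : ℕ) (δ X : ℝ) (hX : 1 < X) (hδ : 0 < δ) (v w : Fin (s + 1) → ℕ)
    (hv : ∀ i, v i ≠ 0) (hw : ∀ i, w i ≠ 0) :
    0 ≤ (if IsCore s δ X v w then (1 : ℝ) else 0) - (if IsCore s 0 X v w then (1 : ℝ) else 0) ∧
    (if IsCore s δ X v w then (1 : ℝ) else 0) - (if IsCore s 0 X v w then (1 : ℝ) else 0) ≤
      (if ∀ i, ((v i : ℕ) : ℝ) ^ 2 < X then (1 : ℝ) else 0) *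
        (if ∀ i, ((w i : ℕ) : ℝ) ^ 2 < X then (1 : ℝ) else 0) ∧
    (if IsCore s δ X v w then (1 : ℝ) else 0) - (if IsCore s 0 X v w then (1 : ℝ) else 0) ≤
      ∑ m ∈ Finset.range (⌊3 / δ⌋₊ + 1),
        (fl s δ m (fun i => Real.log (v i) / Real.log X) *
          gl s δ m (fun i => Real.log (w i) / Real.log X) +
        gl s δ m (fun i => Real.log (v i) / Real.log X) *
          fl s δ m (fun i => Real.log (w i) / Real.log X)) := by
  have hX0 : 0 < X := by linarith
  have hL : 0 < Real.log X := Real.log_pos hX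
  have hmono : IsCore s 0 X v w → IsCore s δ X v w := by
    rintro ⟨h1, h2, h3⟩
    refine ⟨h1, h2, fun i j k hij => ?_⟩
    have hle : X ^ ((3 : ℝ) + 0) ≤ X ^ ((3 : ℝ) + δ) :=
      Real.rpow_le_rpow_of_exponent_le hX.le (by linarith)
    exact ⟨(h3 i j k hij).1.trans hle, (h3 i j k hij).2.trans hle⟩
  have hterm : ∀ m : ℕ, 0 ≤ fl s δ m (fun i => Real.log (v i) / Real.log X) *
          gl s δ m (fun i => Real.log (w i) / Real.log X) +
        gl s δ m (fun i => Real.log (v i) / Real.log X) *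
          fl s δ m (fun i => Real.log (w i) / Real.log X) := fun m =>
    add_nonneg (mul_nonneg (lw_nonneg _ _ _ _ _ _) (lw_nonneg _ _ _ _ _ _))
      (mul_nonneg (lw_nonneg _ _ _ _ _ _) (lw_nonneg _ _ _ _ _ _))
  have hsum0 := Finset.sum_nonneg (s := Finset.range (⌊3 / δ⌋₊ + 1)) fun m _ => hterm m
  by_cases hd : IsCore s δ X v w
  · have hc := hd
    obtain ⟨hv2, hw2, hm⟩ := hc
    rw [if_pos hd, if_pos hv2, if_pos hw2]
    by_cases h0 : IsCore s 0 X v w
    · rw [if_pos h0, sub_self]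
      exact ⟨le_refl _, by norm_num, hsum0⟩
    · rw [if_neg h0, sub_zero]
      refine ⟨zero_le_one, by norm_num, ?_⟩
      -- logarithmic sizes are between 0 and 1
      have hsz : ∀ x : ℕ, x ≠ 0 → (x : ℝ) ^ 2 < X →
          0 ≤ Real.log x / Real.log X ∧ Real.log x / Real.log X ≤ 1 := by
        intro x hx hx2
        have hx1 : (1 : ℝ) ≤ x := by exact_mod_cast Nat.one_le_iff_ne_zero.2 hx
        refine ⟨div_nonneg (Real.log_nonneg hx1) hL.le, ?_⟩
        rw [div_le_one hL]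
        exact Real.log_le_log (by linarith) (by nlinarith)
      have hex : ∃ i j k, i ≠ j ∧
          (X ^ ((3 : ℝ) + 0) < ((w i : ℝ) * w j) ^ 2 * (v k : ℝ) ^ 3 ∨
            X ^ ((3 : ℝ) + 0) < ((v i : ℝ) * v j) ^ 2 * (w k : ℝ) ^ 3) := by
        by_contra hcon
        push Not at hcon
        exact h0 ⟨hv2, hw2, fun i j k hij => hcon i j k hij⟩
      obtain ⟨i, j, k, hij, hor⟩ := hex
      obtain ⟨m1, m2⟩ := hm i j k hij
      rcases hor with hlt | hlt
      · rw [← not_le, logs X hX _ _ _ (hw i) (hw j) (hv k), not_le] at hlt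
        rw [logs X hX _ _ _ (hw i) (hw j) (hv k)] at m1
        obtain ⟨m, hmr, hf, hg⟩ := strip δ hδ (fun i => Real.log (v i) / Real.log X)
          (fun i => Real.log (w i) / Real.log X) i j k hij (hsz _ (hv k) (hv2 k)).1
          (hsz _ (hv k) (hv2 k)).2 (by rw [add_zero] at hlt; exact hlt) m1
        refine le_trans ?_ (Finset.single_le_sum (fun m _ => hterm m) hmr)
        have h3 := one_le_mul_of_one_le_of_one_le hf hg
        have h4 : 0 ≤ gl s δ m (fun i => Real.log (v i) / Real.log X) *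
          fl s δ m (fun i => Real.log (w i) / Real.log X) :=
          mul_nonneg (lw_nonneg _ _ _ _ _ _) (lw_nonneg _ _ _ _ _ _)
        linarith
      · rw [← not_le, logs X hX _ _ _ (hv i) (hv j) (hw k), not_le] at hlt
        rw [logs X hX _ _ _ (hv i) (hv j) (hw k)] at m2
        obtain ⟨m, hmr, hf, hg⟩ := strip δ hδ (fun i => Real.log (w i) / Real.log X)
          (fun i => Real.log (v i) / Real.log X) i j k hij (hsz _ (hw k) (hw2 k)).1
          (hsz _ (hw k) (hw2 k)).2 (by rw [add_zero] at hlt; exact hlt) m2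
        refine le_trans ?_ (Finset.single_le_sum (fun m _ => hterm m) hmr)
        have h3 := one_le_mul_of_one_le_of_one_le hg hf
        have h4 : 0 ≤ fl s δ m (fun i => Real.log (v i) / Real.log X) *
          gl s δ m (fun i => Real.log (w i) / Real.log X) :=
          mul_nonneg (lw_nonneg _ _ _ _ _ _) (lw_nonneg _ _ _ _ _ _)
        linarith
  · rw [if_neg hd, if_neg (fun h => hd (hmono h)), sub_self]
    refine ⟨le_refl _, ?_, hsum0⟩
    refine mul_nonneg ?_ ?_ <;> split_ifs <;> norm_num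

end IPt

theorem prPt : claimPt := by
  classical
  intro s h n δ X hn hX hδ
  have hnz : ∀ (N : ℕ), N ≠ 0 → ∀ v ∈ Nat.finMulAntidiag (s + 1) N, ∀ i, v i ≠ 0 := by
    intro N hN v hv i h0
    apply hN
    rw [← Nat.prod_eq_of_mem_finMulAntidiag hv]
    exact Finset.prod_eq_zero (Finset.mem_univ i) h0
  have enc : ∀ e : ℝ, nc s h e X n =
      ∑ p ∈ Nat.finMulAntidiag (s + 1) n ×ˢ Nat.finMulAntidiag (s + 1) (n + h),
        if IsCore s e X p.1 p.2 then (1 : ℝ) else 0 := by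
    intro e
    unfold nc
    rw [Finset.card_filter]
    push_cast
    refine Finset.sum_congr rfl fun p _ => ?_
    split_ifs <;> rfl
  have em : ∀ N : ℕ, mc s X N = ∑ v ∈ Nat.finMulAntidiag (s + 1) N,
      if ∀ i, ((v i : ℕ) : ℝ) ^ 2 < X then (1 : ℝ) else 0 := by
    intro N
    unfold mc
    rw [Finset.card_filter]
    push_cast
    refine Finset.sum_congr rfl fun v _ => ?_
    split_ifs <;> rfl
  have eT : ∀ (g : (Fin (s + 1) → ℝ) → ℝ) (N : ℕ), Tg s g (Real.log X) N =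
      ∑ v ∈ Nat.finMulAntidiag (s + 1) N, g (fun i => Real.log (v i) / Real.log X) :=
    fun g N => rfl
  have ed : nc s h δ X n - nc s h 0 X n =
      ∑ p ∈ Nat.finMulAntidiag (s + 1) n ×ˢ Nat.finMulAntidiag (s + 1) (n + h),
        ((if IsCore s δ X p.1 p.2 then (1 : ℝ) else 0) -
          (if IsCore s 0 X p.1 p.2 then (1 : ℝ) else 0)) := by
    rw [enc, enc, Finset.sum_sub_distrib]
  have hpt : ∀ p ∈ Nat.finMulAntidiag (s + 1) n ×ˢ Nat.finMulAntidiag (s + 1) (n + h), _ :=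
    fun p hp => IPt.pt s δ X hX hδ p.1 p.2 (hnz n hn p.1 (Finset.mem_product.1 hp).1)
      (hnz (n + h) (by omega) p.2 (Finset.mem_product.1 hp).2)
  refine ⟨?_, ?_, ?_⟩
  · rw [ed]
    exact Finset.sum_nonneg fun p hp => (hpt p hp).1
  · rw [ed, em, em, Finset.sum_mul_sum, ← Finset.sum_product']
    exact Finset.sum_le_sum fun p hp => (hpt p hp).2.1
  · have eBL : BL s h δ X n =
        ∑ p ∈ Nat.finMulAntidiag (s + 1) n ×ˢ Nat.finMulAntidiag (s + 1) (n + h),
          ∑ m ∈ Finset.range (⌊3 / δ⌋₊ + 1),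
            (fl s δ m (fun i => Real.log (p.1 i) / Real.log X) *
              gl s δ m (fun i => Real.log (p.2 i) / Real.log X) +
            gl s δ m (fun i => Real.log (p.1 i) / Real.log X) *
              fl s δ m (fun i => Real.log (p.2 i) / Real.log X)) := by
      unfold BL
      rw [Finset.sum_comm]
      refine Finset.sum_congr rfl fun m _ => ?_
      rw [eT, eT, eT, eT, Finset.sum_mul_sum, Finset.sum_mul_sum, ← Finset.sum_product',
        ← Finset.sum_product', ← Finset.sum_add_distrib]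
    rw [ed, eBL]
    exact Finset.sum_le_sum fun p hp => (hpt p hp).2.2

end Pool.Agent.Work.MP_122e00_nt.Strip
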