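import Pool.Agent.Work.MP_122e00_nt.Strip.Stmts

set_option autoImplicit false

/-!
# The joint strip, item Sq: the sum of the squares
-/

namespace Pool.Agent.Work.MP_122e00_nt.Strip

open Finset Filter Topology MeasureTheory

open scoped ArithmeticFunction.vonMangoldt ArithmeticFunction.zeta ENNReal

open Two Gen Pool.Agent.Work.MP_122e00_nt.Core Pool.Agent.Work.MP_122e00_nt.WR

namespace ISq

/-- The argument of the cut off function. -/
noncomputable def aa {s k : ℕ} (α β δ : ℝ) (x : Fin k → ℝ) (v : Fin (s + 1) → ℝ)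
    (p : (Fin k → Fin (s + 1)) × Finset (Fin (s + 1))) : ℝ :=
  (α + β * ell p.2 p.1 x v) / δ

lemma Pl_eq {s k : ℕ} (𝒮 : Finset (Finset (Fin (s + 1)))) (α β δ : ℝ) (m : ℕ)
    (x : Fin k → ℝ) (v : Fin (s + 1) → ℝ) :
    Pl (lw 𝒮 α β δ m) x v =
      ∑ p ∈ (Finset.univ : Finset (Fin k → Fin (s + 1))) ×ˢ 𝒮, ta (aa α β δ x v p - m) := by
  rw [Finset.sum_product]
  rfl

lemma near {α β δ ρ : ℝ} (hδ : 0 < δ) (hβ : β ≠ 0) (h : 4 * δ ≤ ρ * |β|) {a b : ℝ}
    (hab : |(α + β * a) / δ - (α + β * b) / δ| < 4) : |a - b| < ρ := by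
  have h1 : (α + β * a) / δ - (α + β * b) / δ = β * (a - b) / δ := by ring
  rw [h1, abs_div, abs_mul, abs_of_pos hδ, div_lt_iff₀ hδ] at hab
  have h2 : |β| * |a - b| < |β| * ρ := by
    calc |β| * |a - b| < 4 * δ := hab
      _ ≤ ρ * |β| := h
      _ = |β| * ρ := mul_comm _ _
  exact lt_of_mul_lt_mul_left h2 (abs_nonneg β)

end ISq

open ISq in
/-- Sq. -/
theorem prSq (hTa : claimTa) : claimSq := by
  classical
  intro s k 𝒮 α β δ ρ hδ hβ h x v M
  set P : Finset ((Fin k → Fin (s + 1)) × Finset (Fin (s + 1))) :=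
    (Finset.univ : Finset (Fin k → Fin (s + 1))) ×ˢ 𝒮 with hP
  have h1 : ∀ m : ℕ, (Pl (lw 𝒮 α β δ m) x v) ^ 2 =
      ∑ p ∈ P ×ˢ P, ta (aa α β δ x v p.1 - m) * ta (aa α β δ x v p.2 - m) := by
    intro m
    rw [Pl_eq, sq, Finset.sum_mul_sum]
    exact (Finset.sum_product (β := ℝ) P P
      (fun p => ta (aa α β δ x v p.1 - m) * ta (aa α β δ x v p.2 - m))).symm
  rw [Finset.sum_congr rfl fun m _ => h1 m, Finset.sum_comm]
  have h2 : ∀ p ∈ P ×ˢ P, ∑ m ∈ Finset.range M,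
      ta (aa α β δ x v p.1 - m) * ta (aa α β δ x v p.2 - m) ≤
        if |ell p.1.2 p.1.1 x v - ell p.2.2 p.2.1 x v| < ρ then 4 else 0 := by
    intro p _
    refine (hTa (aa α β δ x v p.1) (aa α β δ x v p.2) M).trans ?_
    by_cases h3 : |aa α β δ x v p.1 - aa α β δ x v p.2| < 4
    · rw [if_pos h3, if_pos (near hδ hβ h h3)]
    · rw [if_neg h3]
      split_ifs
      · norm_num
      · exact le_rfl
  refine (Finset.sum_le_sum h2).trans (le_of_eq ?_)
  unfold cn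
  rw [← Finset.sum_filter, Finset.sum_const, nsmul_eq_mul, mul_comm]

end Pool.Agent.Work.MP_122e00_nt.Strip
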