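import Pool.Agent.Work.MP_122e00_nt.Strip.Stmts

set_option autoImplicit false

/-!
# Su: the sum over `n`
-/

namespace Pool.Agent.Work.MP_122e00_nt.Strip

open Finset Filter Topology MeasureTheory

open scoped ArithmeticFunction.vonMangoldt ArithmeticFunction.zeta ENNReal

open Two Gen Pool.Agent.Work.MP_122e00_nt.Core Pool.Agent.Work.MP_122e00_nt.WR

theorem prSu (hPt : claimPt) (hC8 : claimC8) : claimSu := by
  intro s h δ ε hs hh hδ hε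
  filter_upwards [hC8 s h ε hs hh hε, eventually_gt_atTop (1 : ℝ)] with X hX hX1
  obtain ⟨_, _, h3⟩ := hX
  obtain ⟨I, hI⟩ : ∃ I : Finset ℕ, I = Finset.Icc 1 ⌊X⌋₊ := ⟨_, rfl⟩
  obtain ⟨J, hJ⟩ : ∃ J : Finset ℕ, J = Finset.Ioc ⌊X / Real.log X⌋₊ (⌊X⌋₊ - h) := ⟨_, rfl⟩
  have hJI : J ⊆ I := by
    intro n hn
    rw [hJ, Finset.mem_Ioc] at hn
    rw [hI, Finset.mem_Icc]
    omega
  have hne : ∀ n ∈ I, n ≠ 0 := by
    intro n hn
    rw [hI, Finset.mem_Icc] at hn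
    omega
  have e0 : coreS s h δ X - coreS s h 0 X = ∑ n ∈ I, (nc s h δ X n - nc s h 0 X n) := by
    rw [Finset.sum_sub_distrib, hI]
    rfl
  have e1 : ∑ n ∈ I, (nc s h δ X n - nc s h 0 X n) =
      ∑ n ∈ I \ J, (nc s h δ X n - nc s h 0 X n) + ∑ n ∈ J, (nc s h δ X n - nc s h 0 X n) :=
    (Finset.sum_sdiff hJI).symm
  have e2 : ∑ n ∈ I, mc s X n * mc s X (n + h) =
      ∑ n ∈ I \ J, mc s X n * mc s X (n + h) + ∑ n ∈ J, mc s X n * mc s X (n + h) :=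
    (Finset.sum_sdiff hJI).symm
  have e3 : ∑ n ∈ J, (nc s h δ X n - nc s h 0 X n) ≤ ∑ n ∈ J, BL s h δ X n :=
    Finset.sum_le_sum fun n hn => (hPt s h n δ X (hne n (hJI hn)) hX1 hδ).2.2
  have e4 : ∑ n ∈ I \ J, (nc s h δ X n - nc s h 0 X n) ≤
      ∑ n ∈ I \ J, mc s X n * mc s X (n + h) :=
    Finset.sum_le_sum fun n hn =>
      (hPt s h n δ X (hne n (Finset.sdiff_subset hn)) hX1 hδ).2.1
  rw [← hI, ← hJ] at h3
  rw [e0, ← hJ]
  linarith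

end Pool.Agent.Work.MP_122e00_nt.Strip
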