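import Pool.Agent.Work.MP_122e00_nt.Strip.Stmts

set_option autoImplicit false

/-!
# The joint strip, item Ta: the cut off functions of the layers
-/

namespace Pool.Agent.Work.MP_122e00_nt.Strip

open Finset Filter Topology MeasureTheory

open scoped ArithmeticFunction.vonMangoldt ArithmeticFunction.zeta ENNReal

open Two Gen Pool.Agent.Work.MP_122e00_nt.Core Pool.Agent.Work.MP_122e00_nt.WR

namespace ITa

lemma nn (t : ℝ) : 0 ≤ ta t := le_max_left _ _

lemma le_one (t : ℝ) : ta t ≤ 1 := max_le zero_le_one (min_le_left _ _)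

lemma zero {t : ℝ} (ht : 2 ≤ |t|) : ta t = 0 := by
  unfold ta
  apply max_eq_left
  exact (min_le_right _ _).trans (by linarith)

lemma card_le (a : ℝ) (M : ℕ) :
    ((Finset.range M).filter (fun m : ℕ => |a - m| < 2)).card ≤ 4 := by
  rcases ((Finset.range M).filter (fun m : ℕ => |a - m| < 2)).eq_empty_or_nonempty with h | h
  · rw [h]
    simp
  · set F := (Finset.range M).filter (fun m : ℕ => |a - m| < 2) with hF
    have h0 := Finset.mem_filter.1 (F.min'_mem h)
    have hsub : F ⊆ Finset.Ico (F.min' h) (F.min' h + 4) := by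
      intro m hm
      have h1 := F.min'_le m hm
      have h2 := (Finset.mem_filter.1 hm).2
      rw [Finset.mem_Ico]
      refine ⟨h1, ?_⟩
      have h3 := (abs_lt.1 h2).1
      have h4 := (abs_lt.1 h0.2).2
      have h5 : (m : ℝ) < (F.min' h : ℝ) + 4 := by linarith
      exact_mod_cast h5
    have := Finset.card_le_card hsub
    rw [Nat.card_Ico] at this
    omega

end ITa

theorem prTa : claimTa := by
  intro a b M
  by_cases hab : |a - b| < 4
  · rw [if_pos hab]
    have h1 : ∀ m ∈ Finset.range M, ta (a - m) * ta (b - m) ≤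
        if |a - m| < 2 then (1 : ℝ) else 0 := by
      intro m _
      split_ifs with h
      · exact mul_le_one₀ (ITa.le_one _) (ITa.nn _) (ITa.le_one _)
      · rw [ITa.zero (not_lt.1 h), zero_mul]
    refine (Finset.sum_le_sum h1).trans ?_
    rw [Finset.sum_ite, Finset.sum_const, Finset.sum_const_zero, add_zero, nsmul_eq_mul, mul_one]
    exact_mod_cast ITa.card_le a M
  · rw [if_neg hab]
    apply le_of_eq
    apply Finset.sum_eq_zero
    intro m _
    by_cases h1 : |a - m| < 2
    · by_cases h2 : |b - m| < 2
      · exfalso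
        apply hab
        have h3 : a - b = (a - m) - (b - m) := by ring
        rw [h3]
        have := abs_sub (a - (m : ℝ)) (b - m)
        linarith
      · rw [ITa.zero (not_lt.1 h2), mul_zero]
    · rw [ITa.zero (not_lt.1 h1), zero_mul]

end Pool.Agent.Work.MP_122e00_nt.Strip
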