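import Pool.Agent.Work.MP_122e00_nt.Strip.Stmts
import Pool.Agent.Work.MP_122e00_nt.Core.I_C6

set_option autoImplicit false

/-!
# Item Tw: the bilinear sum over the layers
-/

namespace Pool.Agent.Work.MP_122e00_nt.Strip

open Finset Filter Topology MeasureTheory

open scoped ArithmeticFunction.vonMangoldt ArithmeticFunction.zeta ENNReal

open Two Gen Pool.Agent.Work.MP_122e00_nt.Core Pool.Agent.Work.MP_122e00_nt.WR

namespace ITw

/-- a common positive lower bound of finitely many positive numbers -/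
theorem exists_lb (M : ℕ) (f : ℕ → ℝ) (hf : ∀ m, m < M → 0 < f m) :
    ∃ c : ℝ, 0 < c ∧ ∀ m, m < M → c ≤ f m := by
  induction M with
  | zero => exact ⟨1, one_pos, fun m hm => absurd hm (Nat.not_lt_zero m)⟩
  | succ M ih =>
    obtain ⟨c, hc, h⟩ := ih fun m hm => hf m (by omega)
    refine ⟨min c (f M), lt_min hc (hf M (by omega)), ?_⟩
    intro m hm
    rcases Nat.lt_succ_iff_lt_or_eq.1 hm with h1 | h1
    · exact (min_le_left _ _).trans (h m h1)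
    · rw [h1]; exact min_le_right _ _

/-- one family of weights: a bound for each layer with a small sum -/
theorem layer (hFa : claimFa) (hIm : claimIm) (hBn : claimBn) (s : ℕ) (c₀ c ε : ℝ)
    (𝒮 : Finset (Finset (Fin (s + 1)))) (α β : ℝ) (hs : 1 ≤ s) (h0 : 0 < c₀) (h1 : c₀ < c)
    (h2 : c < 1) (hF : Fam s 𝒮) (hβ : β ≠ 0) (hε : 0 < ε) :
    ∃ δ₁ : ℝ, 0 < δ₁ ∧ ∀ δ : ℝ, 0 < δ → δ ≤ δ₁ → ∀ M : ℕ, ∃ I : ℕ → ℝ, (∀ m, 0 ≤ I m) ∧
      (∀ m, m < M → ∀ K, ∑ k ∈ Finset.range (K + 1),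
        ∫ y in Sim k s, ext (FS s c₀ c (lw 𝒮 α β δ m) k) (y, 1 - ∑ i, y i) * den y ≤ I m) ∧
      ∑ m ∈ Finset.range M, I m ≤ 4 * (𝒮.card : ℝ) * (JJ s c₀ * (1 - c)) + ε := by
  obtain ⟨δ₁, hδ₁, H⟩ := hFa s c₀ c ε 𝒮 α β hs h0 h1 h2 hF hβ hε
  refine ⟨δ₁, hδ₁, fun δ hδ hδle M => ?_⟩
  obtain ⟨I, hI0, hI1, hI2⟩ := hIm M
    (fun m k => ∫ y in Sim k s, ext (FS s c₀ c (lw 𝒮 α β δ m) k) (y, 1 - ∑ i, y i) * den y)
    (4 * (𝒮.card : ℝ) * (JJ s c₀ * (1 - c)) + ε)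
    (fun m k => (hBn s c₀ c 𝒮 α β δ hs hβ hδ k).1 m) (fun K => H δ hδ hδle M K)
  exact ⟨I, hI0, hI1, hI2⟩

/-- the mean values of all the layers of one family -/
theorem means (hMe : claimMe) (hFp : claimFp) (s h : ℕ) (θ c₀ c δ : ℝ) (ψ : (Fin s → ℝ) → ℝ)
    (𝒮 : Finset (Finset (Fin (s + 1)))) (α β : ℝ) (hs : 1 ≤ s) (hh : h ≠ 0) (hθ : 0 < θ)
    (hθ' : θ < 1 / 2) (hW : Wt s θ ψ) (hc : 0 < c) (hc' : c < 1) (M : ℕ) (I : ℕ → ℝ)
    (hI : ∀ m, m < M → ∀ K, ∑ k ∈ Finset.range (K + 1),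
        ∫ y in Sim k s, ext (FS s c₀ c (lw 𝒮 α β δ m) k) (y, 1 - ∑ i, y i) * den y ≤ I m) :
    ∃ ca : ℝ, 0 < ca ∧ ∀ m, m < M → ∀ c₁ : ℝ, 0 < c₁ → c₁ ≤ ca →
      Mean s h ψ (HS s c₀ c c₁ (lw 𝒮 α β δ m)) (I m) := by
  have h1 : ∀ m, m < M → ∃ c' : ℝ, 0 < c' ∧ ∀ c₁ : ℝ, 0 < c₁ → c₁ ≤ c' →
      Mean s h ψ (HS s c₀ c c₁ (lw 𝒮 α β δ m)) (I m) := by
    intro m hm
    exact hMe s h θ c₀ c (2 ^ (s + 1)) (I m) ψ (lw 𝒮 α β δ m) hs hh hθ hθ' hW hc hc'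
      (one_le_pow₀ (by norm_num)) (hFp.2 s 𝒮 α β δ m).1 (hFp.2 s 𝒮 α β δ m).2.1 (hI m hm)
  choose! f hf hf' using h1
  obtain ⟨ca, hca, hle⟩ := exists_lb M f hf
  exact ⟨ca, hca, fun m hm c₁ h0 h1 => hf' m hm c₁ h0 (h1.trans (hle m hm))⟩

theorem JJ_pos (s : ℕ) (c₀ : ℝ) (hs : 1 ≤ s) (h : c₀ < 1) : 0 < JJ s c₀ := by
  unfold JJ
  have h1 : 0 < 1 - c₀ := by linarith
  have h2 : (0 : ℝ) < (s : ℝ) := by exact_mod_cast hs
  positivity

end ITw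

open ITw in
theorem prTw (h3 : claimB3) (h10 : claimB10) (hDo : claimDo) (hMe : claimMe) (hFa : claimFa)
    (hIm : claimIm) (hBn : claimBn) (hFp : claimFp) (c5 : claimC5) : claimTw := by
  intro s h ε hs2 hh hε
  have hs : 1 ≤ s := by omega
  have hs' : (1 : ℝ) ≤ (s : ℝ) := by exact_mod_cast hs
  obtain ⟨c₀, hc₀⟩ : ∃ c₀ : ℝ, c₀ = ((s : ℝ) - 1) / (2 * s) + 2 * (1 / 10) := ⟨_, rfl⟩
  have hq0 : 0 ≤ ((s : ℝ) - 1) / (2 * s) := by
    apply div_nonneg <;> linarith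
  have hq1 : ((s : ℝ) - 1) / (2 * s) ≤ 1 / 2 := by
    rw [div_le_iff₀ (by linarith)]
    linarith
  have hc00 : 0 < c₀ := by rw [hc₀]; linarith
  have hc01 : c₀ < 1 := by rw [hc₀]; linarith
  obtain ⟨hW, hint⟩ := h10 s (1 / 10) hs (by norm_num) (by norm_num)
  have hint0 : 0 ≤ ∫ y in O1 s, ps s (1 / 10) y := by
    rw [hint]
    positivity
  have hB : (1 : ℝ) ≤ 2 ^ (s + 1) := one_le_pow₀ (by norm_num)
  obtain ⟨A, hA⟩ : ∃ A : ℝ, A = ((s : ℝ) + 1) * (Csing s h * ∫ y in O1 s, ps s (1 / 10) y) :=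
    ⟨_, rfl⟩
  have hA0 : 0 ≤ A := by
    rw [hA]
    have := (Csing_pos hs h hh).le
    positivity
  have hJ : 0 < JJ s c₀ := JJ_pos s c₀ hs hc01
  -- the choice of `c`
  obtain ⟨Q, hQ⟩ : ∃ Q : ℝ, Q = A * (8 * 2 ^ (s + 1)) * JJ s c₀ := ⟨_, rfl⟩
  have hQ0 : 0 ≤ Q := by rw [hQ]; positivity
  obtain ⟨e1, he1⟩ : ∃ e1 : ℝ, e1 = min ((1 - c₀) / 2) (ε / (4 * (Q + 1))) := ⟨_, rfl⟩
  have he10 : 0 < e1 := by
    rw [he1]
    apply lt_min
    · linarith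
    · positivity
  have he11 : e1 ≤ (1 - c₀) / 2 := by rw [he1]; exact min_le_left _ _
  have he12 : Q * e1 ≤ ε / 4 := by
    have h1 : e1 ≤ ε / (4 * (Q + 1)) := by rw [he1]; exact min_le_right _ _
    have h2 : ε / (4 * (Q + 1)) * (4 * (Q + 1)) = ε := by field_simp
    have h3 : e1 * (4 * (Q + 1)) ≤ ε := by
      calc e1 * (4 * (Q + 1)) ≤ ε / (4 * (Q + 1)) * (4 * (Q + 1)) :=
            mul_le_mul_of_nonneg_right h1 (by positivity)
        _ = ε := h2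
    nlinarith
  obtain ⟨c, hc⟩ : ∃ c : ℝ, c = 1 - e1 := ⟨_, rfl⟩
  have hcc : c₀ < c := by rw [hc]; linarith
  have hc0 : 0 < c := by linarith
  have hc1 : c < 1 := by rw [hc]; linarith
  have h1c : 1 - c = e1 := by rw [hc]; ring
  obtain ⟨e', he'⟩ : ∃ e' : ℝ, e' = ε / (8 * (A + 1)) := ⟨_, rfl⟩
  have he'0 : 0 < e' := by rw [he']; positivity
  have he'1 : A * (2 * e') ≤ ε / 4 := by
    have h1 : e' * (8 * (A + 1)) = ε := by rw [he']; field_simp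
    nlinarith
  obtain ⟨hFam1, hFam2⟩ := hFp.1 s hs2
  obtain ⟨δa, hδa, Ha⟩ := layer hFa hIm hBn s c₀ c e' (Finset.powersetCard 1 Finset.univ) 0 3 hs
    hc00 hcc hc1 hFam1 (by norm_num) he'0
  obtain ⟨δb, hδb, Hb⟩ := layer hFa hIm hBn s c₀ c e' (Finset.powersetCard 2 Finset.univ) 3 (-2)
    hs hc00 hcc hc1 hFam2 (by norm_num) he'0
  refine ⟨min δa δb, lt_min hδa hδb, ?_⟩
  obtain ⟨δ, hδ⟩ : ∃ δ : ℝ, δ = min δa δb := ⟨_, rfl⟩
  rw [← hδ]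
  have hδ0 : 0 < δ := by rw [hδ]; exact lt_min hδa hδb
  obtain ⟨M, hM⟩ : ∃ M : ℕ, M = ⌊3 / δ⌋₊ + 1 := ⟨_, rfl⟩
  have hM0 : 0 < M := by omega
  have hM' : (0 : ℝ) < (M : ℝ) := by exact_mod_cast hM0
  obtain ⟨I, hI0, hI1, hI2⟩ := Ha δ hδ0 (by rw [hδ]; exact min_le_left _ _) M
  obtain ⟨I', hI'0, hI'1, hI'2⟩ := Hb δ hδ0 (by rw [hδ]; exact min_le_right _ _) M
  obtain ⟨ca, hca, hMa⟩ := means hMe hFp s h (1 / 10) c₀ c δ (ps s (1 / 10))
    (Finset.powersetCard 1 Finset.univ) 0 3 hs hh (by norm_num) (by norm_num) hW hc0 hc1 M I hI1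
  obtain ⟨cb, hcb, hMb⟩ := means hMe hFp s h (1 / 10) c₀ c δ (ps s (1 / 10))
    (Finset.powersetCard 2 Finset.univ) 3 (-2) hs hh (by norm_num) (by norm_num) hW hc0 hc1 M I'
    hI'1
  have hcm : 0 < min ca cb := lt_min hca hcb
  have bf : ∀ m v, 0 ≤ fl s δ m v ∧ fl s δ m v ≤ 2 ^ (s + 1) := fun m =>
    (hFp.2 s (Finset.powersetCard 1 Finset.univ) 0 3 δ m).1
  have bg : ∀ m v, 0 ≤ gl s δ m v ∧ gl s δ m v ≤ 2 ^ (s + 1) := fun m =>
    (hFp.2 s (Finset.powersetCard 2 Finset.univ) 3 (-2) δ m).1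
  have key : ∀ m ∈ Finset.range M, ∀ᶠ X : ℝ in atTop,
      ∑ n ∈ Finset.Ioc ⌊X / Real.log X⌋₊ (⌊X⌋₊ - h),
        (|Tg s (fl s δ m) (Real.log X) n| * |Tg s (gl s δ m) (Real.log X) (n + h)| +
          |Tg s (gl s δ m) (Real.log X) n| * |Tg s (fl s δ m) (Real.log X) (n + h)|) ≤
      (((s : ℝ) + 1) * (Csing s h * ∫ y in O1 s, ps s (1 / 10) y) * (I m / 1 + 1 * I' m) +
        ε / (4 * M)) * (X * (Real.log X) ^ (2 * s)) := by
    intro m hm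
    have hm' : m < M := Finset.mem_range.1 hm
    have hD1 := hDo s (1 / 10) c₀ c (min ca cb) (2 ^ (s + 1)) (fl s δ m) hs (by norm_num) le_rfl
      hc₀ hcc.le hc1 hcm hB (bf m)
    have hD2 := hDo s (1 / 10) c₀ c (min ca cb) (2 ^ (s + 1)) (gl s δ m) hs (by norm_num) le_rfl
      hc₀ hcc.le hc1 hcm hB (bg m)
    refine c5 s h (1 / 10) (2 ^ (s + 1)) (I m) (I' m) 1 (ps s (1 / 10))
      (fun X n => Tg s (fl s δ m) (Real.log X) n) (fun X n => Tg s (gl s δ m) (Real.log X) n)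
      (HS s c₀ c (min ca cb) (fl s δ m)) (HS s c₀ c (min ca cb) (gl s δ m)) hs hh (by norm_num)
      (by norm_num) hW hB one_pos hD1 hD2 ?_ (hMa m hm' _ hcm (min_le_left _ _))
      (hMb m hm' _ hcm (min_le_right _ _)) (ε / (4 * M)) (by positivity)
    filter_upwards [eventually_gt_atTop (1 : ℝ)] with X hX n hn1 hn2
    have hL : 0 < Real.log X := Real.log_pos hX
    have hn : n ≠ 0 := by
      intro h0
      rw [h0] at hn1
      have : 0 < X / Real.log X := by positivity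
      simp only [Nat.cast_zero] at hn1
      linarith
    have e1 := IC6.Tg_one h3 s (Real.log X) n hn
    constructor
    · rw [abs_of_nonneg (IC6.Tg_nonneg s _ (fun v => (bf m v).1) _ _), ← e1]
      exact IC6.Tg_le s _ _ (fun v => (bf m v).2) _ _
    · rw [abs_of_nonneg (IC6.Tg_nonneg s _ (fun v => (bg m v).1) _ _), ← e1]
      exact IC6.Tg_le s _ _ (fun v => (bg m v).2) _ _
  have key' := (Filter.eventually_all_finset (Finset.range M)).2 key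
  filter_upwards [key', eventually_gt_atTop (1 : ℝ)] with X hkX hX
  have hL : 0 < Real.log X := Real.log_pos hX
  have hY : 0 ≤ X * (Real.log X) ^ (2 * s) := by positivity
  have e2 : ∑ n ∈ Finset.Ioc ⌊X / Real.log X⌋₊ (⌊X⌋₊ - h), BL s h δ X n =
      ∑ m ∈ Finset.range M, ∑ n ∈ Finset.Ioc ⌊X / Real.log X⌋₊ (⌊X⌋₊ - h),
        (|Tg s (fl s δ m) (Real.log X) n| * |Tg s (gl s δ m) (Real.log X) (n + h)| +
          |Tg s (gl s δ m) (Real.log X) n| * |Tg s (fl s δ m) (Real.log X) (n + h)|) := by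
    rw [Finset.sum_comm]
    apply Finset.sum_congr rfl
    intro n _
    unfold BL
    rw [← hM]
    apply Finset.sum_congr rfl
    intro m _
    rw [abs_of_nonneg (IC6.Tg_nonneg s _ (fun v => (bf m v).1) _ n),
      abs_of_nonneg (IC6.Tg_nonneg s _ (fun v => (bf m v).1) _ (n + h)),
      abs_of_nonneg (IC6.Tg_nonneg s _ (fun v => (bg m v).1) _ n),
      abs_of_nonneg (IC6.Tg_nonneg s _ (fun v => (bg m v).1) _ (n + h))]
  rw [e2]
  refine (Finset.sum_le_sum fun m hm => hkX m hm).trans ?_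
  rw [← Finset.sum_mul]
  apply mul_le_mul_of_nonneg_right _ hY
  have e3 : ∑ m ∈ Finset.range M,
      (((s : ℝ) + 1) * (Csing s h * ∫ y in O1 s, ps s (1 / 10) y) * (I m / 1 + 1 * I' m) +
        ε / (4 * M)) =
      A * (∑ m ∈ Finset.range M, I m + ∑ m ∈ Finset.range M, I' m) + ε / 4 := by
    rw [Finset.sum_add_distrib, Finset.sum_const, Finset.card_range, nsmul_eq_mul, ← hA,
      ← Finset.mul_sum, ← Finset.sum_add_distrib]
    have : (M : ℝ) * (ε / (4 * M)) = ε / 4 := by field_simp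
    rw [this]
    congr 2
    apply Finset.sum_congr rfl
    intro m _
    ring
  rw [e3]
  have c1 : ((Finset.powersetCard 1 (Finset.univ : Finset (Fin (s + 1)))).card : ℝ) ≤
      2 ^ (s + 1) := by
    exact_mod_cast (hFp.2 s (Finset.powersetCard 1 Finset.univ) 0 3 δ 0).2.2
  have c2 : ((Finset.powersetCard 2 (Finset.univ : Finset (Fin (s + 1)))).card : ℝ) ≤
      2 ^ (s + 1) := by
    exact_mod_cast (hFp.2 s (Finset.powersetCard 2 Finset.univ) 0 3 δ 0).2.2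
  rw [h1c] at hI2 hI'2
  have hJe : 0 ≤ JJ s c₀ * e1 := by positivity
  have e4 : ∑ m ∈ Finset.range M, I m + ∑ m ∈ Finset.range M, I' m ≤
      8 * 2 ^ (s + 1) * (JJ s c₀ * e1) + 2 * e' := by
    have h1 : 4 * ((Finset.powersetCard 1 (Finset.univ : Finset (Fin (s + 1)))).card : ℝ) *
        (JJ s c₀ * e1) ≤ 4 * 2 ^ (s + 1) * (JJ s c₀ * e1) := by
      apply mul_le_mul_of_nonneg_right _ hJe
      linarith
    have h2 : 4 * ((Finset.powersetCard 2 (Finset.univ : Finset (Fin (s + 1)))).card : ℝ) *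
        (JJ s c₀ * e1) ≤ 4 * 2 ^ (s + 1) * (JJ s c₀ * e1) := by
      apply mul_le_mul_of_nonneg_right _ hJe
      linarith
    linarith
  have e5 : A * (∑ m ∈ Finset.range M, I m + ∑ m ∈ Finset.range M, I' m) ≤
      A * (8 * 2 ^ (s + 1) * (JJ s c₀ * e1) + 2 * e') := mul_le_mul_of_nonneg_left e4 hA0
  have e6 : A * (8 * 2 ^ (s + 1) * (JJ s c₀ * e1) + 2 * e') = Q * e1 + A * (2 * e') := by
    rw [hQ]; ring
  linarith

end Pool.Agent.Work.MP_122e00_nt.Strip
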