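import Pool.Agent.Work.MP_122e00_nt.Strip.Stmts

set_option autoImplicit false

/-!
# The joint strip, item St (helper6)
-/

namespace Pool.Agent.Work.MP_122e00_nt.Strip

open Finset Filter Topology MeasureTheory

open scoped ArithmeticFunction.vonMangoldt ArithmeticFunction.zeta ENNReal

open Two Gen Pool.Agent.Work.MP_122e00_nt.Core Pool.Agent.Work.MP_122e00_nt.WR

theorem prSt (hSu : claimSu) (hOn : claimOn) (hTw : claimTw) : claimSt := by
  intro s h ε hs hh hε
  rcases Nat.lt_or_ge s 2 with h2 | h2
  · have h1 : s = 1 := by omega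
    subst h1
    refine ⟨1 / 4, by norm_num, ?_⟩
    filter_upwards [hOn h ε hh hε] with X hX
    have h0 : 0 ≤ coreS 1 h 0 X := by
      unfold coreS
      positivity
    linarith
  · obtain ⟨δ, hδ, hT⟩ := hTw s h (ε / 2) h2 hh (by linarith)
    refine ⟨δ, hδ, ?_⟩
    filter_upwards [hT, hSu s h δ (ε / 2) hs hh hδ (by linarith)] with X hX1 hX2
    linarith

end Pool.Agent.Work.MP_122e00_nt.Strip
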