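import Pool.Agent.Work.MP_122e00_nt.Core.All
import Pool.Agent.Work.MP_122e00_nt.Strip.I_Pb
import Pool.Agent.Work.MP_122e00_nt.Strip.I_Do
import Pool.Agent.Work.MP_122e00_nt.Strip.I_Me
import Pool.Agent.Work.MP_122e00_nt.Strip.I_Ca
import Pool.Agent.Work.MP_122e00_nt.Strip.I_Cb
import Pool.Agent.Work.MP_122e00_nt.Strip.I_Ch
import Pool.Agent.Work.MP_122e00_nt.Strip.I_Ta
import Pool.Agent.Work.MP_122e00_nt.Strip.I_Sq
import Pool.Agent.Work.MP_122e00_nt.Strip.I_Ae
import Pool.Agent.Work.MP_122e00_nt.Strip.I_Cn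
import Pool.Agent.Work.MP_122e00_nt.Strip.I_Lm
import Pool.Agent.Work.MP_122e00_nt.Strip.I_Bn
import Pool.Agent.Work.MP_122e00_nt.Strip.I_Fa
import Pool.Agent.Work.MP_122e00_nt.Strip.I_Im
import Pool.Agent.Work.MP_122e00_nt.Strip.I_Pt
import Pool.Agent.Work.MP_122e00_nt.Strip.I_Su
import Pool.Agent.Work.MP_122e00_nt.Strip.I_On
import Pool.Agent.Work.MP_122e00_nt.Strip.I_Fp
import Pool.Agent.Work.MP_122e00_nt.Strip.I_Tw
import Pool.Agent.Work.MP_122e00_nt.Strip.I_St

set_option autoImplicit false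

/-!
# The joint strip: assembly
-/

namespace Pool.Agent.Work.MP_122e00_nt.Strip

theorem mPb : claimPb := prPb Gen.prfB0 Gen.prfB4

theorem mDo : claimDo := prDo Gen.prfG2 Gen.mB2 Gen.prfB3 Gen.mB5 mPb

theorem mMe : claimMe := prMe Gen.mM3

theorem mCh : claimCh := prCh prCa (prCb Gen.prfB8)

theorem mSq : claimSq := prSq prTa

theorem mLm : claimLm := prLm (prAe Two.prfL6) prCn Two.prfT8

theorem mBn : claimBn := prBn mSq Two.prfT8

theorem mFa : claimFa := prFa mLm mBn mCh Gen.mB9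

theorem mSu : claimSu := prSu prPt Core.mC8

theorem mOn : claimOn := prOn

theorem mTw : claimTw := prTw Gen.prfB3 Gen.prfB10 mDo mMe mFa prIm mBn prFp Core.mC5

/-- The joint strip. -/
theorem stStrip : WR.StStrip := prSt mSu mOn mTw

end Pool.Agent.Work.MP_122e00_nt.Strip
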