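import Pool.Agent.Work.MP_122e00_nt.Strip.Stmts

set_option autoImplicit false

/-! The joint strip: item Cn (helper59). -/

namespace Pool.Agent.Work.MP_122e00_nt.Strip

open Finset Filter Topology MeasureTheory

open scoped ArithmeticFunction.vonMangoldt ArithmeticFunction.zeta ENNReal

open Two Gen Pool.Agent.Work.MP_122e00_nt.Core Pool.Agent.Work.MP_122e00_nt.WR

namespace ICn

theorem card_R (s : ℕ) (S : Finset (Fin (s + 1))) :
    ((Finset.univ : Finset (Fin (s + 1) × Fin (s + 1))).filter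
      (fun q => (q.1 ∈ S ↔ q.2 ∈ S))).card = S.card ^ 2 + (s + 1 - S.card) ^ 2 := by
  have h1 : (Finset.univ : Finset (Fin (s + 1) × Fin (s + 1))).filter
      (fun q => (q.1 ∈ S ↔ q.2 ∈ S)) = S ×ˢ S ∪ Sᶜ ×ˢ Sᶜ := by
    ext q
    simp only [Finset.mem_filter, Finset.mem_univ, true_and, Finset.mem_union, Finset.mem_product,
      Finset.mem_compl]
    tauto
  have h2 : Disjoint (S ×ˢ S) (Sᶜ ×ˢ Sᶜ) := by
    rw [Finset.disjoint_left]
    intro q hq hq'
    rw [Finset.mem_product] at hq hq'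
    exact (Finset.mem_compl.mp hq'.1) hq.1
  rw [h1, Finset.card_union_of_disjoint h2, Finset.card_product, Finset.card_product,
    Finset.card_compl, Fintype.card_fin]
  ring

end ICn

theorem prCn : claimCn := by
  intro s k S hS
  set R := (Finset.univ : Finset (Fin (s + 1) × Fin (s + 1))).filter
      (fun q => (q.1 ∈ S ↔ q.2 ∈ S)) with hR
  have h1 : ((Finset.univ : Finset ((Fin k → Fin (s + 1)) × (Fin k → Fin (s + 1)))).filter
      (fun p => ∀ j, (p.1 j ∈ S ↔ p.2 j ∈ S))).card ≤
      (Fintype.piFinset fun _ : Fin k => R).card := by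
    refine Finset.card_le_card_of_injOn (fun p j => (p.1 j, p.2 j)) ?_ ?_
    · intro p hp
      have hp' : ∀ j, (p.1 j ∈ S ↔ p.2 j ∈ S) := (Finset.mem_filter.mp hp).2
      refine Finset.mem_coe.mpr (Fintype.mem_piFinset.mpr fun j => ?_)
      rw [hR, Finset.mem_filter]
      exact ⟨Finset.mem_univ _, hp' j⟩
    · intro p _ q _ hpq
      have h2 : ∀ j, (p.1 j, p.2 j) = (q.1 j, q.2 j) := fun j => congrFun hpq j
      refine Prod.ext (funext fun j => ?_) (funext fun j => ?_)
      · exact (Prod.ext_iff.mp (h2 j)).1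
      · exact (Prod.ext_iff.mp (h2 j)).2
  refine h1.trans ?_
  rw [Fintype.card_piFinset_const, hR, ICn.card_R]
  exact Nat.pow_le_pow_left hS k

end Pool.Agent.Work.MP_122e00_nt.Strip
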