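import Pool.Agent.Work.MP_122e00_nt.Core.Stmts
import Pool.Agent.Work.MP_122e00_nt.WR.Defs

set_option autoImplicit false

/-!
# The joint strip (cand 202, phase 2): definitions and statements with complete proofs

Goal `WR.StStrip`: `coreS s h δ X - coreS s h 0 X ≤ ε X (log X) ^ (2 s)` for a small `δ`.

Idea.  In the strip some `i ≠ j`, `k` have `3 < 3 v_k + 2 (w_i + w_j) ≤ 3 + δ` (positions), or the
same with `v`, `w` exchanged.  Cut it in layers `m`: `3 v_k / δ ∈ [m, m + 1)`, so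
`(3 - 2 (w_i + w_j)) / δ ∈ [m - 1, m + 1)`.  For each layer apply the bilinear inequality `Core.claimC5` to
the weights `fl s δ m` (of `v`) and `gl s δ m` (of `w`), with the chain of marks up to a total `c` close
to `1`; the sum over the layers of the squares counts pairs of equal linear forms, and is smaller
than the square of the number of placements by a power, which beats the length of the chain.

Item `X`: statement `claimX`, file `Strip/I_X.lean`, theorem `prX`, auxiliary lemmas in the namespace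
`Strip.IX`.  All items are independent: other statements are hypotheses `(h : claimY)`.
-/

namespace Pool.Agent.Work.MP_122e00_nt.Strip

open Finset Filter Topology MeasureTheory

open scoped ArithmeticFunction.vonMangoldt ArithmeticFunction.zeta ENNReal

open Two Gen Pool.Agent.Work.MP_122e00_nt.Core Pool.Agent.Work.MP_122e00_nt.WR

/-! ## Definitions -/

/-- The cut off function: `1` on `[-1, 1]`, `0` outside `(-2, 2)`, continuous. -/
noncomputable def ta (t : ℝ) : ℝ := max 0 (min 1 (2 - |t|))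

/-- The weight of the layer `m` for the linear forms `α + β ∑_{q ∈ S} v_q`, `S ∈ 𝒮`. -/
noncomputable def lw {s : ℕ} (𝒮 : Finset (Finset (Fin (s + 1)))) (α β δ : ℝ) (m : ℕ)
    (v : Fin (s + 1) → ℝ) : ℝ :=
  ∑ S ∈ 𝒮, ta ((α + β * ∑ q ∈ S, v q) / δ - m)

/-- The weight for one variable: `3 v_k / δ` is near `m` for some `k`. -/
noncomputable def fl (s : ℕ) (δ : ℝ) (m : ℕ) (v : Fin (s + 1) → ℝ) : ℝ :=
  lw (Finset.powersetCard 1 Finset.univ) 0 3 δ m v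

/-- The weight for two variables: `(3 - 2 (v_i + v_j)) / δ` is near `m` for some `i ≠ j`. -/
noncomputable def gl (s : ℕ) (δ : ℝ) (m : ℕ) (v : Fin (s + 1) → ℝ) : ℝ :=
  lw (Finset.powersetCard 2 Finset.univ) 3 (-2) δ m v

/-- The number of the marks which come when the total of the earlier ones is at least `c₀`. -/
noncomputable def na {k : ℕ} (c₀ : ℝ) (x : Fin k → ℝ) : ℕ :=
  (Finset.univ.filter fun j : Fin k =>
    c₀ ≤ ∑ i ∈ Finset.univ.filter (fun i : Fin k => i < j), x i).card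

open Classical in
/-- The structure function: marks until the total is at least `c`. -/
noncomputable def FS (s : ℕ) (c₀ c : ℝ) (g : (Fin (s + 1) → ℝ) → ℝ) :
    (k : ℕ) → (Fin k → ℝ) → (Fin (s + 1) → ℝ) → ℝ
  | 0 => fun _ _ => 0
  | k + 1 => fun x v => if stp c x then (Pl g x v) ^ 2 / ((s : ℝ) + 1) ^ na c₀ x else 0

/-- The chain scheme. -/
noncomputable def HS (s : ℕ) (c₀ c c₁ : ℝ) (g : (Fin (s + 1) → ℝ) → ℝ) (X : ℝ) (n : ℕ) : ℝ :=
  ∑ k ∈ Finset.range (⌊c₁ * Real.log X⌋₊ + 1), TS (Real.log X) s k n (FS s c₀ c g k)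

/-- The linear form of `S` after the placement `σ` of the marks. -/
noncomputable def ell {s k : ℕ} (S : Finset (Fin (s + 1))) (σ : Fin k → Fin (s + 1))
    (x : Fin k → ℝ) (v : Fin (s + 1) → ℝ) : ℝ :=
  ∑ q ∈ S, (v q + ∑ j, if σ j = q then x j else 0)

/-- The number of pairs of placements and sets whose linear forms differ by less than `ρ`. -/
noncomputable def cn {s k : ℕ} (𝒮 : Finset (Finset (Fin (s + 1)))) (ρ : ℝ)
    (x : Fin k → ℝ) (v : Fin (s + 1) → ℝ) : ℕ :=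
  ((((Finset.univ : Finset (Fin k → Fin (s + 1))) ×ˢ 𝒮) ×ˢ
    ((Finset.univ : Finset (Fin k → Fin (s + 1))) ×ˢ 𝒮)).filter fun p =>
      |ell p.1.2 p.1.1 x v - ell p.2.2 p.2.1 x v| < ρ).card

open Classical in
/-- The majorant of the sum over the layers. -/
noncomputable def GS (s : ℕ) (c₀ c ρ : ℝ) (𝒮 : Finset (Finset (Fin (s + 1)))) :
    (k : ℕ) → (Fin k → ℝ) → (Fin (s + 1) → ℝ) → ℝ
  | 0 => fun _ _ => 0
  | k + 1 => fun x v => if stp c x then 4 * (cn 𝒮 ρ x v : ℝ) / ((s : ℝ) + 1) ^ na c₀ x else 0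

open Classical in
/-- The limit of the majorant, divided by `4 |𝒮|`. -/
noncomputable def QS (s : ℕ) (c₀ c : ℝ) : (k : ℕ) → (Fin k → ℝ) → ℝ
  | 0 => fun _ => 0
  | k + 1 => fun x =>
    if stp c x then ((s : ℝ) * (s + 1)) ^ (k + 1) / ((s : ℝ) + 1) ^ na c₀ x else 0

/-- The weight of one mark, as a function of the total of the earlier marks. -/
noncomputable def fw (s : ℕ) (c₀ t : ℝ) : ℝ := (if t < c₀ then (s : ℝ) * (s + 1) else s) / (1 - t)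

/-- The supersolution. -/
noncomputable def Ew (s : ℕ) (c₀ c t : ℝ) : ℝ :=
  if t < c₀ then ((1 - t) / (1 - c₀)) ^ (s * (s + 1)) * ((1 - c₀) / (1 - c)) ^ s
  else ((1 - t) / (1 - c)) ^ s

/-- The constant of the chain integral. -/
noncomputable def JJ (s : ℕ) (c₀ : ℝ) : ℝ :=
  (s : ℝ) * (s + 1) * (1 - c₀) ^ s / (((s + 1).factorial : ℝ) * (1 - c₀) ^ (s * (s + 1)))

/-- The admissible families of sets. -/
def Fam (s : ℕ) (𝒮 : Finset (Finset (Fin (s + 1)))) : Prop :=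
  ∀ S ∈ 𝒮, S.Nonempty ∧ S ≠ Finset.univ ∧ S.card ^ 2 + (s + 1 - S.card) ^ 2 ≤ s * (s + 1)

open Classical in
/-- The number of pairs of factorisations of `n`, `n + h` in the core; `coreS s h δ X` is the sum of
`nc s h δ X n` over `n ∈ Icc 1 ⌊X⌋₊`, by definition. -/
noncomputable def nc (s h : ℕ) (δ X : ℝ) (n : ℕ) : ℝ :=
  ((((Nat.finMulAntidiag (s + 1) n ×ˢ Nat.finMulAntidiag (s + 1) (n + h)).filter
    (fun p => IsCore s δ X p.1 p.2)).card : ℕ) : ℝ)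

/-- The bilinear sum over the layers, at `n`. -/
noncomputable def BL (s h : ℕ) (δ X : ℝ) (n : ℕ) : ℝ :=
  ∑ m ∈ Finset.range (⌊3 / δ⌋₊ + 1),
    (Tg s (fl s δ m) (Real.log X) n * Tg s (gl s δ m) (Real.log X) (n + h) +
      Tg s (gl s δ m) (Real.log X) n * Tg s (fl s δ m) (Real.log X) (n + h))

/-! ## Domination and mean values -/

/-- Pb (EASY-MEDIUM): the number of good placements.
PROOF.  (h0 : claimB0, h4 : claimB4.)  Induction on `k` (for all `v`).  `k = 0`: `na c₀ x = 0` and `claimB4`.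
Step, `x : Fin (k + 1) → ℝ`.  Case `c₀ ≤ ∑ (Fin.init x)`: `na c₀ x = na c₀ (Fin.init x) + 1` (the index
`Fin.last k` is counted; for `j = castSucc j'` the sum over `i < j` is the sum of `Fin.init x` over
`i < j'`), and by `claimB0`: `Pl g x v = ∑ i, Pl g (Fin.init x) (ad v i (x (Fin.last k)))`, `s + 1` terms, each
`≥ (s + 1) ^ na c₀ (Fin.init x)` by induction (`ad v i t ≥ 0`, `∑ (ad v i t) = ∑ v + t`).  Case
`∑ (Fin.init x) < c₀`: all the partial sums are `≤ ∑ (Fin.init x) < c₀` (`x ≥ 0`), so `na c₀ x = 0`, and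
`claimB4` for `x`. -/
def claimPb : Prop := ∀ (s k : ℕ) (θ c₀ : ℝ), 1 ≤ s → 0 < θ → θ ≤ 1 / 10 →
    c₀ = ((s : ℝ) - 1) / (2 * s) + 2 * θ → ∀ (x : Fin k → ℝ) (v : Fin (s + 1) → ℝ),
    (∀ m, 0 ≤ x m) → (∀ i, 0 ≤ v i) → ∑ m, x m + ∑ i, v i ≤ 1 → c₀ ≤ ∑ m, x m →
    ((s : ℝ) + 1) ^ na c₀ x ≤ Pl (gs (ps s θ)) x v

/-- Do (EASY-MEDIUM): domination by the chain scheme.
PROOF.  Copy of `Core/I_C2.lean` (`IC2.core`, `prC2`) with `FS s c₀ c g` in place of `FG s c g`, and `c` not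
tied to `θ`: (g2 : Gen.claimG2) (h2 : claimB2) (h3 : claimB3) (h5 : claimB5) (hPb : claimPb).  In `key`, if
`stp c x` then `c₀ ≤ c ≤ ∑ x`, so with `G = Pl (gs (ps s θ)) x v ≥ (s + 1) ^ na c₀ x` (claimPb):
`(Pl g x v) ^ 2 = ((Pl g x v) ^ 2 / (s + 1) ^ na) * (s + 1) ^ na ≤ FS * G`.  `c < log n / log X` for `X` large:
`log n ≥ log X - log log X` and `log log X ≤ (1 - c) / 2 * log X`. -/
def claimDo : Prop := ∀ (s : ℕ) (θ c₀ c c₁ B : ℝ) (g : (Fin (s + 1) → ℝ) → ℝ), 1 ≤ s → 0 < θ →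
    θ ≤ 1 / 10 → c₀ = ((s : ℝ) - 1) / (2 * s) + 2 * θ → c₀ ≤ c → c < 1 → 0 < c₁ → 1 ≤ B →
    (∀ v, 0 ≤ g v ∧ g v ≤ B) →
    DomB s B (ps s θ) (fun X n => Tg s g (Real.log X) n) (HS s c₀ c c₁ g)

/-- Me (EASY-MEDIUM): the mean value of the chain scheme.
PROOF.  Copy of `Core/I_C3.lean` with `FS s c₀ c g` in place of `FG s c g` (hM3 : claimM3; hL6 : Two.claimL6
if needed).  `0 ≤ FS ≤ FG` (division by `(s + 1) ^ na ≥ 1`).  Continuity: near almost every `y` also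
`na c₀ (x p)` is constant: for `j : Fin (k + 1)` the comparison `c₀ ≤ ∑_{i < j} x_i` is constant if `j = 0`
(empty sum), and for `j ≠ 0` the set `∑_{i < j} y (inl i) = c₀` is an affine hyperplane (claimL6,
coefficient `1` at `inl 0`), off which both `<` and `>` are open conditions; a finite number of `j`. -/
def claimMe : Prop := ∀ (s h : ℕ) (θ c₀ c B I : ℝ) (ψ : (Fin s → ℝ) → ℝ)
    (g : (Fin (s + 1) → ℝ) → ℝ), 1 ≤ s → h ≠ 0 → 0 < θ → θ < 1 / 2 → Wt s θ ψ → 0 < c → c < 1 →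
    1 ≤ B → (∀ v, 0 ≤ g v ∧ g v ≤ B) → Continuous g →
    (∀ K, ∑ k ∈ Finset.range (K + 1),
      ∫ y in Sim k s, ext (FS s c₀ c g k) (y, 1 - ∑ i, y i) * den y ≤ I) →
    ∃ c' : ℝ, 0 < c' ∧ ∀ c₁ : ℝ, 0 < c₁ → c₁ ≤ c' → Mean s h ψ (HS s c₀ c c₁ g) I

/-! ## The chain integral -/

/-- Ca (EASY-MEDIUM): `Ew` is a supersolution.
PROOF.  For `a ≥ c₀`: on `(a, c)` the integrand is `(s / (1 - t)) ((1 - t) / (1 - c)) ^ s`, and
`Gen.IB9.int_E` (file Bd/B45.lean, with `n + 1 = s`) gives equality.  For `a < c₀`: split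
`(a, c) = (a, c₀) ∪ [c₀, c)`; with `D = ((1 - c₀) / (1 - c)) ^ s` the first part is
`D * (((1 - a) / (1 - c₀)) ^ q - 1)`, `q = s (s + 1)` (`int_E` with `n + 1 = q`, `c₀` in place of `c`), the second
`D - 1` (`int_E` at `a = c₀`); the sum plus `1` is `Ew a`. -/
def claimCa : Prop := ∀ (s : ℕ) (c₀ c : ℝ), 1 ≤ s → 0 < c₀ → c₀ < c → c < 1 →
    ∀ a, 0 ≤ a → a < c → 1 + ∫⁻ t in Set.Ioo a c, ENNReal.ofReal (fw s c₀ t) *
      ENNReal.ofReal (Ew s c₀ c t) ≤ ENNReal.ofReal (Ew s c₀ c a)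

/-- Cb (MEDIUM): the term with `k + 1` marks.
PROOF.  Copy of `Gen.IB9.term` (Bd/B45.lean; h8 : claimB8), with the function
`f x = if stp c x then q ^ (k + 1) / (s + 1) ^ na c₀ x else 0`, `q = s (s + 1)` (bounded by `q ^ (k + 1)`;
measurable: `na` is a finite sum of indicators, so `f` is a measurable function of finitely many
measurable conditions).  For `x = Fin.snoc y t`: the index `j = 0` is not counted in `na` (empty sum `0 < c₀`),
`j = Fin.succ m` is counted iff `c₀ ≤ ∑_{i ≤ m} y_i`; so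
`q ^ (k + 1) / (s + 1) ^ na = q * ∏_m (if ∑_{i ≤ m} y_i < c₀ then q else q / (s + 1))` and `q / (s + 1) = s`. -/
def claimCb : Prop := ∀ (s k : ℕ) (c₀ c : ℝ), 1 ≤ s → 0 < c₀ → c₀ < c → c < 1 →
    0 ≤ (∫ y in Sim (k + 1) s, QS s c₀ c (k + 1) (fun i => y (Sum.inl i)) * den y) ∧
    ENNReal.ofReal (∫ y in Sim (k + 1) s, QS s c₀ c (k + 1) (fun i => y (Sum.inl i)) * den y) ≤
      ENNReal.ofReal ((s : ℝ) * (s + 1) * ((1 - c) ^ (s + 1) / ((s + 1).factorial : ℝ))) *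
      ∫⁻ x in {x : Fin k → ℝ | (∀ m, 0 < x m) ∧ ∑ m, x m < c},
        ∏ m : Fin k, ENNReal.ofReal
          (fw s c₀ (∑ m' ∈ Finset.univ.filter (fun m' : Fin k => m' ≤ m), x m'))

/-- Ch (EASY): the sum over the lengths of the chain.
PROOF.  Copy of `Gen.prfB9` (Bd/B45.lean) from `claimCb`, `claimCa` and `Hyb.prfC0` (proved: import
Hyb/ItemC0), with `f t = ENNReal.ofReal (fw s c₀ t)`, `E t = ENNReal.ofReal (Ew s c₀ c t)`, `e = c`.  The total is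
`s (s + 1) (1 - c) ^ (s + 1) / (s + 1)! * Ew s c₀ c 0 = JJ s c₀ * (1 - c)`. -/
def claimCh : Prop := ∀ (s : ℕ) (c₀ c : ℝ), 1 ≤ s → 0 < c₀ → c₀ < c → c < 1 → ∀ K : ℕ,
    ∑ k ∈ Finset.range (K + 1), ∫ y in Sim k s, QS s c₀ c k (fun i => y (Sum.inl i)) * den y ≤
      JJ s c₀ * (1 - c)

/-! ## The sum over the layers -/

/-- Ta (EASY): the cut off functions of the layers.
PROOF.  `0 ≤ ta ≤ 1` and `ta t ≠ 0` implies `|t| < 2`.  If `|a - b| ≥ 4` all the products vanish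
(`|a - b| ≤ |a - m| + |b - m| < 4` otherwise).  In general the sum is at most the number of the
naturals `m` with `a - 2 < m < a + 2`; if `m₀` is the least of them, all are in
`Finset.Ico m₀ (m₀ + 4)` (since `m < a + 2 < m₀ + 4`), so there are at most `4`. -/
def claimTa : Prop := ∀ (a b : ℝ) (M : ℕ),
    ∑ m ∈ Finset.range M, ta (a - m) * ta (b - m) ≤ if |a - b| < 4 then 4 else 0

/-- Sq (EASY-MEDIUM): the sum of the squares.
PROOF.  (hTa : claimTa.)  By definition `Pl (lw 𝒮 α β δ m) x v = ∑_{(σ, S) ∈ univ ×ˢ 𝒮} ta (a_(σ,S) - m)`,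
`a_(σ,S) = (α + β * ell S σ x v) / δ` (`Finset.sum_product`).  The square is the double sum
(`Finset.sum_mul_sum`, `sq`); exchange with the sum over `m`; claimTa; and `|a_p - a_p'| < 4` implies
`|ell - ell'| < 4 δ / |β| ≤ ρ`.  The number of the pairs with `|ell - ell'| < ρ` is `cn`. -/
def claimSq : Prop := ∀ (s k : ℕ) (𝒮 : Finset (Finset (Fin (s + 1)))) (α β δ ρ : ℝ), 0 < δ →
    β ≠ 0 → 4 * δ ≤ ρ * |β| → ∀ (x : Fin k → ℝ) (v : Fin (s + 1) → ℝ) (M : ℕ),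
    ∑ m ∈ Finset.range M, (Pl (lw 𝒮 α β δ m) x v) ^ 2 ≤ 4 * (cn 𝒮 ρ x v : ℝ)

/-- Ae (MEDIUM): different linear forms are different almost everywhere.
PROOF.  (hL6 : Two.claimL6; compare `IC4.ae_aff`, `IC4.ae_half` in Core/I_C4.lean.)  There are finitely
many `σ, σ', S, S'` (`ae_all_iff`).  With `v = Fin.snoc (y ∘ inr) (1 - ∑ y)`:
`ell S σ x v = ∑_{q ∈ S} v_q + ∑_{j : σ j ∈ S} x_j = [last ∈ S] + ∑_i ([castSucc i ∈ S] - [last ∈ S]) y (inr i) +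
∑_j ([σ j ∈ S] - [last ∈ S]) y (inl j)`.  Let `c` be the vector of the differences of the coefficients
for `(S, σ)` and `(S', σ')`.  If `c ≠ 0` then the equality holds only on an affine hyperplane, a null
set.  If `c = 0`, put `λ = [last ∈ S] - [last ∈ S']`; then `[q ∈ S] - [q ∈ S'] = λ` for all `q`.  `λ = 1` gives
`S = univ`, `λ = -1` gives `S' = univ`: excluded.  So `λ = 0`, `S = S'` and `[σ j ∈ S] = [σ' j ∈ S]`. -/
def claimAe : Prop := ∀ (s k : ℕ), ∀ᵐ y : Fin k ⊕ Fin s → ℝ,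
    ∀ (σ σ' : Fin k → Fin (s + 1)) (S S' : Finset (Fin (s + 1))), S ≠ Finset.univ →
    S' ≠ Finset.univ →
    ell S σ (fun i => y (Sum.inl i)) (Fin.snoc (fun i => y (Sum.inr i)) (1 - ∑ i, y i)) =
      ell S' σ' (fun i => y (Sum.inl i))
        (Fin.snoc (fun i => y (Sum.inr i)) (1 - ∑ i, y i)) →
    S = S' ∧ ∀ j, (σ j ∈ S ↔ σ' j ∈ S)

/-- Cn (EASY): the number of pairs of placements with equal linear forms.
PROOF.  The pairs `(σ, σ')` are the functions `j ↦ (σ j, σ' j)` (`Equiv.arrowProdEquivProdArrow`) with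
values in `R = {(a, b) | a ∈ S ↔ b ∈ S} = S ×ˢ S ∪ Sᶜ ×ˢ Sᶜ`, a disjoint union of cardinality
`|S| ^ 2 + (s + 1 - |S|) ^ 2`; so there are `|R| ^ k ≤ (s (s + 1)) ^ k` (`Fintype.card_piFinset_const`). -/
def claimCn : Prop := ∀ (s k : ℕ) (S : Finset (Fin (s + 1))),
    S.card ^ 2 + (s + 1 - S.card) ^ 2 ≤ s * (s + 1) →
    ((Finset.univ : Finset ((Fin k → Fin (s + 1)) × (Fin k → Fin (s + 1)))).filter
      (fun p => ∀ j, (p.1 j ∈ S ↔ p.2 j ∈ S))).card ≤ (s * (s + 1)) ^ k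

/-- Lm (MEDIUM): the limit `ρ → 0`, for a fixed number of marks.
PROOF.  (hAe : claimAe) (hCn : claimCn) (h8 : Two.claimT8); compare `IC4.lim` in Core/I_C4.lean.  `k = 0`:
both integrals are `0`.  For `k + 1` marks use dominated convergence
(`tendsto_integral_of_dominated_convergence`) for `ρ = 1 / (n + 1)`, `n → ∞`: the integrand is measurable
(`cn` is a finite sum of indicators of conditions `|ell - ell'| < ρ`, `ell` is continuous in `y`;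
`stp`, `na` as in IC4, IB9), and bounded by `4 (|𝒮| (s + 1) ^ (k + 1)) ^ 2 * den y` (`(s + 1) ^ na ≥ 1`), which is
integrable on `Sim` (claimT8).  Pointwise limit for almost every `y`: the finitely many
differences `|ell - ell'|` which are not `0` are `≥ ρ_y > 0`, so for `ρ ≤ ρ_y` `cn 𝒮 ρ x v` is the number
`cn₀` of the pairs with `ell = ell'`; by claimAe (`S ≠ univ` by `Fam`) these have `S = S'` and
`σ j ∈ S ↔ σ' j ∈ S`, so `cn₀ ≤ |𝒮| (s (s + 1)) ^ (k + 1)` (claimCn).  So the limit of the integrals is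
`∫ [stp] 4 cn₀ / (s + 1) ^ na den ≤ 4 |𝒮| ∫ QS den`, and some `n` is good. -/
def claimLm : Prop := ∀ (s k : ℕ) (c₀ c ε : ℝ) (𝒮 : Finset (Finset (Fin (s + 1)))), 1 ≤ s →
    Fam s 𝒮 → 0 < ε → ∃ ρ : ℝ, 0 < ρ ∧
    ∫ y in Sim k s, ext (GS s c₀ c ρ 𝒮 k) (y, 1 - ∑ i, y i) * den y ≤
      4 * (𝒮.card : ℝ) * (∫ y in Sim k s, QS s c₀ c k (fun i => y (Sum.inl i)) * den y) + ε

/-- Bn (MEDIUM): bounds for the sum over the layers.
PROOF.  (hSq : claimSq) (h8 : Two.claimT8); compare `IC4.int_FG`, `IC4.int_mono`.  All the functions are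
measurable, nonnegative and bounded by a constant times `den` on `Sim` (`lw` is continuous,
`0 ≤ lw ≤ |𝒮|`; for `GS` see claimLm), so the integrals of finite sums are the sums of the integrals
(`integral_finset_sum`).  Pointwise, for `k + 1` marks: `∑_m FS ≤ GS` by claimSq, and
`GS (any ρ) ≤ 4 |𝒮| ^ 2 * FB` because `cn ≤ (|𝒮| (s + 1) ^ (k + 1)) ^ 2` and `(s + 1) ^ na ≥ 1`;
`GS` is monotone in `ρ`. -/
def claimBn : Prop := ∀ (s : ℕ) (c₀ c : ℝ) (𝒮 : Finset (Finset (Fin (s + 1)))) (α β δ : ℝ),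
    1 ≤ s → β ≠ 0 → 0 < δ → ∀ k : ℕ,
    (∀ m, 0 ≤ ∫ y in Sim k s, ext (FS s c₀ c (lw 𝒮 α β δ m) k) (y, 1 - ∑ i, y i) * den y) ∧
    ∀ M : ℕ,
      (∀ ρ : ℝ, 4 * δ ≤ ρ * |β| → ∑ m ∈ Finset.range M,
        ∫ y in Sim k s, ext (FS s c₀ c (lw 𝒮 α β δ m) k) (y, 1 - ∑ i, y i) * den y ≤
        ∫ y in Sim k s, ext (GS s c₀ c ρ 𝒮 k) (y, 1 - ∑ i, y i) * den y) ∧
      ∑ m ∈ Finset.range M,
        ∫ y in Sim k s, ext (FS s c₀ c (lw 𝒮 α β δ m) k) (y, 1 - ∑ i, y i) * den y ≤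
        4 * (𝒮.card : ℝ) ^ 2 * ∫ y in Sim k s, ext (FB s c k) (y, 1 - ∑ i, y i) * den y

/-- Fa (MEDIUM): all layers and all lengths of the chain.
PROOF.  (hLm : claimLm) (hBn : claimBn) (hCh : claimCh) (h9 : claimB9); compare `prC4` in Core/I_C4.lean.
`J k = ∫ FB ≥ 0` is summable (claimB9), so `4 |𝒮| ^ 2 ∑_{k ≥ K₀} J k ≤ ε / 2` for some `K₀`.  For each `k < K₀` take
`ρ_k` by claimLm for `ε / (2 K₀ + 2)`, and `δ₁ > 0` with `4 δ₁ ≤ ρ_k |β|` for all `k < K₀`.  For `δ ≤ δ₁`: the terms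
`k < K₀` are at most `4 |𝒮| ∫ QS + ε / (2 K₀ + 2)` (claimBn, first bound, claimLm), those with `k ≥ K₀` at most
`4 |𝒮| ^ 2 J k`; claimCh (and `∫ QS ≥ 0`) for the sum of the first. -/
def claimFa : Prop := ∀ (s : ℕ) (c₀ c ε : ℝ) (𝒮 : Finset (Finset (Fin (s + 1)))) (α β : ℝ),
    1 ≤ s → 0 < c₀ → c₀ < c → c < 1 → Fam s 𝒮 → β ≠ 0 → 0 < ε → ∃ δ₁ : ℝ, 0 < δ₁ ∧
    ∀ δ : ℝ, 0 < δ → δ ≤ δ₁ → ∀ M K : ℕ, ∑ k ∈ Finset.range (K + 1), ∑ m ∈ Finset.range M,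
      ∫ y in Sim k s, ext (FS s c₀ c (lw 𝒮 α β δ m) k) (y, 1 - ∑ i, y i) * den y ≤
      4 * (𝒮.card : ℝ) * (JJ s c₀ * (1 - c)) + ε

/-- Im (EASY): a bound for each layer.
PROOF.  `I m = ∑' k, a m k ≥ 0`.  For `m < M` the partial sums of `a m` are at most `E` (the other terms are
nonnegative), so `a m` is summable (`summable_of_sum_range_le`) and its partial sums are at most
`I m` (`Summable.sum_le_tsum`); and `∑_m I m = ∑' k, ∑_m a m k ≤ E` (`Summable.tsum_finsetSum`,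
`Real.tsum_le_of_sum_range_le`). -/
def claimIm : Prop := ∀ (M : ℕ) (a : ℕ → ℕ → ℝ) (E : ℝ), (∀ m k, 0 ≤ a m k) →
    (∀ K, ∑ k ∈ Finset.range (K + 1), ∑ m ∈ Finset.range M, a m k ≤ E) →
    ∃ I : ℕ → ℝ, (∀ m, 0 ≤ I m) ∧
      (∀ m, m < M → ∀ K, ∑ k ∈ Finset.range (K + 1), a m k ≤ I m) ∧
      ∑ m ∈ Finset.range M, I m ≤ E

/-! ## The strip -/

/-- Pt (MEDIUM): the strip at one `n`.
PROOF.  `L = log X > 0`.  `IsCore 0` implies `IsCore δ` (`X ^ 3 ≤ X ^ (3 + δ)`), so `nc δ - nc 0` is the number of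
the pairs `p = (v, w)` with `IsCore δ` and not `IsCore 0` (`Finset.card_sdiff`, filters), and it is at most
`mc n * mc (n + h)` (all `v_i ^ 2, w_i ^ 2 < X`; product of filters).  `Tg s g L n * Tg s g' L (n + h)` is the sum
over all pairs `(v, w)` of `g t * g' u`, `t i = log (v i) / L`, `u i = log (w i) / L` (`TS L s 0 n F` is a sum over
`Nat.finMulAntidiag` by definition, `Finset.sum_product`, `Finset.sum_mul_sum`), all terms `≥ 0`
(`ta ≥ 0`).  So it is enough that for `p` in the strip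
`∑_m (fl m t * gl m u + gl m t * fl m u) ≥ 1`.  Not `IsCore 0` gives `i ≠ j`, `k` with
`X ^ 3 < (w_i w_j) ^ 2 v_k ^ 3` or `X ^ 3 < (v_i v_j) ^ 2 w_k ^ 3`, and `IsCore δ` gives the upper bound
`X ^ (3 + δ)`.  First case; logarithms (all `v_i, w_i ≥ 1` as `n, n + h ≠ 0`):
`3 < 2 (u_i + u_j) + 3 t_k ≤ 3 + δ`, `0 ≤ t_k < 1 / 2`.  Put `a = 3 t_k / δ`, `m = ⌊a⌋₊ ≤ ⌊3 / δ⌋₊`; then
`a - m ∈ [0, 1)` and `b = (3 - 2 (u_i + u_j)) / δ ∈ [a - 1, a)`, `b - m ∈ [-1, 1)`, so `ta (a - m) = 1 = ta (b - m)`;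
these are terms of `fl m t` (`S = {k}`) and of `gl m u` (`S = {i, j}`, `Finset.sum_pair`).  The second case is
the same with `t` and `u` exchanged. -/
def claimPt : Prop := ∀ (s h n : ℕ) (δ X : ℝ), n ≠ 0 → 1 < X → 0 < δ →
    0 ≤ nc s h δ X n - nc s h 0 X n ∧
    nc s h δ X n - nc s h 0 X n ≤ mc s X n * mc s X (n + h) ∧
    nc s h δ X n - nc s h 0 X n ≤ BL s h δ X n

/-- Su (EASY-MEDIUM): the sum over `n`.
PROOF.  (hPt : claimPt) (hC8 : claimC8.)  `A = ⌊X / log X⌋₊`, `N = ⌊X⌋₊`, `Ioc A (N - h) ⊆ Icc 1 N`, `e n = nc δ n - nc 0 n`.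
`coreS δ - coreS 0 = ∑_{Icc 1 N} e = ∑_{Ioc A (N - h)} e + ∑_{rest} e` (`Finset.sum_sdiff`); the first sum is
`≤ ∑ BL`, the second `≤ ∑_{rest} mc n mc (n + h) = ∑_{Icc 1 N} - ∑_{Ioc A (N - h)} ≤ ε X (log X) ^ (2 s)`
(claimC8, last part, with `δ = ε`). -/
def claimSu : Prop := ∀ (s h : ℕ) (δ ε : ℝ), 1 ≤ s → h ≠ 0 → 0 < δ → 0 < ε →
    ∀ᶠ X : ℝ in atTop, coreS s h δ X - coreS s h 0 X ≤
      ∑ n ∈ Finset.Ioc ⌊X / Real.log X⌋₊ (⌊X⌋₊ - h), BL s h δ X n +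
      ε * (X * (Real.log X) ^ (2 * s))

/-- On (EASY-MEDIUM): the case `s = 1`, where the core with `δ = 1 / 4` contains only small `n`.
PROOF.  Let `(v, w)` be in the core, `v = (v_0, v_1)`, `v_0 v_1 = n`, `w_0 w_1 = n + h`.  Take `k` with
`v_k ^ 2 ≥ n`.  The condition for `i = 0`, `j = 1`, `k` is `(n + h) ^ 2 v_k ^ 3 ≤ X ^ (13 / 4)`, so
`n ^ 7 ≤ ((n + h) ^ 2 v_k ^ 3) ^ 2 ≤ X ^ (13 / 2)` and `n ≤ X ^ (13 / 14)`.  So
`coreS ≤ ∑_{n ≤ X ^ (13 / 14)} dv 1 n * dv 1 (n + h) ≤ X ^ (13 / 14) X ^ (1 / 28)` for large `X`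
(`Two.IU9.zeta_pow_le 1` with `δ = 1 / 28`, in Bd, used in `prfG3`: `dv n ≤ X ^ (1 / 56)` for `n ≤ 2 X`; the
number of pairs is `dv n * dv (n + h)`: claimB3, second part), and
`X ^ (27 / 28) ≤ ε X (log X) ^ 2`. -/
def claimOn : Prop := ∀ (h : ℕ) (ε : ℝ), h ≠ 0 → 0 < ε → ∀ᶠ X : ℝ in atTop,
    coreS 1 h (1 / 4) X ≤ ε * (X * (Real.log X) ^ (2 * 1))

/-- Fp (EASY): the two families are admissible, and bounds for the weights.
PROOF.  `S ∈ powersetCard l univ` iff `|S| = l`; `l = 1`: `1 + s ^ 2 ≤ s (s + 1)`; `l = 2`: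
`4 + (s - 1) ^ 2 ≤ s (s + 1)` as `s ≥ 2`; `S ≠ univ` because `l < s + 1`.  `0 ≤ ta ≤ 1`, so
`0 ≤ lw ≤ |𝒮| ≤ 2 ^ (s + 1)` (`Finset.card_le_univ`, `Fintype.card_finset`); `ta` is continuous. -/
def claimFp : Prop := (∀ (s : ℕ), 2 ≤ s → Fam s (Finset.powersetCard 1 Finset.univ) ∧
      Fam s (Finset.powersetCard 2 Finset.univ)) ∧
    ∀ (s : ℕ) (𝒮 : Finset (Finset (Fin (s + 1)))) (α β δ : ℝ) (m : ℕ),
      (∀ v, 0 ≤ lw 𝒮 α β δ m v ∧ lw 𝒮 α β δ m v ≤ 2 ^ (s + 1)) ∧ Continuous (lw 𝒮 α β δ m) ∧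
      𝒮.card ≤ 2 ^ (s + 1)

/-- Tw (MEDIUM): the bilinear sum, `s ≥ 2`.
PROOF.  Model: `prC6` in Core/I_C6.lean.  (h3 : claimB3) (h10 : claimB10) (hDo : claimDo) (hMe : claimMe)
(hFa : claimFa) (hIm : claimIm) (hBn : claimBn) (hFp : claimFp) (c5 : claimC5).  `θ = 1 / 10`,
`c₀ = (s - 1) / (2 s) + 1 / 5 ∈ (0, 7 / 10)`, `ψ = ps s θ`, `B = 2 ^ (s + 1)`, `A = (s + 1) Csing ∫ ψ ≥ 0`.  Choose
`c ∈ (c₀, 1)` with `A * (8 * 2 ^ (s + 1)) * (JJ s c₀ * (1 - c)) ≤ ε / 4`, then `δ` by claimFa for both families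
(`(𝒮₁, 0, 3)`, `(𝒮₂, 3, -2)`) and `ε'` with `2 A ε' ≤ ε / 4`; `M = ⌊3 / δ⌋₊ + 1`.  claimIm (with
`a m k = ∫ ext (FS (fl m) k) den ≥ 0`: claimBn) gives `I m`, `I' m` with `∑_m I m, ∑_m I' m ≤
4 * 2 ^ (s + 1) * (JJ * (1 - c)) + ε'`.  claimMe for the `2 M` weights, `c₁` = the minimum of the `2 M` numbers
`c'` (a positive lower bound of finitely many positive numbers); claimDo.  claimC5 for each `m` with
`lam = 1`, `T = Tg (fl m)`, `T' = Tg (gl m)`, `δ = ε / (4 M)` (`|T| ≤ B dv` as in prC6).  Sum over `m < M`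
(`Finset.sum_comm`; all terms are nonnegative, so the absolute values can be removed): at most
`(A (∑ I + ∑ I') + ε / 4) X (log X) ^ (2 s) ≤ (3 ε / 4) X (log X) ^ (2 s)`. -/
def claimTw : Prop := ∀ (s h : ℕ) (ε : ℝ), 2 ≤ s → h ≠ 0 → 0 < ε → ∃ δ : ℝ, 0 < δ ∧
    ∀ᶠ X : ℝ in atTop, ∑ n ∈ Finset.Ioc ⌊X / Real.log X⌋₊ (⌊X⌋₊ - h), BL s h δ X n ≤
      ε * (X * (Real.log X) ^ (2 * s))

/-- St (EASY): the joint strip, `WR.StStrip`.
PROOF.  (hSu : claimSu) (hOn : claimOn) (hTw : claimTw.)  `s = 1`: `δ = 1 / 4`, `coreS 0 ≥ 0` and claimOn.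
`s ≥ 2`: claimTw for `ε / 2`, claimSu for `ε / 2`. -/
def claimSt : Prop := StStrip

end Pool.Agent.Work.MP_122e00_nt.Strip
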